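import Pool.Agent.Helper40.LS.Defs

/-! Probability tools for project LS. -/

set_option autoImplicit false
open Classical Filter Topology

namespace Pool.Agent.Helper40.LS

/-- weighted sum over all graphs with an event -/
noncomputable def Ex {n : ℕ} (p : ℝ) (f : Gr n → ℝ) : ℝ := ∑ G, FL.wt p G * f G

/-- indicator -/
noncomputable def ind (P : Prop) : ℝ := if P then 1 else 0

theorem ind_nonneg (P : Prop) : 0 ≤ ind P := by unfold ind; split_ifs <;> norm_num

theorem ind_le_one (P : Prop) : ind P ≤ 1 := by unfold ind; split_ifs <;> norm_num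

theorem ind_mono {P Q : Prop} (h : P → Q) : ind P ≤ ind Q := by
  unfold ind
  by_cases h1 : P
  · rw [if_pos h1, if_pos (h h1)]
  · rw [if_neg h1]; split_ifs <;> norm_num

theorem ind_or_le (P Q : Prop) : ind (P ∨ Q) ≤ ind P + ind Q := by
  by_cases h1 : P <;> by_cases h2 : Q <;> simp [ind, h1, h2]

theorem ind_and (P Q : Prop) : ind (P ∧ Q) = ind P * ind Q := by
  by_cases h1 : P <;> by_cases h2 : Q <;> simp [ind, h1, h2]

theorem ind_true {P : Prop} (h : P) : ind P = 1 := if_pos h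

theorem ind_false {P : Prop} (h : ¬ P) : ind P = 0 := if_neg h

theorem ind_congr {P Q : Prop} (h : P ↔ Q) : ind P = ind Q := by
  unfold ind; simp only [h]

theorem ind_exists_le {β : Type*} (s : Finset β) (A : β → Prop) :
    ind (∃ b ∈ s, A b) ≤ ∑ b ∈ s, ind (A b) := by
  by_cases h : ∃ b ∈ s, A b
  · rw [ind_true h]
    obtain ⟨b, hb, hA⟩ := h
    rw [← ind_true hA]
    exact Finset.single_le_sum (f := fun b => ind (A b)) (fun b _ => ind_nonneg _) hb
  · rw [ind_false h]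
    exact Finset.sum_nonneg fun b _ => ind_nonneg _

/-- probability of an event as a sum with indicators -/
theorem Pr_eq {X : Type} [Fintype X] (p : ℝ) (A : Finset X → Prop) :
    FL.Pr p A = ∑ S, FL.wt p S * ind (A S) := by
  rw [FL.Pr, Finset.sum_filter]
  refine Finset.sum_congr rfl fun S _ => ?_
  unfold ind
  split_ifs <;> simp

theorem Ex_ind {n : ℕ} (p : ℝ) (A : Gr n → Prop) : Ex p (fun G => ind (A G)) = FL.Pr p A :=
  (Pr_eq p A).symm

theorem Ex_mono {n : ℕ} {p : ℝ} (h0 : 0 ≤ p) (h1 : p ≤ 1) {f g : Gr n → ℝ} (h : ∀ G, f G ≤ g G) :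
    Ex p f ≤ Ex p g :=
  Finset.sum_le_sum fun G _ => mul_le_mul_of_nonneg_left (h G) (FL.wt_nonneg h0 h1 G)

theorem Ex_one {n : ℕ} (p : ℝ) : Ex (n := n) p (fun _ => 1) = 1 := by
  unfold Ex; simp only [mul_one]; exact FL.sum_wt p

theorem Ex_nonneg {n : ℕ} {p : ℝ} (h0 : 0 ≤ p) (h1 : p ≤ 1) {f : Gr n → ℝ} (h : ∀ G, 0 ≤ f G) :
    0 ≤ Ex p f := Finset.sum_nonneg fun G _ => mul_nonneg (FL.wt_nonneg h0 h1 G) (h G)

theorem Ex_add {n : ℕ} (p : ℝ) (f g : Gr n → ℝ) : Ex p (fun G => f G + g G) = Ex p f + Ex p g := by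
  unfold Ex; rw [← Finset.sum_add_distrib]; exact Finset.sum_congr rfl fun G _ => by ring

theorem Ex_mul {n : ℕ} (p a : ℝ) (f : Gr n → ℝ) : Ex p (fun G => a * f G) = a * Ex p f := by
  unfold Ex; rw [Finset.mul_sum]; exact Finset.sum_congr rfl fun G _ => by ring

theorem Ex_sum {n : ℕ} {β : Type*} (p : ℝ) (s : Finset β) (f : β → Gr n → ℝ) :
    Ex p (fun G => ∑ b ∈ s, f b G) = ∑ b ∈ s, Ex p (f b) := by
  unfold Ex; simp only [Finset.mul_sum]; exact Finset.sum_comm

/-! ## symmetry -/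

theorem Reserve.tr {n : ℕ} {R : Gr n} {ρ ζ : ℝ} (h : Reserve R ρ ζ) : Reserve (tr R) ρ ζ :=
  ⟨h.deg', by simpa using h.deg, h.cod', by simpa using h.cod⟩

theorem tr_univ {n : ℕ} : tr (Finset.univ : Gr n) = Finset.univ := by ext ⟨a, b⟩; simp

theorem tr_free {n : ℕ} (R U M0 : Gr n) :
    tr (free R U M0) = free (tr R) (tr U) (tr M0) := by
  rw [free, free, tr_sdiff, tr_sdiff, tr_union, tr_univ]

theorem tr_resv {n : ℕ} (R U M0 : Gr n) :
    tr (resv R U M0) = resv (tr R) (tr U) (tr M0) := by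
  rw [resv, resv, tr_sdiff, tr_union]

theorem wt_tr {n : ℕ} (p : ℝ) (G : Gr n) : FL.wt p (tr G) = FL.wt p G := by
  rw [FL.wt, FL.wt, card_tr]

/-- the transposed graph has the same distribution -/
theorem Ex_tr {n : ℕ} (p : ℝ) (f : Gr n → ℝ) : Ex p (fun G => f (tr G)) = Ex p f := by
  unfold Ex
  refine Finset.sum_nbij' tr tr (fun _ _ => Finset.mem_univ _) (fun _ _ => Finset.mem_univ _)
    (fun G _ => tr_tr) (fun G _ => tr_tr) (fun G _ => ?_)
  rw [wt_tr]

theorem act_tr {n : ℕ} (M : Gr n) : act (tr M) = act' M := by rw [act, act', cols_tr]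

theorem act'_tr {n : ℕ} (M : Gr n) : act' (tr M) = act M := by rw [act, act', syms_tr]

/-! ## rows -/

theorem rwt_nonneg {n : ℕ} {pa pc : ℝ} (ha : 0 ≤ pa) (ha1 : pa ≤ 1) (hc : 0 ≤ pc) (hc1 : pc ≤ 1)
    (x : Row n) : 0 ≤ rwt n pa pc x :=
  mul_nonneg (FL.wt_nonneg ha ha1 _) (mul_nonneg (FL.wt_nonneg hc hc1 _) (FL.wt_nonneg hc hc1 _))

/-- sums over a row -/
theorem sum_row {n : ℕ} (pa pc : ℝ) (f : Gr n → Gr n → Gr n → ℝ) :
    ∑ x : Row n, rwt n pa pc x * f x.1 x.2.1 x.2.2 =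
      Ex pa fun A => Ex pc fun C => Ex pc fun S => f A C S := by
  unfold Ex rwt
  rw [Fintype.sum_prod_type]
  refine Finset.sum_congr rfl fun A _ => ?_
  rw [Fintype.sum_prod_type, Finset.mul_sum]
  refine Finset.sum_congr rfl fun C _ => ?_
  rw [Finset.mul_sum, Finset.mul_sum]
  refine Finset.sum_congr rfl fun S _ => ?_
  ring

theorem sum_rwt {n : ℕ} (pa pc : ℝ) : ∑ x : Row n, rwt n pa pc x = 1 := by
  have h := sum_row (n := n) pa pc (fun _ _ _ => 1)
  simp only [mul_one, Ex_one] at h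
  exact h

theorem PR_eq {n : ℕ} (pa pc : ℝ) (P : (Fin n → Row n) → Prop) :
    PR n pa pc P = ∑ x, (∏ t, rwt n pa pc (x t)) * ind (P x) := by
  rw [PR, Finset.sum_filter]
  refine Finset.sum_congr rfl fun x _ => ?_
  unfold ind; split_ifs <;> simp

theorem PR_mono {n : ℕ} {pa pc : ℝ} (ha : 0 ≤ pa) (ha1 : pa ≤ 1) (hc : 0 ≤ pc) (hc1 : pc ≤ 1)
    {P Q : (Fin n → Row n) → Prop} (h : ∀ x, P x → Q x) : PR n pa pc P ≤ PR n pa pc Q := by
  rw [PR_eq, PR_eq]
  exact Finset.sum_le_sum fun x _ => mul_le_mul_of_nonneg_left (ind_mono (h x))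
    (Finset.prod_nonneg fun t _ => rwt_nonneg ha ha1 hc hc1 _)

theorem PR_or_le {n : ℕ} {pa pc : ℝ} (ha : 0 ≤ pa) (ha1 : pa ≤ 1) (hc : 0 ≤ pc) (hc1 : pc ≤ 1)
    (P Q : (Fin n → Row n) → Prop) :
    PR n pa pc (fun x => P x ∨ Q x) ≤ PR n pa pc P + PR n pa pc Q := by
  rw [PR_eq, PR_eq, PR_eq, ← Finset.sum_add_distrib]
  refine Finset.sum_le_sum fun x _ => ?_
  rw [← mul_add]
  exact mul_le_mul_of_nonneg_left (ind_or_le _ _)
    (Finset.prod_nonneg fun t _ => rwt_nonneg ha ha1 hc hc1 _)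

theorem PR_exists_le {n : ℕ} {pa pc : ℝ} (ha : 0 ≤ pa) (ha1 : pa ≤ 1) (hc : 0 ≤ pc) (hc1 : pc ≤ 1)
    {β : Type*} (s : Finset β) (P : β → (Fin n → Row n) → Prop) :
    PR n pa pc (fun x => ∃ b ∈ s, P b x) ≤ ∑ b ∈ s, PR n pa pc (P b) := by
  simp only [PR_eq]
  rw [Finset.sum_comm]
  refine Finset.sum_le_sum fun x _ => ?_
  rw [← Finset.mul_sum]
  exact mul_le_mul_of_nonneg_left (ind_exists_le _ _)
    (Finset.prod_nonneg fun t _ => rwt_nonneg ha ha1 hc hc1 _)

/-- sum over all systems of rows of a product -/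
theorem sum_prod_rows {n : ℕ} {X : Type} [Fintype X] (f : Fin n → X → ℝ) :
    ∑ x : Fin n → X, ∏ t, f t (x t) = ∏ t, ∑ y, f t y := by
  rw [Finset.prod_univ_sum, Fintype.piFinset_univ]

/-- the event that a given row has a property -/
theorem PR_row {n : ℕ} (pa pc : ℝ) (t : Fin n) (ev : Row n → Prop) :
    PR n pa pc (fun x => ev (x t)) = ∑ x ∈ (Finset.univ : Finset (Row n)).filter ev,
      rwt n pa pc x := by
  rw [PR_eq]
  have h1 : ∀ x : Fin n → Row n, (∏ t, rwt n pa pc (x t)) * ind (ev (x t)) =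
      ∏ u, (rwt n pa pc (x u) * if u = t then ind (ev (x u)) else 1) := by
    intro x
    rw [Finset.prod_mul_distrib, Finset.prod_ite_eq' Finset.univ t fun u => ind (ev (x u)),
      if_pos (Finset.mem_univ t)]
  rw [Finset.sum_congr rfl fun x _ => h1 x,
    sum_prod_rows (fun u y => rwt n pa pc y * if u = t then ind (ev y) else 1),
    Finset.prod_eq_single t]
  · rw [Finset.sum_filter]
    refine Finset.sum_congr rfl fun y _ => ?_
    rw [if_pos rfl]; unfold ind; split_ifs <;> simp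
  · intro u _ hu
    simp only [if_neg hu, mul_one]
    exact sum_rwt pa pc
  · intro h; exact absurd (Finset.mem_univ t) h

/-! ## tails -/

/-- upper tail for the number of elements in a set; any decidability instance -/
theorem tail_upper {X : Type} [Fintype X] [DecidableEq X] {p : ℝ} (h0 : 0 ≤ p) (h1 : p ≤ 1)
    (A : Finset X) {s : ℝ} (hs : 0 ≤ s) (L : ℝ) :
    FL.Pr p (fun S : Finset X => L ≤ ((S ∩ A).card : ℝ)) ≤
      Real.exp (p * A.card * (Real.exp s - 1) - s * L) := by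
  have h := FL.Pr_upper (X := X) h0 h1 A hs L
  refine le_trans (FL.Pr_mono h0 h1 fun S hS => ?_) h
  have e : @Inter.inter _ (@Finset.instInter X fun a b => propDecidable (a = b)) S A =
      S ∩ A := by ext; simp
  rw [e]; exact hS

/-- lower tail -/
theorem tail_lower {X : Type} [Fintype X] [DecidableEq X] {p : ℝ} (h0 : 0 ≤ p) (h1 : p ≤ 1)
    (A : Finset X) {s : ℝ} (hs : 0 ≤ s) (L : ℝ) :
    FL.Pr p (fun S : Finset X => ((S ∩ A).card : ℝ) ≤ L) ≤
      Real.exp (s * L - p * A.card * (1 - Real.exp (-s))) := by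
  have h := FL.Pr_lower (X := X) h0 h1 A hs L
  refine le_trans (FL.Pr_mono h0 h1 fun S hS => ?_) h
  have e : @Inter.inter _ (@Finset.instInter X fun a b => propDecidable (a = b)) S A =
      S ∩ A := by ext; simp
  rw [e]; exact hS

/-- half of the mean -/
theorem tail_half {X : Type} [Fintype X] [DecidableEq X] {p : ℝ} (h0 : 0 ≤ p) (h1 : p ≤ 1)
    (A : Finset X) {L : ℝ} (hL : L ≤ p * A.card / 2) :
    FL.Pr p (fun S : Finset X => ((S ∩ A).card : ℝ) ≤ L) ≤ Real.exp (-(p * A.card / 8)) := by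
  have h := tail_lower h0 h1 A (s := Real.log 2) (Real.log_nonneg (by norm_num)) L
  refine h.trans (Real.exp_le_exp.2 ?_)
  have e : Real.exp (-Real.log 2) = 1 / 2 := by
    rw [Real.exp_neg, Real.exp_log (by norm_num)]; norm_num
  rw [e]
  have h2 := Real.log_two_lt_d9
  have h3 := Real.log_two_gt_d9
  have hA : 0 ≤ p * A.card := mul_nonneg h0 (Nat.cast_nonneg _)
  nlinarith

/-- many hits: `(e p |A| / L)^L` -/
theorem tail_hits {X : Type} [Fintype X] [DecidableEq X] {p : ℝ} (h0 : 0 ≤ p) (h1 : p ≤ 1)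
    (A : Finset X) {L v : ℝ} (hL : 0 < L) (hv : p * A.card ≤ v) (hv0 : 0 < v) (hvL : v ≤ L) :
    FL.Pr p (fun S : Finset X => L ≤ ((S ∩ A).card : ℝ)) ≤
      Real.exp (-(L * (Real.log (L / v) - 1))) := by
  have hs : 0 ≤ Real.log (L / v) := Real.log_nonneg (by rw [le_div_iff₀ hv0]; linarith)
  have h := tail_upper h0 h1 A hs L
  refine h.trans (Real.exp_le_exp.2 ?_)
  rw [Real.exp_log (div_pos hL hv0)]
  have hA : 0 ≤ p * A.card := mul_nonneg h0 (Nat.cast_nonneg _)
  have h2 : p * A.card * (L / v - 1) ≤ v * (L / v - 1) :=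
    mul_le_mul_of_nonneg_right hv (by rw [sub_nonneg, le_div_iff₀ hv0]; linarith)
  have h3 : v * (L / v - 1) = L - v := by field_simp
  nlinarith

/-- probability that a set is missed -/
theorem tail_empty {X : Type} [Fintype X] [DecidableEq X] {p : ℝ} (h0 : 0 ≤ p) (h1 : p ≤ 1)
    (A : Finset X) :
    FL.Pr p (fun S : Finset X => S ∩ A = ∅) ≤ Real.exp (-(p * A.card)) := by
  have key : FL.Pr p (fun S : Finset X => S ∩ A = ∅) ≤ (1 - p) ^ A.card := by
    rw [Pr_eq]
    have h2 := FL.gf (X := X) p (fun x => if x ∈ A then 0 else 1)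
    have h3 : ∏ x, (1 - p + p * if x ∈ A then (0 : ℝ) else 1) = (1 - p) ^ A.card := by
      have h4 : ∀ x : X, (1 - p + p * if x ∈ A then (0 : ℝ) else 1) =
          if x ∈ A then 1 - p else 1 := by intro x; split_ifs <;> ring
      rw [Finset.prod_congr rfl fun x _ => h4 x, Finset.prod_ite_mem, Finset.univ_inter,
        Finset.prod_const]
    rw [h3] at h2
    rw [← h2]
    refine Finset.sum_le_sum fun S _ => mul_le_mul_of_nonneg_left ?_ (FL.wt_nonneg h0 h1 S)
    by_cases hS : S ∩ A = ∅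
    · rw [ind_true hS, Finset.prod_eq_one]
      intro x hx
      have : x ∉ A := fun hxA => by
        have := Finset.mem_inter.2 ⟨hx, hxA⟩
        rw [hS] at this; exact absurd this (Finset.notMem_empty _)
      rw [if_neg this]
    · rw [ind_false hS]
      exact Finset.prod_nonneg fun x _ => by split_ifs <;> norm_num
  refine key.trans ?_
  have h5 : 1 - p ≤ Real.exp (-p) := by have := Real.add_one_le_exp (-p); linarith
  calc (1 - p) ^ A.card ≤ (Real.exp (-p)) ^ A.card := pow_le_pow_left₀ (by linarith) h5 _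
    _ = Real.exp (-(p * A.card)) := by rw [← Real.exp_nat_mul]; ring_nf

end Pool.Agent.Helper40.LS
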