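import Pool.Agent.Helper40.FL.Defs
import Pool.Agent.Helper80.LR.Defs

/-!
# Project LS (MP_56dece_co): `(1 - δ) n` complete rows at the sharp constant

Bipartite graphs between columns and symbols are sets of cells `(c, s)`.
`Pr`, `wt` (probability of events for random subsets of a finite type) are from `FL.Defs`.
-/

set_option autoImplicit false
open Classical Filter Topology

namespace Pool.Agent.Helper40.LS

/-- bipartite graphs between columns and symbols -/
abbrev Gr (n : ℕ) := Finset (Fin n × Fin n)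

/-- the neighbours (symbols) of the column `c` -/
noncomputable def nb {n : ℕ} (G : Gr n) (c : Fin n) : Finset (Fin n) :=
  Finset.univ.filter fun s => (c, s) ∈ G

/-- the transposed graph -/
noncomputable def tr {n : ℕ} (G : Gr n) : Gr n := Finset.univ.filter fun e => (e.2, e.1) ∈ G

/-- no two cells of `M` share a column or a symbol -/
def IsMatch {n : ℕ} (M : Gr n) : Prop :=
  (∀ e ∈ M, ∀ f ∈ M, e.1 = f.1 → e = f) ∧ ∀ e ∈ M, ∀ f ∈ M, e.2 = f.2 → e = f

/-- columns of the cells of `M` -/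
noncomputable def cols {n : ℕ} (M : Gr n) : Finset (Fin n) := M.image Prod.fst

/-- symbols of the cells of `M` -/
noncomputable def syms {n : ℕ} (M : Gr n) : Finset (Fin n) := M.image Prod.snd

/-- perfect matchings -/
def IsPM {n : ℕ} (M : Gr n) : Prop := IsMatch M ∧ (∀ c, c ∈ cols M) ∧ ∀ s, s ∈ syms M

/-- the cells in `X × Z` -/
noncomputable def box {n : ℕ} (X Z : Finset (Fin n)) : Gr n := X ×ˢ Z

/-- local sparsity: small sets span few cells (`L` is `log n`) -/
def SmallG {n : ℕ} (G : Gr n) (κ d L : ℝ) : Prop :=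
  ∀ X Z : Finset (Fin n), (X.card + Z.card : ℝ) ≤ d * n →
    ((G ∩ box X Z).card : ℝ) ≤ κ * L * (X.card + Z.card)

/-- the reserve: almost regular of density `ρ` with small codegrees -/
structure Reserve {n : ℕ} (R : Gr n) (ρ ζ : ℝ) : Prop where
  deg : ∀ c, |((nb R c).card : ℝ) - ρ * n| ≤ ζ * n
  deg' : ∀ s, |((nb (tr R) s).card : ℝ) - ρ * n| ≤ ζ * n
  cod : ∀ c c', c ≠ c' → ((nb R c ∩ nb R c').card : ℝ) ≤ (ρ ^ 2 + ζ) * n
  cod' : ∀ s s', s ≠ s' → ((nb (tr R) s ∩ nb (tr R) s').card : ℝ) ≤ (ρ ^ 2 + ζ) * n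

/-- the data of a row: the main graph `A`, the graph `C` for the columns and the graph `S` for the
symbols; `S` is stored transposed, as a graph from symbols to columns -/
abbrev Row (n : ℕ) := Gr n × Gr n × Gr n

/-- weight of a row -/
noncomputable def rwt (n : ℕ) (pa pc : ℝ) (x : Row n) : ℝ :=
  FL.wt pa x.1 * (FL.wt pc x.2.1 * FL.wt pc x.2.2)

/-- bad columns of the graph `C`: fewer than `b` cells inside the reserve -/
noncomputable def bad {n : ℕ} (R C : Gr n) (b : ℝ) : Finset (Fin n) :=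
  Finset.univ.filter fun c => ((nb C c ∩ nb R c).card : ℝ) < b

/-- the cells which touch a column of `B` or a symbol of `B'` -/
noncomputable def touch {n : ℕ} (B B' : Finset (Fin n)) : Gr n :=
  Finset.univ.filter fun e => e.1 ∈ B ∨ e.2 ∈ B'

/-- the static information on a row: bad columns, bad symbols, the cells of `A` which touch them -/
abbrev Stat (n : ℕ) := Finset (Fin n) × Finset (Fin n) × Gr n

/-- the static information of a row -/
noncomputable def stat {n : ℕ} (R : Gr n) (b : ℝ) (x : Row n) : Stat n :=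
  (bad R x.2.1 b, bad (tr R) x.2.2 b,
    x.1 ∩ touch (bad R x.2.1 b) (bad (tr R) x.2.2 b))

/-- columns which are used more than `η n / 2` times inside the reserve -/
noncomputable def hot {n : ℕ} (R U : Gr n) (η : ℝ) : Finset (Fin n) :=
  Finset.univ.filter fun c => η / 2 * n ≤ ((nb U c ∩ nb R c).card : ℝ)

/-- the free cells outside the reserve -/
noncomputable def free {n : ℕ} (R U M0 : Gr n) : Gr n := (Finset.univ \ (U ∪ R)) \ M0

/-- the free cells of the reserve -/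
noncomputable def resv {n : ℕ} (R U M0 : Gr n) : Gr n := R \ (U ∪ M0)

/-- columns of `Act` with fewer than `l` cells of `A` in `W` with symbol in `Act'` -/
noncomputable def low {n : ℕ} (A W : Gr n) (Act Act' : Finset (Fin n)) (l : ℝ) : Finset (Fin n) :=
  Act.filter fun c => ((nb A c ∩ nb W c ∩ Act').card : ℝ) < l

/-- the one-sided properties of the graph `C` of the columns: `B` is the free part of the reserve,
`Al` the allowed symbols, `Y0` the symbols of the sample -/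
structure Side {n : ℕ} (C B : Gr n) (Act Al Y0 : Finset (Fin n)) (l1 l2 g x1 w : ℝ) : Prop where
  deg : ∀ c ∈ Act, l1 ≤ ((nb C c ∩ nb B c ∩ Al).card : ℝ)
  exc : ((Act.filter fun c => ((nb C c ∩ nb B c ∩ Y0).card : ℝ) < l2).card : ℝ) ≤ g
  large : ∀ X ⊆ Act, ∀ Z ⊆ Y0, x1 < (X.card : ℝ) → w ≤ (Z.card : ℝ) →
    ∃ c ∈ X, ∃ s ∈ Z, (c, s) ∈ C ∩ B

/-- what a row contributes -/
structure RowOut {n : ℕ} (R U M0 M0t A C S : Gr n) (Act Act' : Finset (Fin n))
    (η l K : ℝ) (M : Gr n) : Prop where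
  pm : IsPM M
  sub : M ⊆ A ∪ (C ∪ tr S)
  m0 : M0t ⊆ M
  disjU : Disjoint (M \ M0t) U
  disjM : Disjoint (M \ M0t) M0
  use : ((M ∩ R).card : ℝ) ≤ K
  hotC : ∀ e ∈ (M ∩ R) \ M0t, e.1 ∈ hot R U η → e.1 ∈ low A (free R U M0) Act Act' l
  hotS : ∀ e ∈ (M ∩ R) \ M0t, e.2 ∈ hot (tr R) (tr U) η →
    e.2 ∈ low (tr A) (tr (free R U M0)) Act' Act l

/-! ## the parameters -/

/-- the parameters: `δ` the part of the rows which is left out, `ε` the excess of the density, the
reserve has density `δ / 8`; the other constants are chosen from left to right -/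
structure Par (δ ε dA h z0 dC ζ : ℝ) : Prop where
  δ0 : 0 < δ
  δ1 : δ < 1
  ε0 : 0 < ε
  ε1 : ε < 1
  dA0 : 0 < dA
  h0 : 0 < h
  h1 : h ≤ (δ / 8) / (32 * Real.exp 1) * Real.exp (-(320 / (ε * (δ / 8))))
  h2 : h ≤ (δ / 8) ^ 2 / 20000
  h3 : 2 * h ≤ dA
  zpos : 0 < z0
  z1 : z0 * Real.exp (8 / δ) ≤ h ^ 2
  dC0 : 0 < dC
  ζ0 : 0 < ζ
  ζ1 : ζ ≤ h / 8
  ζ2 : ζ ≤ δ * z0 / 64
  ζ3 : ζ ≤ (δ / 8) ^ 2 * z0 / 4000
  ζ4 : ζ ≤ z0 / 100

/-- density of `A` -/
noncomputable def pa (ε : ℝ) (n : ℕ) : ℝ := (2 + ε / 2) * Real.log n / n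

/-- density of `C` and `S` -/
noncomputable def pc (ε : ℝ) (n : ℕ) : ℝ := ε / 8 * Real.log n / n

/-- threshold for bad columns -/
noncomputable def bb (δ ε : ℝ) (n : ℕ) : ℝ := ε * (δ / 8) / 32 * Real.log n

/-- threshold for low columns -/
noncomputable def ll (δ : ℝ) (n : ℕ) : ℝ := δ / 2 * Real.log n

/-- threshold for exceptional columns -/
noncomputable def l2 (δ ε z0 : ℝ) (n : ℕ) : ℝ := ε * (δ / 8) * z0 / 16 * Real.log n

/-- maximal number of exceptional columns -/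
noncomputable def gg (ζ : ℝ) (n : ℕ) : ℝ := ζ * n / (16 * Real.log n)

/-- the defect in row `t` -/
noncomputable def zz (δ z0 : ℝ) (n t : ℕ) : ℝ := z0 * (1 + 8 / (δ * n)) ^ t

/-- the relative error of the samples -/
noncomputable def tau (δ : ℝ) : ℝ := (δ / 8) ^ 2 / 2500

/-- the sample `Y0` of the symbols (nominal size `m`) is uniform for the graph `B` -/
structure Samp {n : ℕ} (B : Gr n) (Y0 : Finset (Fin n)) (ρ τ m : ℝ) : Prop where
  low : ∀ c, (ρ - τ) * m ≤ ((nb B c ∩ Y0).card : ℝ)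
  cod : ∀ c c', c ≠ c' → ((nb B c ∩ nb B c' ∩ Y0).card : ℝ) ≤ (ρ ^ 2 + τ) * m
  card : (Y0.card : ℝ) ≤ (1 + τ) * m

/-- the cells of `N` which touch a hot column or a hot symbol -/
noncomputable def hotN {n : ℕ} (R U : Gr n) (η : ℝ) (N : Gr n) : Gr n :=
  N.filter fun e => e.1 ∈ hot R U η ∨ e.2 ∈ hot (tr R) (tr U) η

/-! ## the static information of all rows -/

/-- the required properties of the static information -/
structure StatOK {n : ℕ} (σ : Fin n → Stat n) (m : ℕ) (ζ : ℝ) : Prop where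
  tc : ∀ t, (σ t).2.2 ⊆ touch (σ t).1 (σ t).2.1
  d1 : ∀ t, ∀ c ∈ (σ t).1, 13 * m ≤ (nb (σ t).2.2 c).card
  d1' : ∀ t, ∀ s ∈ (σ t).2.1, 13 * m ≤ (nb (tr (σ t).2.2) s).card
  h2 : ∀ t s, ((σ t).1.filter fun c => (c, s) ∈ (σ t).2.2).card ≤ m
  h2' : ∀ t c, ((σ t).2.1.filter fun s => (c, s) ∈ (σ t).2.2).card ≤ m
  h3 : ∀ c s, (Finset.univ.filter fun t => c ∈ (σ t).1 ∧ (c, s) ∈ (σ t).2.2).card ≤ m
  h3' : ∀ c s, (Finset.univ.filter fun t => s ∈ (σ t).2.1 ∧ (c, s) ∈ (σ t).2.2).card ≤ m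
  sz : ∀ t, ((σ t).1.card : ℝ) ≤ ζ / 2 * n
  sz' : ∀ t, ((σ t).2.1.card : ℝ) ≤ ζ / 2 * n
  dg : ∀ c, ((Finset.univ.filter fun t => ∃ s, (c, s) ∈ (σ t).2.2).card : ℝ) ≤ ζ * n
  dg' : ∀ s, ((Finset.univ.filter fun t => ∃ c, (c, s) ∈ (σ t).2.2).card : ℝ) ≤ ζ * n

/-- the cells chosen in advance: `M0 t` covers the bad columns and symbols of row `t` -/
structure Pre {n : ℕ} (σ : Fin n → Stat n) (M0 : Fin n → Gr n) (ζ : ℝ) : Prop where
  mat : ∀ t, IsMatch (M0 t)
  sub : ∀ t, M0 t ⊆ (σ t).2.2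
  cov : ∀ t, (σ t).1 ⊆ cols (M0 t)
  cov' : ∀ t, (σ t).2.1 ⊆ syms (M0 t)
  dis : ∀ t t', t ≠ t' → Disjoint (M0 t) (M0 t')
  sz : ∀ t, ((M0 t).card : ℝ) ≤ ζ * n
  dg : ∀ c, ((Finset.univ.filter fun t => c ∈ cols (M0 t)).card : ℝ) ≤ ζ * n
  dg' : ∀ s, ((Finset.univ.filter fun t => s ∈ syms (M0 t)).card : ℝ) ≤ ζ * n

/-- all cells chosen in advance -/
noncomputable def allM {n : ℕ} (M0 : Fin n → Gr n) : Gr n := Finset.univ.biUnion M0

/-- active columns -/
noncomputable def act {n : ℕ} (M : Gr n) : Finset (Fin n) := Finset.univ \ cols M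

/-- active symbols -/
noncomputable def act' {n : ℕ} (M : Gr n) : Finset (Fin n) := Finset.univ \ syms M

/-! ## the process -/

/-- states: used cells, number of low rows for each column and each symbol -/
abbrev St (n : ℕ) := Gr n × (Fin n → ℕ) × (Fin n → ℕ)

/-- the new state -/
noncomputable def upd {n : ℕ} (R : Gr n) (M0 : Fin n → Gr n) (l : ℝ) (t : Fin n) (s : St n)
    (A M : Gr n) : St n :=
  (s.1 ∪ M,
   fun c => s.2.1 c + if c ∈ low A (free R s.1 (allM M0)) (act (M0 t)) (act' (M0 t)) l then 1 else 0,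
   fun c => s.2.2 c +
    if c ∈ low (tr A) (tr (free R s.1 (allM M0))) (act' (M0 t)) (act (M0 t)) l then 1 else 0)

/-- one step of the process -/
noncomputable def stepR {n : ℕ} (δ z0 h : ℝ) (R : Gr n) (M0 : Fin n → Gr n) (t : Fin n) (s : St n)
    (x : Row n) : Option (St n) :=
  if H : ∃ M, RowOut R s.1 (allM M0) (M0 t) x.1 x.2.1 x.2.2 (act (M0 t)) (act' (M0 t)) h (ll δ n)
      (4 * zz δ z0 n t * n) M then
    some (upd R M0 (ll δ n) t s x.1 (Classical.choose H))
  else none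

/-- the invariant of the process -/
structure Inv {n : ℕ} (δ z0 h : ℝ) (R : Gr n) (M0 : Fin n → Gr n) (t : ℕ) (s : St n) : Prop where
  reg : ∀ c, (nb s.1 c).card = t
  reg' : ∀ c, (nb (tr s.1) c).card = t
  use : ((s.1 ∩ R).card : ℝ) ≤ δ / 2 * zz δ z0 n t * n ^ 2
  col : ∀ c, ((nb s.1 c ∩ nb R c).card : ℝ) ≤ h / 2 * n + 1 + s.2.1 c +
    (Finset.univ.filter fun j : Fin n => (j : ℕ) < t ∧ c ∈ cols (M0 j)).card
  col' : ∀ c, ((nb (tr s.1) c ∩ nb (tr R) c).card : ℝ) ≤ h / 2 * n + 1 + s.2.2 c +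
    (Finset.univ.filter fun j : Fin n => (j : ℕ) < t ∧ c ∈ syms (M0 j)).card
  dis : ∀ j : Fin n, t ≤ (j : ℕ) → Disjoint s.1 (M0 j)

/-- the potential -/
noncomputable def Psi {n : ℕ} (δ : ℝ) (t : ℕ) (s : St n) : ℝ :=
  (∑ c, (Real.exp (s.2.1 c) + Real.exp (s.2.2 c))) / (1 + 2 * (n : ℝ) ^ (-(δ / 8))) ^ t

/-- the start -/
def st0 (n : ℕ) : St n := (∅, fun _ => 0, fun _ => 0)

/-- run of a process which may stop -/
def run {X S : Type} {n : ℕ} (step : Fin n → S → X → Option S) (s0 : S) (x : Fin n → X) :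
    ℕ → Option S
  | 0 => some s0
  | t + 1 => if h : t < n then (run step s0 x t).bind fun s => step ⟨t, h⟩ s (x ⟨t, h⟩) else none

/-- probability for all rows -/
noncomputable def PR (n : ℕ) (pa pc : ℝ) (P : (Fin n → Row n) → Prop) : ℝ :=
  ∑ x ∈ (Finset.univ : Finset (Fin n → Row n)).filter P, ∏ t, rwt n pa pc (x t)

/-- the rows seen from the other side -/
noncomputable def swapR {n : ℕ} (x : Row n) : Row n := (tr x.1, x.2.2, x.2.1)

/-! ## basic facts -/

section basic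

variable {n : ℕ} {G H : Gr n} {c s : Fin n}

@[simp] theorem mem_nb : s ∈ nb G c ↔ (c, s) ∈ G := by simp [nb]

@[simp] theorem mem_tr : (s, c) ∈ tr G ↔ (c, s) ∈ G := by simp [tr]

theorem mem_tr' {e : Fin n × Fin n} : e ∈ tr G ↔ (e.2, e.1) ∈ G := by simp [tr]

@[simp] theorem tr_tr : tr (tr G) = G := by ext ⟨a, b⟩; simp

@[simp] theorem mem_box {X Z : Finset (Fin n)} {e : Fin n × Fin n} :
    e ∈ box X Z ↔ e.1 ∈ X ∧ e.2 ∈ Z := by simp [box]

theorem nb_inter : nb (G ∩ H) c = nb G c ∩ nb H c := by ext s; simp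

theorem nb_union : nb (G ∪ H) c = nb G c ∪ nb H c := by ext s; simp

theorem nb_sdiff : nb (G \ H) c = nb G c \ nb H c := by ext s; simp

theorem tr_inter : tr (G ∩ H) = tr G ∩ tr H := by ext ⟨a, b⟩; simp

theorem tr_union : tr (G ∪ H) = tr G ∪ tr H := by ext ⟨a, b⟩; simp

theorem tr_sdiff : tr (G \ H) = tr G \ tr H := by ext ⟨a, b⟩; simp

theorem tr_subset (h : G ⊆ H) : tr G ⊆ tr H := fun e he => by
  rw [mem_tr'] at he ⊢; exact h he

theorem mem_cols : c ∈ cols G ↔ ∃ s, (c, s) ∈ G := by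
  simp [cols]

theorem mem_syms : s ∈ syms G ↔ ∃ c, (c, s) ∈ G := by
  simp [syms]

@[simp] theorem cols_tr : cols (tr G) = syms G := by
  ext s; simp [mem_cols, mem_syms]

@[simp] theorem syms_tr : syms (tr G) = cols G := by
  ext s; simp [mem_cols, mem_syms]

theorem IsMatch.tr (h : IsMatch G) : IsMatch (tr G) := by
  refine ⟨fun e he f hf hef => ?_, fun e he f hf hef => ?_⟩
  · rw [mem_tr'] at he hf
    have := h.2 _ he _ hf hef
    rw [Prod.ext_iff] at this ⊢
    exact ⟨this.2, this.1⟩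
  · rw [mem_tr'] at he hf
    have := h.1 _ he _ hf hef
    rw [Prod.ext_iff] at this ⊢
    exact ⟨this.2, this.1⟩

theorem IsMatch.mono (h : IsMatch G) (hs : H ⊆ G) : IsMatch H :=
  ⟨fun e he f hf => h.1 e (hs he) f (hs hf), fun e he f hf => h.2 e (hs he) f (hs hf)⟩

theorem IsMatch.card_cols (h : IsMatch G) : (cols G).card = G.card := by
  rw [cols, Finset.card_image_of_injOn]
  exact fun e he f hf hef => h.1 e he f hf hef

theorem IsMatch.card_syms (h : IsMatch G) : (syms G).card = G.card := by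
  rw [syms, Finset.card_image_of_injOn]
  exact fun e he f hf hef => h.2 e he f hf hef

theorem card_tr : (tr G).card = G.card := by
  have h : tr G = G.image Prod.swap := by
    ext ⟨a, b⟩
    simp only [mem_tr, Finset.mem_image, Prod.swap]
    constructor
    · intro h; exact ⟨(b, a), h, rfl⟩
    · rintro ⟨⟨x, y⟩, hx, hxy⟩
      simp only [Prod.mk.injEq] at hxy
      rw [← hxy.1, ← hxy.2]; exact hx
  rw [h, Finset.card_image_of_injective _ Prod.swap_injective]

/-- a graph is the disjoint union of its stars -/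
theorem card_eq_sum : (G.card : ℝ) = ∑ c, ((nb G c).card : ℝ) := by
  have h : G.card = ∑ c, (nb G c).card := by
    rw [Finset.card_eq_sum_card_fiberwise (f := Prod.fst) (t := Finset.univ)
      (fun _ _ => Finset.mem_univ _)]
    refine Finset.sum_congr rfl fun c _ => ?_
    have : (G.filter fun e => e.1 = c) = (nb G c).image fun s => (c, s) := by
      ext ⟨a, b⟩
      simp only [Finset.mem_filter, Finset.mem_image, mem_nb, Prod.mk.injEq]
      constructor
      · rintro ⟨h, rfl⟩; exact ⟨b, h, rfl, rfl⟩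
      · rintro ⟨s, h, rfl, rfl⟩; exact ⟨h, rfl⟩
    rw [this, Finset.card_image_of_injective _ (fun a b h => (Prod.mk.inj h).2)]
  exact_mod_cast h

theorem card_box_eq_sum (X Z : Finset (Fin n)) :
    ((G ∩ box X Z).card : ℝ) = ∑ c ∈ X, ((nb G c ∩ Z).card : ℝ) := by
  rw [card_eq_sum, ← Finset.sum_subset (Finset.subset_univ X)]
  · refine Finset.sum_congr rfl fun c hc => ?_
    congr 2
    ext s
    simp [hc]
  · intro c _ hc
    have : nb (G ∩ box X Z) c = ∅ := by
      ext s; simp [hc]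
    rw [this]; simp

theorem card_box_tr (X Z : Finset (Fin n)) : (tr G ∩ box Z X).card = (G ∩ box X Z).card := by
  rw [← card_tr (G := G ∩ box X Z), tr_inter]
  congr 2
  ext ⟨a, b⟩
  simp [and_comm]

end basic

end Pool.Agent.Helper40.LS
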