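import Pool.Agent.Helper40.LS.Basic

/-! # LS-H8: free cells in a box (helper45) -/

set_option autoImplicit false
open Classical Filter Topology

namespace Pool.Agent.Helper40.LS

/-- degrees of the complement of `U ∪ R` -/
theorem h8_deg {n : ℕ} (U R : Gr n) (c : Fin n) (t : ℕ) (hU : (nb U c).card = t) :
    ((nb (Finset.univ \ (U ∪ R) : Gr n) c).card : ℝ) =
      n - t - (nb R c).card + (nb (U ∩ R) c).card := by
  have h1 : nb (Finset.univ \ (U ∪ R) : Gr n) c = Finset.univ \ (nb U c ∪ nb R c) := by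
    ext s; simp
  have h2 : (nb U c ∪ nb R c).card + (nb U c ∩ nb R c).card = t + (nb R c).card := by
    rw [Finset.card_union_add_card_inter, hU]
  have h3 : (Finset.univ \ (nb U c ∪ nb R c)).card + (nb U c ∪ nb R c).card = n := by
    rw [Finset.card_sdiff_add_card_eq_card (Finset.subset_univ _), Finset.card_univ,
      Fintype.card_fin]
  rw [h1, nb_inter]
  have h2' : ((nb U c ∪ nb R c).card : ℝ) + (nb U c ∩ nb R c).card = t + (nb R c).card := by
    exact_mod_cast h2
  have h3' : ((Finset.univ \ (nb U c ∪ nb R c)).card : ℝ) + (nb U c ∪ nb R c).card = n := by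
    exact_mod_cast h3
  linarith

/-- LS-H8: free cells in a box -/
theorem reg_count {n : ℕ} {R U M0 : Gr n} {ρ ζ : ℝ} (hζ : 0 ≤ ζ) (hR : Reserve R ρ ζ) (t : ℕ)
    (hU : ∀ c, (nb U c).card = t) (hU' : ∀ s, (nb (tr U) s).card = t)
    (hM : (M0.card : ℝ) ≤ ζ * n ^ 2) (X Z : Finset (Fin n)) :
    ((X.card : ℝ) + Z.card - n) * (n - t - ρ * n) - 3 * ζ * n ^ 2 - (U ∩ R).card
      ≤ ((free R U M0 ∩ box X Z).card : ℝ) := by
  set H : Gr n := Finset.univ \ (U ∪ R) with hH
  have hn0 : (0 : ℝ) ≤ n := Nat.cast_nonneg n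
  have hXn : (X.card : ℝ) ≤ n := by
    have := Finset.card_le_univ X
    rw [Fintype.card_fin] at this
    exact_mod_cast this
  have hZc : (Zᶜ.card : ℝ) = n - Z.card := by
    have h := Finset.card_add_card_compl Z
    rw [Fintype.card_fin] at h
    have h' : (Z.card : ℝ) + Zᶜ.card = n := by exact_mod_cast h
    linarith
  have hZ0 : (0 : ℝ) ≤ Z.card := Nat.cast_nonneg _
  have hZc0 : (0 : ℝ) ≤ Zᶜ.card := Nat.cast_nonneg _
  -- columns
  have e1 : ((X.card : ℝ)) * (n - t - ρ * n - ζ * n) ≤ ((H ∩ box X Finset.univ).card : ℝ) := by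
    rw [card_box_eq_sum, ← nsmul_eq_mul, ← Finset.sum_const]
    refine Finset.sum_le_sum fun c _ => ?_
    rw [Finset.inter_univ, hH, h8_deg U R c t (hU c)]
    have h1 := (abs_le.1 (hR.deg c)).2
    have h2 : (0 : ℝ) ≤ (nb (U ∩ R) c).card := Nat.cast_nonneg _
    linarith
  -- symbols
  have htrH : tr H = Finset.univ \ (tr U ∪ tr R) := by
    rw [hH, tr_sdiff, tr_union, tr_univ]
  have e2 : ((H ∩ box Finset.univ Zᶜ).card : ℝ) ≤
      (Zᶜ.card : ℝ) * (n - t - ρ * n + ζ * n) + (U ∩ R).card := by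
    rw [← card_box_tr, card_box_eq_sum]
    have h1 : ∑ c ∈ Zᶜ, ((nb (tr H) c ∩ Finset.univ).card : ℝ) ≤
        ∑ c ∈ Zᶜ, ((n - t - ρ * n + ζ * n) + ((nb (tr U ∩ tr R) c).card : ℝ)) := by
      refine Finset.sum_le_sum fun c _ => ?_
      rw [Finset.inter_univ, htrH, h8_deg (tr U) (tr R) c t (hU' c)]
      have h1 := (abs_le.1 (hR.deg' c)).1
      linarith
    refine h1.trans ?_
    rw [Finset.sum_add_distrib, Finset.sum_const, nsmul_eq_mul]
    have h2 : ∑ c ∈ Zᶜ, ((nb (tr U ∩ tr R) c).card : ℝ) ≤ (U ∩ R).card := by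
      rw [← tr_inter, ← card_tr (G := U ∩ R), card_eq_sum]
      exact Finset.sum_le_sum_of_subset_of_nonneg (Finset.subset_univ _)
        fun _ _ _ => Nat.cast_nonneg _
    linarith
  have e3 : ((H ∩ box X Finset.univ).card : ℝ) ≤
      (H ∩ box X Z).card + (H ∩ box Finset.univ Zᶜ).card := by
    have h : H ∩ box X Finset.univ ⊆ (H ∩ box X Z) ∪ (H ∩ box Finset.univ Zᶜ) := by
      intro e he
      simp only [Finset.mem_union, Finset.mem_inter, mem_box, Finset.mem_univ, and_true,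
        true_and, Finset.mem_compl] at he ⊢
      tauto
    exact_mod_cast (Finset.card_le_card h).trans (Finset.card_union_le _ _)
  have e4 : ((H ∩ box X Z).card : ℝ) ≤ (free R U M0 ∩ box X Z).card + M0.card := by
    have h : H ∩ box X Z ⊆ (free R U M0 ∩ box X Z) ∪ M0 := by
      intro e he
      simp only [free, Finset.mem_union, Finset.mem_inter, Finset.mem_sdiff, hH] at he ⊢
      tauto
    exact_mod_cast (Finset.card_le_card h).trans (Finset.card_union_le _ _)
  have e5 : (X.card : ℝ) * (ζ * n) ≤ ζ * n ^ 2 := by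
    have := mul_le_mul_of_nonneg_right hXn (mul_nonneg hζ hn0)
    nlinarith
  have e6 : (Zᶜ.card : ℝ) * (ζ * n) ≤ ζ * n ^ 2 := by
    have : (Zᶜ.card : ℝ) ≤ n := by linarith
    have := mul_le_mul_of_nonneg_right this (mul_nonneg hζ hn0)
    nlinarith
  rw [hZc] at e2 e6
  nlinarith [e1, e2, e3, e4, e5, e6, hM]

end Pool.Agent.Helper40.LS
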