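import Pool.Agent.Helper40.LS.Basic

/-! LS-H9: expansion of small sets. -/

set_option autoImplicit false
open Classical Filter Topology

namespace Pool.Agent.Helper40.LS

/-- LS-H9: expansion of small sets -/
theorem small_expand {n : ℕ} {G : Gr n} {κ d L l : ℝ} (hG : SmallG G κ d L) (hκ : 0 < κ * L)
    (hl : 2 * (κ * L) ≤ l) (X Z : Finset (Fin n)) (hX : 2 * (X.card : ℝ) ≤ d * n)
    (hdeg : ∀ c ∈ X, l ≤ ((nb G c ∩ Z).card : ℝ)) :
    X.card ≤ (Z.filter fun s => ∃ c ∈ X, (c, s) ∈ G).card := by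
  by_contra hcon
  push Not at hcon
  set N := Z.filter fun s => ∃ c ∈ X, (c, s) ∈ G with hN
  have hN' : (N.card : ℝ) < X.card := by exact_mod_cast hcon
  have h1 := hG X N (by linarith)
  rw [card_box_eq_sum] at h1
  have h2 : ∀ c ∈ X, nb G c ∩ N = nb G c ∩ Z := by
    intro c hc
    ext s
    simp only [hN, Finset.mem_inter, mem_nb, Finset.mem_filter]
    exact ⟨fun h => ⟨h.1, h.2.1⟩, fun h => ⟨h.1, h.2, c, hc, h.1⟩⟩
  have h3 : (X.card : ℝ) * l ≤ ∑ c ∈ X, ((nb G c ∩ N).card : ℝ) := by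
    rw [← nsmul_eq_mul, ← Finset.sum_const]
    refine Finset.sum_le_sum fun c hc => ?_
    rw [h2 c hc]; exact hdeg c hc
  have h4 : (X.card : ℝ) * (2 * (κ * L)) ≤ X.card * l :=
    mul_le_mul_of_nonneg_left hl (Nat.cast_nonneg _)
  have h5 : κ * L * (X.card + N.card : ℝ) < κ * L * (X.card + X.card) :=
    mul_lt_mul_of_pos_left (by linarith) hκ
  linarith

theorem SmallG.mono {n : ℕ} {G H : Gr n} {κ d L : ℝ} (hG : SmallG G κ d L) (h : H ⊆ G) :
    SmallG H κ d L := by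
  intro X Z hXZ
  refine le_trans ?_ (hG X Z hXZ)
  exact_mod_cast Finset.card_le_card (Finset.inter_subset_inter_right h)

theorem SmallG.tr {n : ℕ} {G : Gr n} {κ d L : ℝ} (hG : SmallG G κ d L) :
    SmallG (tr G) κ d L := by
  intro X Z hXZ
  rw [card_box_tr Z X]
  have := hG Z X (by linarith)
  linarith

end Pool.Agent.Helper40.LS
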