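import Pool.Agent.Helper40.LS.H1
import Pool.Agent.Helper40.LS.H8
import Pool.Agent.Helper40.LS.H9

/-! LS-F1: the first half of a row. -/

set_option autoImplicit false
open Classical Filter Topology

namespace Pool.Agent.Helper40.LS

theorem F1_card_act {n : ℕ} {M : Gr n} (hM : IsMatch M) : (act M).card + M.card = n := by
  rw [act, ← hM.card_cols, Finset.card_sdiff_add_card_eq_card (Finset.subset_univ _)]
  simp

theorem F1_card_act' {n : ℕ} {M : Gr n} (hM : IsMatch M) : (act' M).card + M.card = n := by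
  rw [act', ← hM.card_syms, Finset.card_sdiff_add_card_eq_card (Finset.subset_univ _)]
  simp

theorem F1_expand {n : ℕ} {A W : Gr n} {H Act Act' : Finset (Fin n)} {κ dA L l : ℝ}
    (hA : SmallG A κ dA L) (hκ : 0 < κ * L) (hl : 2 * (κ * L) ≤ l)
    (hhot : 2 * (H.card : ℝ) ≤ dA * n) (X : Finset (Fin n))
    (hX : X ⊆ Act.filter fun c => c ∈ H ∧ c ∉ low A W Act Act' l) :
    X.card ≤ (Act'.filter fun s => ∃ c ∈ X, (c, s) ∈ A ∩ W).card := by
  have hXH : X ⊆ H := fun c hc => (Finset.mem_filter.1 (hX hc)).2.1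
  have h1 : (X.card : ℝ) ≤ H.card := by exact_mod_cast Finset.card_le_card hXH
  refine small_expand (SmallG.mono hA Finset.inter_subset_left) hκ hl X Act' (by linarith) ?_
  intro c hc
  obtain ⟨hc1, -, hc3⟩ := Finset.mem_filter.1 (hX hc)
  rw [nb_inter]
  by_contra h
  exact hc3 (by rw [low, Finset.mem_filter]; exact ⟨hc1, not_le.1 h⟩)

/-- LS-F1: the first half of a row, deterministic (uses H1, H8, H9) -/
theorem stage1 {n t d : ℕ} {R U M0 M0t A : Gr n} {ρ ζ κ dA L l η c0 : ℝ}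
    (hζ : 0 ≤ ζ) (hR : Reserve R ρ ζ)
    (hU : ∀ c, (nb U c).card = t) (hU' : ∀ s, (nb (tr U) s).card = t)
    (hM : (M0.card : ℝ) ≤ ζ * n ^ 2) (hM0t : IsMatch M0t)
    (hA : SmallG A κ dA L) (hκ : 0 < κ * L) (hl : 2 * (κ * L) ≤ l)
    (hhot : 2 * ((hot R U η).card : ℝ) ≤ dA * n)
    (hhot' : 2 * ((hot (tr R) (tr U) η).card : ℝ) ≤ dA * n)
    (hbox : ∀ X ⊆ act M0t, ∀ Z ⊆ act' M0t, c0 ≤ ((free R U M0 ∩ box X Z).card : ℝ) →
      ∃ c ∈ X, ∃ s ∈ Z, (c, s) ∈ A ∩ free R U M0)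
    (hn : 0 ≤ (n : ℝ) - t - ρ * n)
    (hnum : c0 ≤ ((d : ℝ) - M0t.card) * (n - t - ρ * n) - 3 * ζ * n ^ 2 - (U ∩ R).card) :
    ∃ N ⊆ (A ∩ free R U M0) ∩ box (act M0t) (act' M0t), IsMatch N ∧
      (∀ c ∈ act M0t, c ∈ hot R U η →
        c ∉ low A (free R U M0) (act M0t) (act' M0t) l → c ∈ cols N) ∧
      (∀ s ∈ act' M0t, s ∈ hot (tr R) (tr U) η →
        s ∉ low (tr A) (tr (free R U M0)) (act' M0t) (act M0t) l → s ∈ syms N) ∧
      (act M0t).card ≤ N.card + d := by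
  have hc1 := F1_card_act hM0t
  have hc2 := F1_card_act' hM0t
  obtain ⟨N, hN, hNm, hN1, hN2, hN3⟩ := ext_hall (A ∩ free R U M0) (act M0t) (act' M0t)
    ((act M0t).filter fun c => c ∈ hot R U η ∧ c ∉ low A (free R U M0) (act M0t) (act' M0t) l)
    ((act' M0t).filter fun s => s ∈ hot (tr R) (tr U) η ∧
      s ∉ low (tr A) (tr (free R U M0)) (act' M0t) (act M0t) l) d (by omega)
    (Finset.filter_subset _ _) (Finset.filter_subset _ _)
    (fun X hX => F1_expand hA hκ hl hhot X hX)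
    (fun Z hZ => by
      have h := F1_expand (SmallG.tr hA) hκ hl hhot' Z hZ
      refine h.trans (le_of_eq ?_)
      congr 1
      ext c
      simp only [Finset.mem_filter, Finset.mem_inter, mem_tr])
    (fun X hX Z hZ hXZ => by
      have h1 : ((free R U M0 ∩ box X Z).card : ℝ) < c0 := by
        by_contra h
        obtain ⟨c, hc, s, hs, hcs⟩ := hbox X hX Z hZ (not_lt.1 h)
        exact hXZ c hc s hs hcs
      have h2 := reg_count hζ hR t hU hU' hM X Z
      have h3 : ((X.card : ℝ) + Z.card - n) * (n - t - ρ * n) <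
          ((d : ℝ) - M0t.card) * (n - t - ρ * n) := by linarith
      have h4 : (X.card : ℝ) + Z.card - n < (d : ℝ) - M0t.card := lt_of_mul_lt_mul_right h3 hn
      have h5 : ((X.card + Z.card + M0t.card : ℕ) : ℝ) < ((d + n : ℕ) : ℝ) := by
        push_cast; linarith
      have h6 : X.card + Z.card + M0t.card < d + n := by exact_mod_cast h5
      omega)
  refine ⟨N, hN, hNm, fun c hc hc1 hc2 => hN1 (Finset.mem_filter.2 ⟨hc, hc1, hc2⟩),
    fun s hs hs1 hs2 => hN2 (Finset.mem_filter.2 ⟨hs, hs1, hs2⟩), hN3⟩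

end Pool.Agent.Helper40.LS
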