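import Pool.Agent.Helper40.LS.Basic

/-! # LS-F5: successful runs give disjoint perfect matchings (helper45) -/

set_option autoImplicit false
set_option linter.unusedVariables false
open Classical Filter Topology

namespace Pool.Agent.Helper40.LS

/-- the inductive statement -/
theorem f5_aux {n : ℕ} {δ z0 h ζ : ℝ} {R : Gr n} {σ : Fin n → Stat n}
    {M0 : Fin n → Gr n} (hP : Pre σ M0 ζ) (x : Fin n → Row n) :
    ∀ (j : ℕ) (s : St n), run (stepR δ z0 h R M0) (st0 n) x j = some s →
    ∃ M : Fin n → Gr n,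
      (∀ t : Fin n, (t : ℕ) < j → (IsPM (M t) ∧ M t ⊆ (x t).1 ∪ ((x t).2.1 ∪ tr (x t).2.2)) ∧
        (Disjoint (M t \ M0 t) (allM M0) ∧ M t ⊆ s.1)) ∧
      ∀ t t' : Fin n, (t : ℕ) < j → (t' : ℕ) < j → t ≠ t' → Disjoint (M t) (M t') := by
  intro j
  induction j with
  | zero =>
    intro s _
    exact ⟨fun _ => ∅, fun t ht => absurd ht (Nat.not_lt_zero _),
      fun t t' ht => absurd ht (Nat.not_lt_zero _)⟩
  | succ j ih =>
    intro s' hs'
    by_cases hj : j < n
    swap
    · simp only [run, dif_neg hj] at hs'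
      exact absurd hs' (by simp)
    simp only [run, dif_pos hj] at hs'
    rw [Option.bind_eq_some_iff] at hs'
    obtain ⟨s, hs, hst⟩ := hs'
    obtain ⟨M, hM, hMd⟩ := ih s hs
    unfold stepR at hst
    split_ifs at hst with H
    have hC := Classical.choose_spec H
    set N : Gr n := Classical.choose H with hN
    rw [Option.some.injEq] at hst
    have hs1 : s'.1 = s.1 ∪ N := by rw [← hst]; rfl
    -- the new matching is disjoint from the old ones
    have hdis : ∀ t : Fin n, (t : ℕ) < j → Disjoint (M t) N := by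
      intro t ht
      rw [Finset.disjoint_left]
      intro e he heN
      obtain ⟨-, hMt, hMs⟩ := hM t ht
      by_cases h0 : e ∈ M0 ⟨j, hj⟩
      · by_cases h1 : e ∈ M0 t
        · have hne : t ≠ ⟨j, hj⟩ := by
            intro h; rw [h] at ht; exact absurd ht (lt_irrefl _)
          exact Finset.disjoint_left.1 (hP.dis t ⟨j, hj⟩ hne) h1 h0
        · refine Finset.disjoint_left.1 hMt (Finset.mem_sdiff.2 ⟨he, h1⟩) ?_
          exact Finset.mem_biUnion.2 ⟨⟨j, hj⟩, Finset.mem_univ _, h0⟩
      · exact Finset.disjoint_left.1 hC.disjU (Finset.mem_sdiff.2 ⟨heN, h0⟩) (hMs he)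
    have hlt : ∀ t : Fin n, (t : ℕ) < j + 1 → t ≠ ⟨j, hj⟩ → (t : ℕ) < j := by
      intro t ht hne
      have : (t : ℕ) ≠ j := fun h => hne (Fin.ext h)
      omega
    refine ⟨Function.update M ⟨j, hj⟩ N, ?_, ?_⟩
    · intro t ht
      by_cases hte : t = ⟨j, hj⟩
      · subst hte
        rw [Function.update_self]
        exact ⟨⟨hC.pm, hC.sub⟩, hC.disjM, by rw [hs1]; exact Finset.subset_union_right⟩
      · rw [Function.update_of_ne hte]
        obtain ⟨h1, h2, h3⟩ := hM t (hlt t ht hte)
        exact ⟨h1, h2, by rw [hs1]; exact h3.trans Finset.subset_union_left⟩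
    · intro t t' ht ht' hne
      by_cases hte : t = ⟨j, hj⟩
      · have hte' : t' ≠ ⟨j, hj⟩ := fun h => hne (hte.trans h.symm)
        subst hte
        rw [Function.update_self, Function.update_of_ne hte']
        exact (hdis t' (hlt t' ht' hte')).symm
      · rw [Function.update_of_ne hte]
        by_cases hte' : t' = ⟨j, hj⟩
        · subst hte'
          rw [Function.update_self]
          exact hdis t (hlt t ht hte)
        · rw [Function.update_of_ne hte']
          exact hMd t t' (hlt t ht hte) (hlt t' ht' hte') hne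

/-- LS-F5: successful runs give disjoint perfect matchings -/
theorem run_pms {n k : ℕ} (hk : k ≤ n) {δ z0 h ζ : ℝ} {R : Gr n} {σ : Fin n → Stat n}
    {M0 : Fin n → Gr n} (hP : Pre σ M0 ζ) (x : Fin n → Row n)
    (hx : run (stepR δ z0 h R M0) (st0 n) x k ≠ none) :
    ∃ M : Fin n → Gr n,
      (∀ t : Fin n, (t : ℕ) < k → IsPM (M t) ∧ M t ⊆ (x t).1 ∪ ((x t).2.1 ∪ tr (x t).2.2)) ∧
      ∀ t t' : Fin n, (t : ℕ) < k → (t' : ℕ) < k → t ≠ t' → Disjoint (M t) (M t') := by
  obtain ⟨s, hs⟩ := Option.ne_none_iff_exists'.1 hx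
  obtain ⟨M, hM, hMd⟩ := f5_aux hP x k s hs
  exact ⟨M, fun t ht => (hM t ht).1, hMd⟩

end Pool.Agent.Helper40.LS
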