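import Pool.Agent.Helper29.LS.Q1

/-! Project LS, module Q5: bad columns. -/

set_option autoImplicit false
open Classical Filter Topology

namespace Pool.Agent.Helper40.LS

/-- LS-Q5: the probability that given columns are bad (uses Q2) -/
theorem pr_bad {δ ε dA h z0 dC ζ : ℝ} (P : Par δ ε dA h z0 dC ζ) :
    ∀ᶠ n : ℕ in atTop, ∀ (R : Gr n), Reserve R (δ / 8) ζ →
      (∀ c, FL.Pr (pc ε n) (fun Y : Finset (Fin n) => ((Y ∩ nb R c).card : ℝ) < bb δ ε n)
        ≤ (n : ℝ) ^ (-(ε * δ / 1024))) ∧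
      ∀ Γ : Finset (Fin n), Ex (pc ε n) (fun C : Gr n => ind (Γ ⊆ bad R C (bb δ ε n)))
        ≤ ((n : ℝ) ^ (-(ε * δ / 1024))) ^ Γ.card := by
  have hδ := P.δ0
  have hε := P.ε0
  have hζ : ζ ≤ δ / 8 / 2 := by
    have h1 := P.ζ1
    have h2 := P.h2
    have h3 := P.δ1
    have h4 : (δ / 8) ^ 2 ≤ δ / 8 := by nlinarith
    linarith
  have hpc1 : ∀ᶠ n : ℕ in atTop, pc ε n ≤ 1 := by
    have h1 : Tendsto (fun n : ℕ => Real.log n / (n : ℝ)) atTop (𝓝 0) :=
      (Real.isLittleO_log_id_atTop.tendsto_div_nhds_zero).comp tendsto_natCast_atTop_atTop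
    have h2 := h1.const_mul (ε / 8)
    rw [mul_zero] at h2
    filter_upwards [h2.eventually (ge_mem_nhds (show (0 : ℝ) < 1 by norm_num))] with n hn
    unfold pc
    rw [mul_div_assoc]
    exact hn
  filter_upwards [hpc1, eventually_ge_atTop 3] with n hp1 hn R hR
  have hn3 : (3 : ℝ) ≤ n := by exact_mod_cast hn
  have hn0 : (0 : ℝ) < n := by linarith
  have hL : 0 < Real.log n := Real.log_pos (by linarith)
  have hp0 : 0 ≤ pc ε n := by
    unfold pc
    positivity
  have hfirst : ∀ c, FL.Pr (pc ε n)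
      (fun Y : Finset (Fin n) => ((Y ∩ nb R c).card : ℝ) < bb δ ε n)
        ≤ (n : ℝ) ^ (-(ε * δ / 1024)) := by
    intro c
    have hd : δ / 8 / 2 * n ≤ ((nb R c).card : ℝ) := by
      have h1 := abs_le.1 (hR.deg c)
      have h2 : ζ * n ≤ δ / 8 / 2 * n := mul_le_mul_of_nonneg_right hζ hn0.le
      linarith [h1.1]
    have hmean : ε * δ / 128 * Real.log n ≤ pc ε n * ((nb R c).card : ℝ) := by
      calc ε * δ / 128 * Real.log n = pc ε n * (δ / 8 / 2 * n) := by
            unfold pc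
            field_simp
            ring
        _ ≤ _ := mul_le_mul_of_nonneg_left hd hp0
    have h := tail_half hp0 hp1 (nb R c) (L := bb δ ε n) (by
      unfold bb
      linarith)
    refine (FL.Pr_mono hp0 hp1 fun Y hY => hY.le).trans (h.trans ?_)
    rw [Real.rpow_def_of_pos hn0]
    refine Real.exp_le_exp.2 ?_
    linarith
  refine ⟨hfirst, fun Γ => ?_⟩
  have hind : ∀ C : Gr n, ind (Γ ⊆ bad R C (bb δ ε n)) =
      ∏ c : Fin n, (if c ∈ Γ then ind (((nb C c ∩ nb R c).card : ℝ) < bb δ ε n) else 1) := by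
    intro C
    by_cases hΓ : Γ ⊆ bad R C (bb δ ε n)
    · rw [ind_true hΓ, Finset.prod_eq_one]
      intro c _
      by_cases hc : c ∈ Γ
      · rw [if_pos hc, ind_true]
        have := hΓ hc
        unfold bad at this
        exact (Finset.mem_filter.1 this).2
      · rw [if_neg hc]
    · rw [ind_false hΓ]
      obtain ⟨c, hc, hcb⟩ := Finset.not_subset.1 hΓ
      symm
      refine Finset.prod_eq_zero (Finset.mem_univ c) ?_
      rw [if_pos hc, ind_false]
      intro h
      exact hcb (Finset.mem_filter.2 ⟨Finset.mem_univ _, h⟩)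
  have h1 : Ex (pc ε n) (fun C : Gr n => ind (Γ ⊆ bad R C (bb δ ε n))) =
      ∏ c : Fin n, ∑ Y : Finset (Fin n), FL.wt (pc ε n) Y *
        (if c ∈ Γ then ind (((Y ∩ nb R c).card : ℝ) < bb δ ε n) else 1) := by
    rw [← col_prod (pc ε n) fun (c : Fin n) (Y : Finset (Fin n)) =>
      if c ∈ Γ then ind (((Y ∩ nb R c).card : ℝ) < bb δ ε n) else 1]
    exact congrArg _ (funext hind)
  rw [h1]
  have h2 : ∀ c : Fin n, ∑ Y : Finset (Fin n), FL.wt (pc ε n) Y *
        (if c ∈ Γ then ind (((Y ∩ nb R c).card : ℝ) < bb δ ε n) else 1) =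
      if c ∈ Γ then FL.Pr (pc ε n)
        (fun Y : Finset (Fin n) => ((Y ∩ nb R c).card : ℝ) < bb δ ε n) else 1 := by
    intro c
    by_cases hc : c ∈ Γ
    · simp only [if_pos hc]
      rw [Pr_eq]
    · simp only [if_neg hc, mul_one]
      exact FL.sum_wt _
  rw [Finset.prod_congr rfl fun c _ => h2 c, Finset.prod_ite_mem, Finset.univ_inter]
  refine (Finset.prod_le_prod (fun c _ => FL.Pr_nonneg hp0 hp1 _) fun c _ => hfirst c).trans ?_
  rw [Finset.prod_const]

end Pool.Agent.Helper40.LS
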