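import Pool.Agent.Helper40.LS.Basic

/-!
# LS-H7: pairs between a large part of a sample and any set
-/

set_option autoImplicit false
open Classical

namespace Pool.Agent.Helper40.LS

/-- the indicator of a cell -/
noncomputable def h7i {n : ℕ} (B : Gr n) (c s : Fin n) : ℝ := if (c, s) ∈ B then 1 else 0

theorem h7_card1 {n : ℕ} (B : Gr n) (Y : Finset (Fin n)) (c : Fin n) :
    ((nb B c ∩ Y).card : ℝ) = ∑ s ∈ Y, h7i B c s := by
  unfold h7i
  rw [← Finset.sum_filter, Finset.sum_const, nsmul_eq_mul, mul_one]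
  congr 2
  ext s
  simp [and_comm]

theorem h7_card2 {n : ℕ} (B : Gr n) (Y : Finset (Fin n)) (c c' : Fin n) :
    ((nb B c ∩ nb B c' ∩ Y).card : ℝ) = ∑ s ∈ Y, h7i B c s * h7i B c' s := by
  have h : ∀ s, h7i B c s * h7i B c' s = if (c, s) ∈ B ∧ (c', s) ∈ B then 1 else 0 := by
    intro s
    unfold h7i
    by_cases h1 : (c, s) ∈ B <;> by_cases h2 : (c', s) ∈ B <;> simp [h1, h2]
  rw [Finset.sum_congr rfl fun s _ => h s, ← Finset.sum_filter, Finset.sum_const, nsmul_eq_mul,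
    mul_one]
  congr 2
  ext s
  simp only [Finset.mem_inter, mem_nb, Finset.mem_filter]
  tauto

theorem h7i_sq {n : ℕ} (B : Gr n) (c s : Fin n) : h7i B c s * h7i B c s = h7i B c s := by
  unfold h7i
  split_ifs <;> simp

theorem h7i_le {n : ℕ} (B : Gr n) (c s : Fin n) : h7i B c s ≤ 1 := by
  unfold h7i
  split_ifs <;> simp

/-- LS-H7: pairs between a large part of the sample and any set -/
theorem pairs_lower {n : ℕ} (B : Gr n) (X Y0 Z : Finset (Fin n)) (ρ τ m : ℝ) (hρ : 0 ≤ ρ)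
    (hρ1 : ρ ≤ 1) (hτ : 0 < τ) (hτ1 : τ ≤ 1) (hm : 0 ≤ m)
    (hlow : ∀ c ∈ X, (ρ - τ) * m ≤ ((nb B c ∩ Y0).card : ℝ))
    (hcod : ∀ c ∈ X, ∀ c' ∈ X, c ≠ c' → ((nb B c ∩ nb B c' ∩ Y0).card : ℝ) ≤ (ρ ^ 2 + τ) * m)
    (hY : (Y0.card : ℝ) ≤ (1 + τ) * m) (hX : 2 ≤ τ * X.card) (hZ : Z ⊆ Y0)
    (hZm : 20 * τ * m ≤ ρ ^ 2 * Z.card) :
    ρ / 2 * ((X.card : ℝ) * Z.card) ≤ ((B ∩ box X Z).card : ℝ) := by
  set N : ℝ := (X.card : ℝ) with hN
  set x : Fin n → ℝ := fun s => ∑ c ∈ X, h7i B c s with hx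
  have hN0 : 0 ≤ N := Nat.cast_nonneg _
  -- the sum of the squares
  have h1 : ∑ s ∈ Y0, x s ^ 2 ≤ N ^ 2 * ((ρ ^ 2 + τ) * m) + N * ((1 + τ) * m) := by
    have e1 : ∑ s ∈ Y0, x s ^ 2 = ∑ c ∈ X, ∑ c' ∈ X, ∑ s ∈ Y0, h7i B c s * h7i B c' s := by
      simp only [hx, sq, Finset.sum_mul_sum]
      rw [Finset.sum_comm]
      refine Finset.sum_congr rfl fun c _ => ?_
      rw [Finset.sum_comm]
    rw [e1]
    have e2 : ∀ c ∈ X, ∑ c' ∈ X, ∑ s ∈ Y0, h7i B c s * h7i B c' s ≤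
        N * ((ρ ^ 2 + τ) * m) + (1 + τ) * m := by
      intro c hc
      have hnn : 0 ≤ (ρ ^ 2 + τ) * m := by positivity
      have e3 : ∀ c' ∈ X, ∑ s ∈ Y0, h7i B c s * h7i B c' s ≤
          (ρ ^ 2 + τ) * m + if c' = c then (1 + τ) * m else 0 := by
        intro c' hc'
        by_cases h : c' = c
        · rw [if_pos h, h]
          refine le_trans ?_ (le_add_of_nonneg_left hnn)
          refine le_trans ?_ hY
          refine (Finset.sum_le_sum fun s _ => (h7i_sq B c s).le.trans (h7i_le B c s)).trans ?_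
          simp
        · rw [if_neg h, add_zero, ← h7_card2]
          exact hcod c hc c' hc' (Ne.symm h)
      refine (Finset.sum_le_sum e3).trans ?_
      rw [Finset.sum_add_distrib, Finset.sum_const, nsmul_eq_mul, Finset.sum_ite_eq' X c, if_pos hc]
    refine (Finset.sum_le_sum e2).trans ?_
    rw [Finset.sum_const, nsmul_eq_mul]
    nlinarith
  -- the sum
  have h2 : N * ((ρ - τ) * m) ≤ ∑ s ∈ Y0, x s := by
    have e1 : ∑ s ∈ Y0, x s = ∑ c ∈ X, ((nb B c ∩ Y0).card : ℝ) := by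
      simp only [hx]
      rw [Finset.sum_comm]
      exact Finset.sum_congr rfl fun c _ => (h7_card1 B Y0 c).symm
    rw [e1]
    have := Finset.card_nsmul_le_sum X (fun c => ((nb B c ∩ Y0).card : ℝ)) _ hlow
    rwa [nsmul_eq_mul] at this
  -- the second moment
  have h3 : ∑ s ∈ Y0, (ρ * N - x s) ^ 2 ≤ 5 * τ * N ^ 2 * m := by
    have e1 : ∑ s ∈ Y0, (ρ * N - x s) ^ 2 =
        (Y0.card : ℝ) * (ρ * N) ^ 2 - 2 * (ρ * N) * ∑ s ∈ Y0, x s + ∑ s ∈ Y0, x s ^ 2 := by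
      rw [Finset.mul_sum]
      simp only [sub_sq]
      rw [Finset.sum_add_distrib, Finset.sum_sub_distrib, Finset.sum_const, nsmul_eq_mul]
    rw [e1]
    have e2 : (Y0.card : ℝ) * (ρ * N) ^ 2 ≤ (1 + τ) * m * (ρ * N) ^ 2 :=
      mul_le_mul_of_nonneg_right hY (sq_nonneg _)
    have e3 : 2 * (ρ * N) * (N * ((ρ - τ) * m)) ≤ 2 * (ρ * N) * ∑ s ∈ Y0, x s :=
      mul_le_mul_of_nonneg_left h2 (by positivity)
    have e4 : N * ((1 + τ) * m) ≤ τ * N ^ 2 * m := by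
      have : N * ((1 + τ) * m) ≤ (2 * N) * m := by nlinarith [mul_nonneg hN0 hm]
      refine this.trans ?_
      refine mul_le_mul_of_nonneg_right ?_ hm
      nlinarith
    have hNm : 0 ≤ N ^ 2 * m * τ := by positivity
    have e5 : N ^ 2 * m * τ * ρ ≤ N ^ 2 * m * τ := mul_le_of_le_one_right hNm hρ1
    have e6 : N ^ 2 * m * τ * ρ ^ 2 ≤ N ^ 2 * m * τ :=
      mul_le_of_le_one_right hNm (pow_le_one₀ hρ hρ1)
    nlinarith
  -- Cauchy-Schwarz
  have h4 : (∑ s ∈ Z, (ρ * N - x s)) ^ 2 ≤ (Z.card : ℝ) * (5 * τ * N ^ 2 * m) := by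
    refine sq_sum_le_card_mul_sum_sq.trans ?_
    refine mul_le_mul_of_nonneg_left ?_ (Nat.cast_nonneg _)
    exact (Finset.sum_le_sum_of_subset_of_nonneg hZ fun _ _ _ => sq_nonneg _).trans h3
  have h5 : (∑ s ∈ Z, (ρ * N - x s)) ^ 2 ≤ (ρ / 2 * (N * Z.card)) ^ 2 := by
    refine h4.trans ?_
    have : (Z.card : ℝ) * (5 * τ * N ^ 2 * m) = N ^ 2 * Z.card / 4 * (20 * τ * m) := by ring
    rw [this]
    have h6 : N ^ 2 * (Z.card : ℝ) / 4 * (20 * τ * m) ≤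
        N ^ 2 * (Z.card : ℝ) / 4 * (ρ ^ 2 * Z.card) :=
      mul_le_mul_of_nonneg_left hZm (by positivity)
    refine h6.trans (le_of_eq ?_)
    ring
  have h6 : ∑ s ∈ Z, (ρ * N - x s) ≤ ρ / 2 * (N * Z.card) :=
    (le_abs_self _).trans (abs_le_of_sq_le_sq h5 (by positivity))
  have h7 : ((B ∩ box X Z).card : ℝ) = ∑ s ∈ Z, x s := by
    rw [card_box_eq_sum]
    simp only [hx]
    rw [Finset.sum_comm]
    exact Finset.sum_congr rfl fun c _ => h7_card1 B Z c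
  rw [h7]
  rw [Finset.sum_sub_distrib, Finset.sum_const, nsmul_eq_mul] at h6
  nlinarith

end Pool.Agent.Helper40.LS
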