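import Pool.Agent.Helper40.LS.Q6
import Pool.Agent.Helper64.LS.Q7
import Pool.Agent.Helper64.LS.Q8

/-! Project LS, assembly 1: one row of the process, probability of failure. -/

set_option autoImplicit false
open Classical Filter Topology

namespace Pool.Agent.Helper40.LS

/-- the global properties of a row -/
structure Good {n : ℕ} (δ ε dA z0 dC : ℝ) (x : Row n) : Prop where
  sA : SmallG x.1 (δ / 4) dA (Real.log n)
  sC : SmallG x.2.1 (ε * (δ / 8) * z0 / 32) dC (Real.log n)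
  sS : SmallG x.2.2 (ε * (δ / 8) * z0 / 32) dC (Real.log n)
  dC : ∀ c, ((nb x.2.1 c).card : ℝ) ≤ 8 * Real.log n
  dS : ∀ c, ((nb x.2.2 c).card : ℝ) ≤ 8 * Real.log n

/-- LS-G1: the side conditions -/
theorem side_fail {δ ε dA h z0 dC ζ : ℝ} (P : Par δ ε dA h z0 dC ζ) :
    ∀ᶠ n : ℕ in atTop, ∀ (R B : Gr n) (Bd Act Al Y0 : Finset (Fin n)) (z : ℝ),
      Reserve R (δ / 8) ζ → Disjoint Act Bd →
      (∀ c ∈ Act, ((nb R c \ (nb B c ∩ Al)).card : ℝ) ≤ 4 * h * n) → z0 ≤ z →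
      Samp B Y0 (δ / 8) (tau δ) (2 * z * n) →
      Ex (pc ε n) (fun C => ind (bad R C (bb δ ε n) = Bd) *
        ind (¬ Side C B Act Al Y0 (bb δ ε n / 2) (l2 δ ε z0 n) (gg ζ n) (dC / 2 * n) (z / 25 * n)))
      ≤ 3 * (n : ℝ) ^ (-(3 : ℝ)) * Ex (pc ε n) (fun C => ind (bad R C (bb δ ε n) = Bd)) := by
  have hpc : ∀ᶠ n : ℕ in atTop, 0 ≤ pc ε n ∧ pc ε n ≤ 1 := by
    have h1 : Tendsto (fun n : ℕ => ε / 8 * (Real.log n / n)) atTop (𝓝 (ε / 8 * 0)) := by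
      refine Tendsto.const_mul _ ?_
      exact (Real.isLittleO_log_id_atTop.tendsto_div_nhds_zero).comp tendsto_natCast_atTop_atTop
    rw [mul_zero] at h1
    filter_upwards [h1.eventually_lt_const zero_lt_one, eventually_ge_atTop 1] with n hn hn1
    have h2 : pc ε n = ε / 8 * (Real.log n / n) := by rw [pc]; ring
    rw [h2]
    have := P.ε0
    have h3 : (1 : ℝ) ≤ n := by exact_mod_cast hn1
    have h4 := Real.log_nonneg h3
    exact ⟨by positivity, hn.le⟩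
  filter_upwards [hpc, deg_fail P, exc_fail P, large_fail P] with n hp hdeg hexc hlarge R B Bd Act
    Al Y0 z hR hD hE hz hS
  have e1 := hdeg R B Bd Act Al hR hD hE
  have e2 := hexc R B Bd Act Y0 z hR hD hz (fun c _ => hS.low c)
  have e3 := hlarge R B Bd Act Y0 z hR hD hz hS
  have key : Ex (pc ε n) (fun C => ind (bad R C (bb δ ε n) = Bd) *
        ind (¬ Side C B Act Al Y0 (bb δ ε n / 2) (l2 δ ε z0 n) (gg ζ n) (dC / 2 * n) (z / 25 * n)))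
      ≤ Ex (pc ε n) (fun C => (ind (bad R C (bb δ ε n) = Bd) *
        ind (∃ c ∈ Act, ((nb C c ∩ nb B c ∩ Al).card : ℝ) < bb δ ε n / 2) +
        ind (bad R C (bb δ ε n) = Bd) * ind (gg ζ n < ((Act.filter fun c =>
          ((nb C c ∩ nb B c ∩ Y0).card : ℝ) < l2 δ ε z0 n).card : ℝ))) +
        ind (bad R C (bb δ ε n) = Bd) *
        ind (∃ X ⊆ Act, ∃ Z ⊆ Y0, dC / 2 * n < (X.card : ℝ) ∧ z / 25 * n ≤ (Z.card : ℝ) ∧
          ∀ c ∈ X, ∀ s ∈ Z, (c, s) ∉ C ∩ B)) := by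
    refine Ex_mono hp.1 hp.2 fun C => ?_
    rw [← mul_add, ← mul_add]
    refine mul_le_mul_of_nonneg_left ?_ (ind_nonneg _)
    refine le_trans (ind_mono (Q := ((∃ c ∈ Act, ((nb C c ∩ nb B c ∩ Al).card : ℝ) < bb δ ε n / 2) ∨
      (gg ζ n < ((Act.filter fun c =>
          ((nb C c ∩ nb B c ∩ Y0).card : ℝ) < l2 δ ε z0 n).card : ℝ))) ∨
      (∃ X ⊆ Act, ∃ Z ⊆ Y0, dC / 2 * n < (X.card : ℝ) ∧ z / 25 * n ≤ (Z.card : ℝ) ∧
          ∀ c ∈ X, ∀ s ∈ Z, (c, s) ∉ C ∩ B)) ?_) ?_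
    · intro hns
      by_contra hcon
      rw [not_or, not_or] at hcon
      obtain ⟨⟨h1, h2⟩, h3⟩ := hcon
      refine hns ⟨fun c hc => ?_, not_lt.1 h2, fun X hX Z hZ hX1 hZ1 => ?_⟩
      · by_contra h4
        exact h1 ⟨c, hc, not_le.1 h4⟩
      · by_contra h4
        refine h3 ⟨X, hX, Z, hZ, hX1, hZ1, fun c hc s hs hcs => h4 ⟨c, hc, s, hs, hcs⟩⟩
    · refine (ind_or_le _ _).trans ?_
      have := ind_or_le (∃ c ∈ Act, ((nb C c ∩ nb B c ∩ Al).card : ℝ) < bb δ ε n / 2)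
        (gg ζ n < ((Act.filter fun c =>
          ((nb C c ∩ nb B c ∩ Y0).card : ℝ) < l2 δ ε z0 n).card : ℝ))
      linarith
  refine key.trans ?_
  rw [Ex_add, Ex_add]
  linarith

end Pool.Agent.Helper40.LS
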