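import Pool.Agent.Helper40.LS.Basic

/-!
# Project LS: LS-H2, the final matching
-/

set_option autoImplicit false
open Classical Filter Topology

namespace Pool.Agent.Helper40.LS

/-- Hall condition for the final matching. -/
theorem h87_hall {n : ℕ} (F : Gr n) (X Z X0 Z0 : Finset (Fin n)) (x1 w : ℝ)
    (hX0 : X0 ⊆ X) (hZ0 : Z0 ⊆ Z) (hcard : X.card = Z.card) (hcard0 : X0.card = Z0.card)
    (small : ∀ X1 ⊆ X, (X1.card : ℝ) ≤ x1 →
      X1.card ≤ (Z.filter fun s => ∃ c ∈ X1, (c, s) ∈ F).card)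
    (small' : ∀ Z1 ⊆ Z, (Z1.card : ℝ) ≤ x1 →
      Z1.card ≤ (X.filter fun c => ∃ s ∈ Z1, (c, s) ∈ F).card)
    (large : ∀ X1 ⊆ X, ∀ Z1 ⊆ Z0, x1 < (X1.card : ℝ) → w ≤ (Z1.card : ℝ) →
      ∃ c ∈ X1, ∃ s ∈ Z1, (c, s) ∈ F)
    (large' : ∀ Z1 ⊆ Z, ∀ X1 ⊆ X0, x1 < (Z1.card : ℝ) → w ≤ (X1.card : ℝ) →
      ∃ c ∈ X1, ∃ s ∈ Z1, (c, s) ∈ F)
    (hnum : (X.card : ℝ) + 2 * w ≤ 2 * X0.card) (X1 : Finset (Fin n)) (hX1 : X1 ⊆ X) :
    X1.card ≤ (Z.filter fun s => ∃ c ∈ X1, (c, s) ∈ F).card := by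
  by_contra hcon
  push Not at hcon
  set N := Z.filter fun s => ∃ c ∈ X1, (c, s) ∈ F with hN
  have hNZ : N ⊆ Z := Finset.filter_subset _ _
  have h1 : x1 < (X1.card : ℝ) := by
    by_contra h
    push Not at h
    exact absurd (small X1 hX1 h) (not_le.2 hcon)
  have hno : ∀ c ∈ X1, ∀ s ∈ Z \ N, (c, s) ∉ F := by
    intro c hc s hs hcs
    rw [Finset.mem_sdiff] at hs
    exact hs.2 (Finset.mem_filter.2 ⟨hs.1, c, hc, hcs⟩)
  have h2 : (((Z \ N) ∩ Z0).card : ℝ) < w := by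
    by_contra h
    push Not at h
    obtain ⟨c, hc, s, hs, hcs⟩ := large X1 hX1 ((Z \ N) ∩ Z0) Finset.inter_subset_right h1 h
    exact hno c hc s (Finset.mem_inter.1 hs).1 hcs
  have hZN : (Z \ N).card + N.card = Z.card := Finset.card_sdiff_add_card_eq_card hNZ
  have hsub : (X.filter fun c => ∃ s ∈ Z \ N, (c, s) ∈ F) ⊆ X \ X1 := by
    intro c hc
    obtain ⟨hcX, s, hs, hcs⟩ := Finset.mem_filter.1 hc
    rw [Finset.mem_sdiff]
    exact ⟨hcX, fun hc1 => hno c hc1 s hs hcs⟩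
  have hXX1 : (X \ X1).card + X1.card = X.card := Finset.card_sdiff_add_card_eq_card hX1
  have h3 : x1 < ((Z \ N).card : ℝ) := by
    by_contra h
    push Not at h
    have h4 := small' (Z \ N) Finset.sdiff_subset h
    have h5 := Finset.card_le_card hsub
    omega
  have h4 : ((X1 ∩ X0).card : ℝ) < w := by
    by_contra h
    push Not at h
    obtain ⟨c, hc, s, hs, hcs⟩ :=
      large' (Z \ N) Finset.sdiff_subset (X1 ∩ X0) Finset.inter_subset_right h3 h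
    exact hno c (Finset.mem_inter.1 hc).1 s hs hcs
  have h5 : X1.card ≤ (X1 ∩ X0).card + (X \ X0).card := by
    have h : X1 ⊆ (X1 ∩ X0) ∪ (X \ X0) := by
      intro c hc
      by_cases h0 : c ∈ X0
      · exact Finset.mem_union_left _ (Finset.mem_inter.2 ⟨hc, h0⟩)
      · exact Finset.mem_union_right _ (Finset.mem_sdiff.2 ⟨hX1 hc, h0⟩)
    exact (Finset.card_le_card h).trans (Finset.card_union_le _ _)
  have h6 : (Z \ N).card ≤ ((Z \ N) ∩ Z0).card + (Z \ Z0).card := by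
    have h : Z \ N ⊆ ((Z \ N) ∩ Z0) ∪ (Z \ Z0) := by
      intro c hc
      by_cases h0 : c ∈ Z0
      · exact Finset.mem_union_left _ (Finset.mem_inter.2 ⟨hc, h0⟩)
      · exact Finset.mem_union_right _ (Finset.mem_sdiff.2 ⟨(Finset.mem_sdiff.1 hc).1, h0⟩)
    exact (Finset.card_le_card h).trans (Finset.card_union_le _ _)
  have hX0' : (X \ X0).card + X0.card = X.card := Finset.card_sdiff_add_card_eq_card hX0
  have hZ0' : (Z \ Z0).card + Z0.card = Z.card := Finset.card_sdiff_add_card_eq_card hZ0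
  have e1 : ((X1.card : ℕ) : ℝ) ≤ ((X1 ∩ X0).card : ℝ) + ((X \ X0).card : ℝ) := by exact_mod_cast h5
  have e2 : (((Z \ N).card : ℕ) : ℝ) ≤ (((Z \ N) ∩ Z0).card : ℝ) + ((Z \ Z0).card : ℝ) := by
    exact_mod_cast h6
  have e3 : ((X \ X0).card : ℝ) + (X0.card : ℝ) = (X.card : ℝ) := by exact_mod_cast hX0'
  have e4 : ((Z \ Z0).card : ℝ) + (Z0.card : ℝ) = (Z.card : ℝ) := by exact_mod_cast hZ0'
  have e5 : (X.card : ℝ) = (Z.card : ℝ) := by exact_mod_cast hcard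
  have e6 : (X0.card : ℝ) = (Z0.card : ℝ) := by exact_mod_cast hcard0
  have e7 : ((Z \ N).card : ℝ) + (N.card : ℝ) = (Z.card : ℝ) := by exact_mod_cast hZN
  have e8 : (N.card : ℝ) < (X1.card : ℝ) := by exact_mod_cast hcon
  linarith

/-- LS-H2: the final matching -/
theorem final_hall {n : ℕ} (F : Gr n) (X Z X0 Z0 : Finset (Fin n)) (x1 w : ℝ)
    (hX0 : X0 ⊆ X) (hZ0 : Z0 ⊆ Z) (hcard : X.card = Z.card) (hcard0 : X0.card = Z0.card)
    (small : ∀ X1 ⊆ X, (X1.card : ℝ) ≤ x1 →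
      X1.card ≤ (Z.filter fun s => ∃ c ∈ X1, (c, s) ∈ F).card)
    (small' : ∀ Z1 ⊆ Z, (Z1.card : ℝ) ≤ x1 →
      Z1.card ≤ (X.filter fun c => ∃ s ∈ Z1, (c, s) ∈ F).card)
    (large : ∀ X1 ⊆ X, ∀ Z1 ⊆ Z0, x1 < (X1.card : ℝ) → w ≤ (Z1.card : ℝ) →
      ∃ c ∈ X1, ∃ s ∈ Z1, (c, s) ∈ F)
    (large' : ∀ Z1 ⊆ Z, ∀ X1 ⊆ X0, x1 < (Z1.card : ℝ) → w ≤ (X1.card : ℝ) →
      ∃ c ∈ X1, ∃ s ∈ Z1, (c, s) ∈ F)
    (hnum : (X.card : ℝ) + 2 * w ≤ 2 * X0.card) :
    ∃ M ⊆ F ∩ box X Z, IsMatch M ∧ cols M = X ∧ syms M = Z := by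
  have hall : ∀ A : Finset {c // c ∈ X},
      A.card ≤ (A.biUnion fun c => Z.filter fun s => (c.1, s) ∈ F).card := by
    intro A
    have h := h87_hall F X Z X0 Z0 x1 w hX0 hZ0 hcard hcard0 small small' large large' hnum
      (A.image Subtype.val) (by
        intro c hc
        obtain ⟨a, _, rfl⟩ := Finset.mem_image.1 hc
        exact a.2)
    rw [Finset.card_image_of_injective _ Subtype.val_injective] at h
    refine h.trans (Finset.card_le_card ?_)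
    intro s hs
    obtain ⟨hsZ, c, hc, hcs⟩ := Finset.mem_filter.1 hs
    obtain ⟨a, ha, rfl⟩ := Finset.mem_image.1 hc
    exact Finset.mem_biUnion.2 ⟨a, ha, Finset.mem_filter.2 ⟨hsZ, hcs⟩⟩
  obtain ⟨f, hfinj, hf⟩ := (Finset.all_card_le_biUnion_card_iff_exists_injective _).1 hall
  have hf1 : ∀ c : {c // c ∈ X}, f c ∈ Z ∧ (c.1, f c) ∈ F := fun c => Finset.mem_filter.1 (hf c)
  set M : Gr n := (Finset.univ : Finset {c // c ∈ X}).image fun c => (c.1, f c) with hM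
  have hmem : ∀ e, e ∈ M ↔ ∃ c : {c // c ∈ X}, (c.1, f c) = e := by
    intro e
    rw [hM, Finset.mem_image]
    simp
  refine ⟨M, ?_, ⟨?_, ?_⟩, ?_, ?_⟩
  · intro e he
    obtain ⟨c, rfl⟩ := (hmem e).1 he
    rw [Finset.mem_inter]
    exact ⟨(hf1 c).2, Finset.mem_product.2 ⟨c.2, (hf1 c).1⟩⟩
  · intro e he e' he' h
    obtain ⟨c, rfl⟩ := (hmem e).1 he
    obtain ⟨c', rfl⟩ := (hmem e').1 he'
    have : c = c' := Subtype.ext h
    rw [this]
  · intro e he e' he' h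
    obtain ⟨c, rfl⟩ := (hmem e).1 he
    obtain ⟨c', rfl⟩ := (hmem e').1 he'
    have : c = c' := hfinj h
    rw [this]
  · ext c
    simp only [cols, Finset.mem_image]
    constructor
    · rintro ⟨e, he, rfl⟩
      obtain ⟨c, rfl⟩ := (hmem e).1 he
      exact c.2
    · intro hc
      exact ⟨_, (hmem _).2 ⟨⟨c, hc⟩, rfl⟩, rfl⟩
  · have hsub : syms M ⊆ Z := by
      intro s hs
      simp only [syms, Finset.mem_image] at hs
      obtain ⟨e, he, rfl⟩ := hs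
      obtain ⟨c, rfl⟩ := (hmem e).1 he
      exact (hf1 c).1
    apply Finset.eq_of_subset_of_card_le hsub
    have h1 : syms M = (Finset.univ : Finset {c // c ∈ X}).image f := by
      ext s
      simp only [syms, Finset.mem_image, Finset.mem_univ, true_and]
      constructor
      · rintro ⟨e, he, rfl⟩
        obtain ⟨c, rfl⟩ := (hmem e).1 he
        exact ⟨c, rfl⟩
      · rintro ⟨c, rfl⟩
        exact ⟨_, (hmem _).2 ⟨c, rfl⟩, rfl⟩
    rw [h1, Finset.card_image_of_injective _ hfinj, Finset.card_univ, Fintype.card_coe, hcard]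

end Pool.Agent.Helper40.LS
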