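import Pool.Agent.Helper40.LS.Basic
import Pool.Agent.Helper40.LS.H2
import Pool.Agent.Helper40.LS.H9

/-!
# Project LS, module H10: the second half of a row
-/

set_option autoImplicit false
open Classical Filter Topology

namespace Pool.Agent.Helper40.LS

section h10

variable {n : ℕ}

theorem h10_match_union {G H : Gr n} (hG : IsMatch G) (hH : IsMatch H)
    (hc : Disjoint (cols G) (cols H)) (hs : Disjoint (syms G) (syms H)) : IsMatch (G ∪ H) := by
  rw [Finset.disjoint_left] at hc hs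
  refine ⟨fun e he f hf hef => ?_, fun e he f hf hef => ?_⟩
  · rw [Finset.mem_union] at he hf
    rcases he with he | he <;> rcases hf with hf | hf
    · exact hG.1 e he f hf hef
    · exact absurd (mem_cols.2 ⟨f.2, hf⟩) (hef ▸ hc (mem_cols.2 ⟨e.2, he⟩))
    · exact absurd (mem_cols.2 ⟨e.2, he⟩) (hef ▸ hc (mem_cols.2 ⟨f.2, hf⟩))
    · exact hH.1 e he f hf hef
  · rw [Finset.mem_union] at he hf
    rcases he with he | he <;> rcases hf with hf | hf
    · exact hG.2 e he f hf hef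
    · exact absurd (mem_syms.2 ⟨f.1, hf⟩) (hef ▸ hs (mem_syms.2 ⟨e.1, he⟩))
    · exact absurd (mem_syms.2 ⟨e.1, he⟩) (hef ▸ hs (mem_syms.2 ⟨f.1, hf⟩))
    · exact hH.2 e he f hf hef

theorem h10_cols_mono {G H : Gr n} (h : G ⊆ H) : cols G ⊆ cols H := Finset.image_subset_image h

theorem h10_syms_mono {G H : Gr n} (h : G ⊆ H) : syms G ⊆ syms H := Finset.image_subset_image h

theorem h10_cols_sdiff {N P : Gr n} (hN : IsMatch N) (hP : P ⊆ N) :
    cols (N \ P) = cols N \ cols P := by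
  ext c
  rw [Finset.mem_sdiff, mem_cols, mem_cols, mem_cols]
  constructor
  · rintro ⟨s, hs⟩
    rw [Finset.mem_sdiff] at hs
    refine ⟨⟨s, hs.1⟩, ?_⟩
    rintro ⟨s', hs'⟩
    have h1 := hN.1 (c, s) hs.1 (c, s') (hP hs') rfl
    rw [h1] at hs
    exact hs.2 hs'
  · rintro ⟨⟨s, hs⟩, h2⟩
    exact ⟨s, Finset.mem_sdiff.2 ⟨hs, fun h3 => h2 ⟨s, h3⟩⟩⟩

theorem h10_syms_sdiff {N P : Gr n} (hN : IsMatch N) (hP : P ⊆ N) :
    syms (N \ P) = syms N \ syms P := by
  have h1 : tr P ⊆ tr N := tr_subset hP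
  have h2 := h10_cols_sdiff hN.tr h1
  rwa [← tr_sdiff, cols_tr, cols_tr, cols_tr] at h2

/-- the number of cells whose symbol is a neighbour of an exceptional column -/
theorem h10_card_le {N' G : Gr n} (hN : IsMatch N') (E : Finset (Fin n)) {g Dm : ℝ}
    (hE : (E.card : ℝ) ≤ g) (hDm : 0 ≤ Dm) (hD : ∀ c, ((nb G c).card : ℝ) ≤ Dm) :
    ((N'.filter fun e => ∃ c ∈ E, e.2 ∈ nb G c).card : ℝ) ≤ g * Dm := by
  set P := N'.filter fun e => ∃ c ∈ E, e.2 ∈ nb G c with hP
  have h1 : P.card = (syms P).card := (hN.mono (Finset.filter_subset _ _)).card_syms.symm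
  have h2 : syms P ⊆ E.biUnion (nb G) := by
    intro s hs
    obtain ⟨c, hc⟩ := mem_syms.1 hs
    rw [hP, Finset.mem_filter] at hc
    obtain ⟨c', hc', h3⟩ := hc.2
    exact Finset.mem_biUnion.2 ⟨c', hc', h3⟩
  have h3 : ((syms P).card : ℝ) ≤ ∑ c ∈ E, ((nb G c).card : ℝ) := by
    have := (Finset.card_le_card h2).trans Finset.card_biUnion_le
    exact_mod_cast this
  calc (P.card : ℝ) = (syms P).card := by rw [h1]
    _ ≤ ∑ c ∈ E, ((nb G c).card : ℝ) := h3
    _ ≤ ∑ _c ∈ E, Dm := Finset.sum_le_sum fun c _ => hD c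
    _ = E.card * Dm := by rw [Finset.sum_const, nsmul_eq_mul]
    _ ≤ g * Dm := mul_le_mul_of_nonneg_right hE hDm

/-- degrees into `Z` -/
theorem h10_deg {R U M0 M0t C N P0 : Gr n} {η l1 l2 g x1 w : ℝ}
    (hC : Side C (resv R U M0) (act M0t) (act' M0t \ syms (hotN R U η N)) (syms P0) l1 l2 g x1 w)
    (hl21 : l2 ≤ l1) (E : Finset (Fin n))
    (hE : E = (act M0t).filter fun c =>
      ((nb C c ∩ nb (resv R U M0) c ∩ syms P0).card : ℝ) < l2)
    (Z : Finset (Fin n)) (hZ1 : act' M0t \ syms N ⊆ Z) (hZ2 : syms P0 ⊆ Z)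
    (hZ3 : ∀ e ∈ N \ hotN R U η N, (∃ c ∈ E, e.2 ∈ nb (C ∩ resv R U M0) c) → e.2 ∈ Z)
    (c : Fin n) (hc : c ∈ act M0t) : l2 ≤ ((nb (C ∩ resv R U M0) c ∩ Z).card : ℝ) := by
  rw [nb_inter]
  by_cases hcE : c ∈ E
  · refine hl21.trans ((hC.deg c hc).trans ?_)
    refine Nat.cast_le.2 (Finset.card_le_card fun s hs => ?_)
    rw [Finset.mem_inter, Finset.mem_sdiff] at hs
    refine Finset.mem_inter.2 ⟨hs.1, ?_⟩
    by_cases hsN : s ∈ syms N
    · obtain ⟨c', hc'⟩ := mem_syms.1 hsN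
      refine hZ3 (c', s) (Finset.mem_sdiff.2 ⟨hc', fun h => hs.2.2 (mem_syms.2 ⟨c', h⟩)⟩)
        ⟨c, hcE, ?_⟩
      rw [nb_inter]
      exact hs.1
    · exact hZ1 (Finset.mem_sdiff.2 ⟨hs.2.1, hsN⟩)
  · have h1 : ¬ ((nb C c ∩ nb (resv R U M0) c ∩ syms P0).card : ℝ) < l2 := fun h =>
      hcE (hE ▸ Finset.mem_filter.2 ⟨hc, h⟩)
    refine (not_lt.1 h1).trans ?_
    exact Nat.cast_le.2 (Finset.card_le_card (Finset.inter_subset_inter_left hZ2))

end h10

/-- LS-H10: the second half of a row, deterministic -/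
theorem stage2 {n : ℕ} {R U M0 M0t A C S N P0 : Gr n} {η l K l1 l2 g x1 w κ dd L Dm : ℝ} {d : ℕ}
    (hM0t : IsMatch M0t) (hM0A : M0t ⊆ A)
    (hN : N ⊆ (A ∩ free R U M0) ∩ box (act M0t) (act' M0t)) (hNm : IsMatch N)
    (hcov : ∀ c ∈ act M0t, c ∈ hot R U η →
      c ∉ low A (free R U M0) (act M0t) (act' M0t) l → c ∈ cols N)
    (hcov' : ∀ s ∈ act' M0t, s ∈ hot (tr R) (tr U) η →
      s ∉ low (tr A) (tr (free R U M0)) (act' M0t) (act M0t) l → s ∈ syms N)
    (hd : (act M0t).card ≤ N.card + d)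
    (hP0 : P0 ⊆ N \ hotN R U η N)
    (hC : Side C (resv R U M0) (act M0t) (act' M0t \ syms (hotN R U η N)) (syms P0) l1 l2 g x1 w)
    (hS : Side S (tr (resv R U M0)) (act' M0t) (act M0t \ cols (hotN R U η N)) (cols P0)
      l1 l2 g x1 w)
    (hCs : SmallG C κ dd L) (hSs : SmallG S κ dd L)
    (hκ : 0 < κ * L) (hl2 : 2 * (κ * L) ≤ l2) (hl21 : l2 ≤ l1) (hx : 2 * x1 ≤ dd * n)
    (hDC : ∀ c, ((nb C c).card : ℝ) ≤ Dm) (hDS : ∀ s, ((nb S s).card : ℝ) ≤ Dm) (hDm : 0 ≤ Dm) (hg : 0 ≤ g)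
    (hnum : d + 2 * g * Dm + 2 * w ≤ P0.card)
    (hK : (M0t.card : ℝ) + d + P0.card + 2 * g * Dm ≤ K) :
    ∃ M, RowOut R U M0 M0t A C S (act M0t) (act' M0t) η l K M := by
  set B := resv R U M0 with hB
  set H := hotN R U η N with hH
  set EC := (act M0t).filter fun c => ((nb C c ∩ nb B c ∩ syms P0).card : ℝ) < l2 with hEC
  set ES := (act' M0t).filter fun s => ((nb S s ∩ nb (tr B) s ∩ cols P0).card : ℝ) < l2 with hES
  set P1 := (N \ H).filter fun e => ∃ c ∈ EC, e.2 ∈ nb (C ∩ B) c with hP1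
  set P2 := (N \ H).filter fun e => ∃ s ∈ ES, e.1 ∈ nb (S ∩ tr B) s with hP2
  set P := P0 ∪ (P1 ∪ P2) with hP
  have hPN' : P ⊆ N \ H := Finset.union_subset hP0
    (Finset.union_subset (Finset.filter_subset _ _) (Finset.filter_subset _ _))
  have hPN : P ⊆ N := hPN'.trans Finset.sdiff_subset
  have hPm : IsMatch P := hNm.mono hPN
  have hNa : cols N ⊆ act M0t := by
    intro c hc
    obtain ⟨s, hs⟩ := mem_cols.1 hc
    exact (mem_box.1 (Finset.mem_inter.1 (hN hs)).2).1
  have hNa' : syms N ⊆ act' M0t := by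
    intro s hs
    obtain ⟨c, hc⟩ := mem_syms.1 hs
    exact (mem_box.1 (Finset.mem_inter.1 (hN hc)).2).2
  have hNfree : ∀ e ∈ N, e ∈ A ∧ e ∉ U ∧ e ∉ R ∧ e ∉ M0 := by
    intro e he
    have h1 := (Finset.mem_inter.1 (hN he)).1
    rw [Finset.mem_inter, free, Finset.mem_sdiff, Finset.mem_sdiff, Finset.mem_union] at h1
    exact ⟨h1.1, fun h => h1.2.1.2 (Or.inl h), fun h => h1.2.1.2 (Or.inr h), h1.2.2⟩
  -- cardinalities
  have hgC : ((EC.card : ℝ)) ≤ g := hC.exc
  have hgS : ((ES.card : ℝ)) ≤ g := hS.exc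
  have hcP1 : (P1.card : ℝ) ≤ g * Dm := by
    refine h10_card_le (hNm.mono Finset.sdiff_subset) EC hgC hDm fun c => ?_
    refine le_trans (Nat.cast_le.2 (Finset.card_le_card ?_)) (hDC c)
    rw [nb_inter]; exact Finset.inter_subset_left
  have hcP2 : (P2.card : ℝ) ≤ g * Dm := by
    have h1 : P2.card = ((tr (N \ H)).filter fun e => ∃ s ∈ ES, e.2 ∈ nb (S ∩ tr B) s).card := by
      rw [← card_tr (G := P2)]
      congr 1
      ext ⟨a, b⟩
      simp [hP2, mem_tr']
    rw [h1]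
    refine h10_card_le (hNm.mono Finset.sdiff_subset).tr ES hgS hDm fun c => ?_
    refine le_trans (Nat.cast_le.2 (Finset.card_le_card ?_)) (hDS c)
    rw [nb_inter]; exact Finset.inter_subset_left
  have hcP : (P.card : ℝ) ≤ P0.card + 2 * g * Dm := by
    have h1 : P.card ≤ P0.card + (P1.card + P2.card) :=
      (Finset.card_union_le _ _).trans (Nat.add_le_add_left (Finset.card_union_le _ _) _)
    have h2 : (P.card : ℝ) ≤ P0.card + (P1.card + P2.card) := by exact_mod_cast h1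
    linarith
  set X := (act M0t \ cols N) ∪ cols P with hX
  set Z := (act' M0t \ syms N) ∪ syms P with hZ
  have hPcN : cols P ⊆ cols N := h10_cols_mono hPN
  have hPsN : syms P ⊆ syms N := h10_syms_mono hPN
  have hdX : Disjoint (act M0t \ cols N) (cols P) :=
    Finset.disjoint_of_subset_right hPcN Finset.sdiff_disjoint
  have hdZ : Disjoint (act' M0t \ syms N) (syms P) :=
    Finset.disjoint_of_subset_right hPsN Finset.sdiff_disjoint
  have hXa : X ⊆ act M0t := Finset.union_subset Finset.sdiff_subset (hPcN.trans hNa)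
  have hZa : Z ⊆ act' M0t := Finset.union_subset Finset.sdiff_subset (hPsN.trans hNa')
  have hcX : X.card + N.card = (act M0t).card + P.card := by
    rw [hX, Finset.card_union_of_disjoint hdX, Finset.card_sdiff_of_subset hNa, hNm.card_cols,
      hPm.card_cols]
    have := Finset.card_le_card hNa
    rw [hNm.card_cols] at this
    omega
  have hcZ : Z.card + N.card = (act' M0t).card + P.card := by
    rw [hZ, Finset.card_union_of_disjoint hdZ, Finset.card_sdiff_of_subset hNa', hNm.card_syms,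
      hPm.card_syms]
    have := Finset.card_le_card hNa'
    rw [hNm.card_syms] at this
    omega
  have hact : (act M0t).card = (act' M0t).card := by
    rw [act, act', Finset.card_sdiff_of_subset (Finset.subset_univ _),
      Finset.card_sdiff_of_subset (Finset.subset_univ _), hM0t.card_cols, hM0t.card_syms]
  have hXZ : X.card = Z.card := by omega
  have hXle : (X.card : ℝ) ≤ d + P0.card + 2 * g * Dm := by
    have h1 : X.card ≤ d + P.card := by omega
    have h2 : (X.card : ℝ) ≤ d + P.card := by exact_mod_cast h1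
    linarith
  have hX0 : cols P0 ⊆ X := (h10_cols_mono Finset.subset_union_left).trans
    Finset.subset_union_right
  have hZ0 : syms P0 ⊆ Z := (h10_syms_mono Finset.subset_union_left).trans
    Finset.subset_union_right
  have hP0m : IsMatch P0 := hNm.mono (hP0.trans Finset.sdiff_subset)
  have hdegC : ∀ c ∈ act M0t, l2 ≤ ((nb (C ∩ B) c ∩ Z).card : ℝ) := by
    refine h10_deg hC hl21 EC hEC Z Finset.subset_union_left hZ0 ?_
    intro e he hc
    refine Finset.mem_union_right _ (mem_syms.2 ⟨e.1, ?_⟩)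
    exact Finset.mem_union_right _ (Finset.mem_union_left _ (Finset.mem_filter.2 ⟨he, hc⟩))
  have hdegS : ∀ s ∈ act' M0t, l2 ≤ ((nb (S ∩ tr B) s ∩ X).card : ℝ) := by
    have hS' : Side S (resv (tr R) (tr U) (tr M0)) (act (tr M0t))
        (act' (tr M0t) \ syms (hotN (tr R) (tr U) η (tr N))) (syms (tr P0)) l1 l2 g x1 w := by
      have e1 : hotN (tr R) (tr U) η (tr N) = tr H := by
        ext ⟨a, b⟩
        simp only [hotN, hH, Finset.mem_filter, mem_tr, tr_tr]
        constructor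
        · rintro ⟨h1, h2⟩; exact ⟨h1, h2.symm⟩
        · rintro ⟨h1, h2⟩; exact ⟨h1, h2.symm⟩
      rw [e1, act_tr, act'_tr, syms_tr, syms_tr, ← tr_resv]
      exact hS
    have e2 : ES = (act (tr M0t)).filter fun c =>
        ((nb S c ∩ nb (resv (tr R) (tr U) (tr M0)) c ∩ syms (tr P0)).card : ℝ) < l2 := by
      rw [hES, act_tr, syms_tr, ← tr_resv]
    have h := h10_deg hS' hl21 ES e2 X ?_ ?_ ?_
    · intro s hs
      have := h s (by rw [act_tr]; exact hs)
      rwa [← tr_resv] at this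
    · rw [act'_tr, syms_tr]; exact Finset.subset_union_left
    · rw [syms_tr]; exact hX0
    · intro e he hc
      refine Finset.mem_union_right _ (mem_cols.2 ⟨e.1, ?_⟩)
      refine Finset.mem_union_right _ (Finset.mem_union_right _ (Finset.mem_filter.2 ⟨?_, ?_⟩))
      · rw [Finset.mem_sdiff] at he ⊢
        refine ⟨mem_tr'.1 he.1, fun h1 => he.2 ?_⟩
        rw [hH, hotN, Finset.mem_filter] at h1
        rw [hotN, Finset.mem_filter, tr_tr, tr_tr]
        exact ⟨he.1, h1.2.symm⟩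
      · rw [← tr_resv] at hc
        exact hc
  obtain ⟨pm, hpm, hpmm, hpc, hps⟩ := final_hall ((C ∪ tr S) ∩ B) X Z (cols P0) (syms P0) x1 w
    hX0 hZ0 hXZ (by rw [hP0m.card_cols, hP0m.card_syms])
    (by
      intro X1 hX1 hc
      have h1 := small_expand (hCs.mono (Finset.inter_subset_left : C ∩ B ⊆ C)) hκ hl2 X1 Z
        (by linarith) fun c hc => hdegC c (hXa (hX1 hc))
      refine h1.trans (Finset.card_le_card fun s hs => ?_)
      rw [Finset.mem_filter] at hs ⊢
      obtain ⟨h2, c, h3, h4⟩ := hs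
      rw [Finset.mem_inter] at h4
      exact ⟨h2, c, h3, Finset.mem_inter.2 ⟨Finset.mem_union_left _ h4.1, h4.2⟩⟩)
    (by
      intro Z1 hZ1 hc
      have h1 := small_expand (hSs.mono (Finset.inter_subset_left : S ∩ tr B ⊆ S)) hκ hl2 Z1 X
        (by linarith) fun s hs => hdegS s (hZa (hZ1 hs))
      refine h1.trans (Finset.card_le_card fun s hs => ?_)
      rw [Finset.mem_filter] at hs ⊢
      obtain ⟨h2, c, h3, h4⟩ := hs
      rw [Finset.mem_inter, mem_tr] at h4
      exact ⟨h2, c, h3, Finset.mem_inter.2 ⟨Finset.mem_union_right _ (mem_tr.2 h4.1), h4.2⟩⟩)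
    (by
      intro X1 hX1 Z1 hZ1 h1 h2
      obtain ⟨c, hc, s, hs, h3⟩ := hC.large X1 (hX1.trans hXa) Z1 hZ1 h1 h2
      rw [Finset.mem_inter] at h3
      exact ⟨c, hc, s, hs, Finset.mem_inter.2 ⟨Finset.mem_union_left _ h3.1, h3.2⟩⟩)
    (by
      intro Z1 hZ1 X1 hX1 h1 h2
      obtain ⟨s, hs, c, hc, h3⟩ := hS.large Z1 (hZ1.trans hZa) X1 hX1 h1 h2
      rw [Finset.mem_inter, mem_tr] at h3
      exact ⟨c, hc, s, hs, Finset.mem_inter.2 ⟨Finset.mem_union_right _ (mem_tr.2 h3.1), h3.2⟩⟩)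
    (by rw [hP0m.card_cols]; linarith)
  have hpmF : ∀ e ∈ pm, e ∈ C ∪ tr S ∧ e ∈ R ∧ e ∉ U ∧ e ∉ M0 := by
    intro e he
    have h1 := Finset.mem_inter.1 (Finset.mem_inter.1 (hpm he)).1
    have h2 := h1.2
    rw [hB, resv, Finset.mem_sdiff, Finset.mem_union] at h2
    exact ⟨h1.1, h2.1, fun h => h2.2 (Or.inl h), fun h => h2.2 (Or.inr h)⟩
  have hcNP : cols (N \ P) = cols N \ cols P := h10_cols_sdiff hNm hPN
  have hsNP : syms (N \ P) = syms N \ syms P := h10_syms_sdiff hNm hPN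
  have hm1 : IsMatch ((N \ P) ∪ pm) := by
    refine h10_match_union (hNm.mono Finset.sdiff_subset) hpmm ?_ ?_
    · rw [hcNP, hpc, Finset.disjoint_left]
      intro c hc h
      rw [Finset.mem_sdiff] at hc
      rcases Finset.mem_union.1 h with h | h
      · exact (Finset.mem_sdiff.1 h).2 hc.1
      · exact hc.2 h
    · rw [hsNP, hps, Finset.disjoint_left]
      intro c hc h
      rw [Finset.mem_sdiff] at hc
      rcases Finset.mem_union.1 h with h | h
      · exact (Finset.mem_sdiff.1 h).2 hc.1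
      · exact hc.2 h
  have hcu : ∀ G' H' : Gr n, cols (G' ∪ H') = cols G' ∪ cols H' := fun G' H' =>
    Finset.image_union _ _
  have hsu : ∀ G' H' : Gr n, syms (G' ∪ H') = syms G' ∪ syms H' := fun G' H' =>
    Finset.image_union _ _
  have hc2 : cols ((N \ P) ∪ pm) = act M0t := by
    rw [hcu, hcNP, hpc]
    ext c
    simp only [hX, Finset.mem_union, Finset.mem_sdiff]
    constructor
    · rintro (h | h | h)
      · exact hNa h.1
      · exact h.1
      · exact hNa (hPcN h)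
    · intro h
      by_cases h1 : c ∈ cols P
      · exact Or.inr (Or.inr h1)
      · by_cases h2 : c ∈ cols N
        · exact Or.inl ⟨h2, h1⟩
        · exact Or.inr (Or.inl ⟨h, h2⟩)
  have hs2 : syms ((N \ P) ∪ pm) = act' M0t := by
    rw [hsu, hsNP, hps]
    ext c
    simp only [hZ, Finset.mem_union, Finset.mem_sdiff]
    constructor
    · rintro (h | h | h)
      · exact hNa' h.1
      · exact h.1
      · exact hNa' (hPsN h)
    · intro h
      by_cases h1 : c ∈ syms P
      · exact Or.inr (Or.inr h1)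
      · by_cases h2 : c ∈ syms N
        · exact Or.inl ⟨h2, h1⟩
        · exact Or.inr (Or.inl ⟨h, h2⟩)
  have hmem : ∀ e ∈ (M0t ∪ ((N \ P) ∪ pm)) \ M0t, e ∈ N ∨ e ∈ pm := by
    intro e he
    rw [Finset.mem_sdiff, Finset.mem_union, Finset.mem_union] at he
    rcases he.1 with h | h | h
    · exact absurd h he.2
    · exact Or.inl (Finset.mem_sdiff.1 h).1
    · exact Or.inr h
  have hmemR : ∀ e ∈ ((M0t ∪ ((N \ P) ∪ pm)) ∩ R) \ M0t, e ∈ pm := by
    intro e he
    rw [Finset.mem_sdiff, Finset.mem_inter] at he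
    rcases hmem e (Finset.mem_sdiff.2 ⟨he.1.1, he.2⟩) with h | h
    · exact absurd he.1.2 (hNfree e h).2.2.1
    · exact h
  refine ⟨M0t ∪ ((N \ P) ∪ pm), ⟨⟨?_, ?_, ?_⟩, ?_, ?_, ?_, ?_, ?_, ?_, ?_⟩⟩
  · refine h10_match_union hM0t hm1 ?_ ?_
    · rw [hc2, act]; exact Finset.disjoint_sdiff
    · rw [hs2, act']; exact Finset.disjoint_sdiff
  · intro c
    rw [hcu, hc2, act, Finset.mem_union, Finset.mem_sdiff]
    by_cases h : c ∈ cols M0t
    · exact Or.inl h
    · exact Or.inr ⟨Finset.mem_univ _, h⟩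
  · intro c
    rw [hsu, hs2, act', Finset.mem_union, Finset.mem_sdiff]
    by_cases h : c ∈ syms M0t
    · exact Or.inl h
    · exact Or.inr ⟨Finset.mem_univ _, h⟩
  · intro e he
    rw [Finset.mem_union, Finset.mem_union] at he
    rw [Finset.mem_union]
    rcases he with h | h | h
    · exact Or.inl (hM0A h)
    · exact Or.inl (hNfree e (Finset.mem_sdiff.1 h).1).1
    · exact Or.inr (hpmF e h).1
  · exact Finset.subset_union_left
  · rw [Finset.disjoint_left]
    intro e he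
    rcases hmem e he with h | h
    · exact (hNfree e h).2.1
    · exact (hpmF e h).2.2.1
  · rw [Finset.disjoint_left]
    intro e he
    rcases hmem e he with h | h
    · exact (hNfree e h).2.2.2
    · exact (hpmF e h).2.2.2
  · have h1 : (M0t ∪ ((N \ P) ∪ pm)) ∩ R ⊆ M0t ∪ pm := by
      intro e he
      by_cases h : e ∈ M0t
      · exact Finset.mem_union_left _ h
      · exact Finset.mem_union_right _ (hmemR e (Finset.mem_sdiff.2 ⟨he, h⟩))
    have h2 : ((M0t ∪ ((N \ P) ∪ pm)) ∩ R).card ≤ M0t.card + pm.card :=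
      (Finset.card_le_card h1).trans (Finset.card_union_le _ _)
    have h3 : pm.card = X.card := by rw [← hpc, hpmm.card_cols]
    rw [h3] at h2
    have h4 : (((M0t ∪ ((N \ P) ∪ pm)) ∩ R).card : ℝ) ≤ M0t.card + X.card := by exact_mod_cast h2
    linarith
  · intro e he hh
    have h1 := hmemR e he
    have h2 : e.1 ∈ X := by rw [← hpc]; exact mem_cols.2 ⟨e.2, h1⟩
    rcases Finset.mem_union.1 h2 with h3 | h3
    · by_contra h4
      rw [Finset.mem_sdiff] at h3
      exact h3.2 (hcov e.1 h3.1 hh h4)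
    · obtain ⟨s, hs⟩ := mem_cols.1 h3
      have h5 := Finset.mem_sdiff.1 (hPN' hs)
      refine absurd ?_ h5.2
      rw [hH, hotN, Finset.mem_filter]
      exact ⟨h5.1, Or.inl hh⟩
  · intro e he hh
    have h1 := hmemR e he
    have h2 : e.2 ∈ Z := by rw [← hps]; exact mem_syms.2 ⟨e.1, h1⟩
    rcases Finset.mem_union.1 h2 with h3 | h3
    · by_contra h4
      rw [Finset.mem_sdiff] at h3
      exact h3.2 (hcov' e.2 h3.1 hh h4)
    · obtain ⟨s, hs⟩ := mem_syms.1 h3
      have h5 := Finset.mem_sdiff.1 (hPN' hs)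
      refine absurd ?_ h5.2
      rw [hH, hotN, Finset.mem_filter]
      exact ⟨h5.1, Or.inr hh⟩

end Pool.Agent.Helper40.LS
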