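import Pool.Agent.Helper40.LS.G1
import Pool.Agent.Helper40.LS.F1
import Pool.Agent.Helper15.LS.F2
import Pool.Agent.Helper20.LS.F4
import Pool.Agent.Helper40.LS.H10

/-! Project LS, assembly 2: for a good graph `A` the row is completed by good graphs `C`, `S`. -/

set_option autoImplicit false
open Classical Filter Topology

namespace Pool.Agent.Helper40.LS

open Helper20.LS (inv_facts)

theorem Par.rho {δ ε dA h z0 dC ζ : ℝ} (P : Par δ ε dA h z0 dC ζ) : 0 < δ / 8 ∧ δ / 8 < 1 / 8 :=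
  ⟨by linarith [P.δ0], by linarith [P.δ1]⟩

theorem Par.hsmall {δ ε dA h z0 dC ζ : ℝ} (P : Par δ ε dA h z0 dC ζ) : h ≤ 1 / 1280000 := by
  have h1 := P.h2
  have h2 := P.rho
  nlinarith

theorem Par.z0small {δ ε dA h z0 dC ζ : ℝ} (P : Par δ ε dA h z0 dC ζ) : z0 ≤ h ^ 2 := by
  have h1 := P.z1
  have h2 : 1 ≤ Real.exp (8 / δ) := Real.one_le_exp (by have := P.δ0; positivity)
  nlinarith [P.zpos]

theorem card_act {n : ℕ} {M : Gr n} (h : IsMatch M) : (act M).card + M.card = n := by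
  have h1 := Finset.card_sdiff_add_card_eq_card (Finset.subset_univ (cols M))
  rw [← act, h.card_cols, Finset.card_univ, Fintype.card_fin] at h1
  exact h1

theorem card_act' {n : ℕ} {M : Gr n} (h : IsMatch M) : (act' M).card + M.card = n := by
  have h1 := Finset.card_sdiff_add_card_eq_card (Finset.subset_univ (syms M))
  rw [← act', h.card_syms, Finset.card_univ, Fintype.card_fin] at h1
  exact h1

/-- cells of a matching which touch hot vertices -/
theorem card_hotN {n : ℕ} {R U N : Gr n} {η : ℝ} (h : IsMatch N) :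
    (hotN R U η N).card ≤ (hot R U η).card + (hot (tr R) (tr U) η).card := by
  have h1 : hotN R U η N ⊆ (N.filter fun e => e.1 ∈ hot R U η) ∪
      (N.filter fun e => e.2 ∈ hot (tr R) (tr U) η) := by
    intro e he
    rw [hotN, Finset.mem_filter] at he
    rw [Finset.mem_union, Finset.mem_filter, Finset.mem_filter]
    rcases he.2 with h2 | h2
    · exact Or.inl ⟨he.1, h2⟩
    · exact Or.inr ⟨he.1, h2⟩
  refine (Finset.card_le_card h1).trans ((Finset.card_union_le _ _).trans (Nat.add_le_add ?_ ?_))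
  · refine Finset.card_le_card_of_injOn Prod.fst (fun e he => ?_) (fun e he f hf hef => ?_)
    · exact (Finset.mem_filter.1 (Finset.mem_coe.1 he)).2
    · exact h.1 e (Finset.mem_filter.1 (Finset.mem_coe.1 he)).1 f
        (Finset.mem_filter.1 (Finset.mem_coe.1 hf)).1 hef
  · refine Finset.card_le_card_of_injOn Prod.snd (fun e he => ?_) (fun e he f hf hef => ?_)
    · exact (Finset.mem_filter.1 (Finset.mem_coe.1 he)).2
    · exact h.2 e (Finset.mem_filter.1 (Finset.mem_coe.1 he)).1 f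
        (Finset.mem_filter.1 (Finset.mem_coe.1 hf)).1 hef

/-- the box condition fails -/
def BoxFail {n : ℕ} (A W : Gr n) (Act Act' : Finset (Fin n)) (c0 : ℝ) : Prop :=
  ∃ X ⊆ Act, ∃ Z ⊆ Act', c0 ≤ ((W ∩ box X Z).card : ℝ) ∧ ∀ c ∈ X, ∀ s ∈ Z, (c, s) ∉ A ∩ W

/-- LS-G2: the deterministic part of a row -/
theorem det_row {δ ε dA h z0 dC ζ : ℝ} (P : Par δ ε dA h z0 dC ζ) :
    ∀ᶠ n : ℕ in atTop, ∀ (R : Gr n) (σ : Fin n → Stat n) (M0 : Fin n → Gr n) (t : Fin n)
      (s : St n), Reserve R (δ / 8) ζ → Pre σ M0 ζ → ((t : ℕ) : ℝ) ≤ (1 - δ) * n →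
      Inv δ z0 h R M0 t s → Psi δ t s < Real.exp (h * n / 16) →
      ∀ A : Gr n, SmallG A (δ / 4) dA (Real.log n) → M0 t ⊆ A →
        ¬ BoxFail A (free R s.1 (allM M0)) (act (M0 t)) (act' (M0 t)) (δ * z0 / 4 * (n : ℝ) ^ 2) →
      ∃ Al Y0 Al' X0 : Finset (Fin n),
        (∀ c ∈ act (M0 t), ((nb R c \ (nb (resv R s.1 (allM M0)) c ∩ Al)).card : ℝ) ≤ 4 * h * n) ∧
        (∀ c ∈ act' (M0 t), ((nb (tr R) c \
          (nb (tr (resv R s.1 (allM M0))) c ∩ Al')).card : ℝ) ≤ 4 * h * n) ∧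
        Samp (resv R s.1 (allM M0)) Y0 (δ / 8) (tau δ) (2 * zz δ z0 n t * n) ∧
        Samp (tr (resv R s.1 (allM M0))) X0 (δ / 8) (tau δ) (2 * zz δ z0 n t * n) ∧
        ∀ C S : Gr n, Good δ ε dA z0 dC ((A, C, S) : Row n) →
          Side C (resv R s.1 (allM M0)) (act (M0 t)) Al Y0 (bb δ ε n / 2) (l2 δ ε z0 n) (gg ζ n)
            (dC / 2 * n) (zz δ z0 n t / 25 * n) →
          Side S (tr (resv R s.1 (allM M0))) (act' (M0 t)) Al' X0 (bb δ ε n / 2) (l2 δ ε z0 n)
            (gg ζ n) (dC / 2 * n) (zz δ z0 n t / 25 * n) →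
          ∃ M, RowOut R s.1 (allM M0) (M0 t) A C S (act (M0 t)) (act' (M0 t)) h (ll δ n)
            (4 * zz δ z0 n t * n) M := by
  have hlog : ∀ᶠ n : ℕ in atTop, 1 ≤ Real.log n :=
    (Real.tendsto_log_atTop.comp tendsto_natCast_atTop_atTop).eventually_ge_atTop 1
  have hbig : ∀ᶠ n : ℕ in atTop, 100 / z0 ≤ (n : ℝ) :=
    tendsto_natCast_atTop_atTop.eventually_ge_atTop _
  filter_upwards [inv_facts P, samp_step P, hlog, hbig] with n hfacts hsamp hL hn R σ M0 t s hR hPre
    ht hI hPsi A hA hM0A hbox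
  obtain ⟨⟨hz0, hz1⟩, hhot, hhot', hM0, hd1, hd2, hr1, hr2, hf1, hf2⟩ :=
    hfacts R σ M0 t s hR hPre ht hI hPsi
  set z := zz δ z0 n t with hz
  set U := s.1 with hUdef
  set B := resv R U (allM M0) with hB
  have hδ := P.δ0
  have hδ1 := P.δ1
  have hh := P.h0
  have hhs := P.hsmall
  have hzp := P.zpos
  have hζ := P.ζ0
  have hζ1 := P.ζ1
  have hζ2 := P.ζ2
  have hζ4 := P.ζ4
  have hn0 : (0 : ℝ) < n := lt_of_lt_of_le (by positivity) hn
  have hzn : 100 ≤ z0 * n := by
    rw [div_le_iff₀ hzp] at hn; linarith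
  have hzn2 : z0 * n ≤ z * n := mul_le_mul_of_nonneg_right hz0 hn0.le
  have hζz : ζ * n ≤ z0 * n / 100 := by nlinarith
  have hsz := hPre.sz t
  have hmat := hPre.mat t
  have hzpos : 0 < z := lt_of_lt_of_le hzp hz0
  -- the defect
  obtain ⟨d, hd⟩ : ∃ d : ℕ, (d : ℝ) ≤ z * n ∧ z * n - 1 < d :=
    ⟨⌊z * n⌋₊, Nat.floor_le (by positivity), by
      have := Nat.lt_floor_add_one (z * n); linarith⟩
  have hrow : 7 / 8 * δ * n ≤ (n : ℝ) - ((t : ℕ) : ℝ) - δ / 8 * n := by nlinarith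
  have hnum : δ * z0 / 4 * (n : ℝ) ^ 2 ≤ ((d : ℝ) - (M0 t).card) * (n - ((t : ℕ) : ℝ) - δ / 8 * n) -
      3 * ζ * n ^ 2 - (U ∩ R).card := by
    have hu := hI.use
    rw [← hz, ← hUdef] at hu
    have h1 : z * n - 1 - ζ * n ≤ (d : ℝ) - (M0 t).card := by linarith
    have h2 : 0 ≤ z * n - 1 - ζ * n := by nlinarith
    have h3 : (z * n - 1 - ζ * n) * (7 / 8 * δ * n) ≤
        ((d : ℝ) - (M0 t).card) * (n - ((t : ℕ) : ℝ) - δ / 8 * n) := by
      have h4 : 0 ≤ 7 / 8 * δ * (n : ℝ) := by positivity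
      exact mul_le_mul h1 hrow h4 (by linarith)
    have h5 : δ * z0 / 4 * (n : ℝ) ^ 2 ≤
        (z * n - 1 - ζ * n) * (7 / 8 * δ * n) - 3 * ζ * n ^ 2 - δ / 2 * z * n ^ 2 := by
      have e1 : (z * n - 1 - ζ * n) * (7 / 8 * δ * n) - 3 * ζ * n ^ 2 - δ / 2 * z * n ^ 2
          = 3 / 8 * δ * (z * n) * n - 7 / 8 * δ * n - 7 / 8 * δ * (ζ * n) * n -
            3 * ζ * n ^ 2 := by ring
      rw [e1]
      have e2 : δ * (z0 * n) * n ≤ δ * (z * n) * n :=
        mul_le_mul_of_nonneg_right (mul_le_mul_of_nonneg_left hzn2 hδ.le) hn0.le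
      have e3 : δ * (ζ * n) * n ≤ δ * (z0 * n / 100) * n :=
        mul_le_mul_of_nonneg_right (mul_le_mul_of_nonneg_left hζz hδ.le) hn0.le
      have e4 : ζ * (n : ℝ) ^ 2 ≤ δ * z0 / 64 * n ^ 2 :=
        mul_le_mul_of_nonneg_right hζ2 (by positivity)
      have e5 : δ * n * 100 ≤ δ * n * (z0 * n) := mul_le_mul_of_nonneg_left hzn (by positivity)
      nlinarith
    linarith
  have hκ : 0 < δ / 4 * Real.log n := by positivity
  obtain ⟨N, hN, hNm, hcov, hcov', hdN⟩ := stage1 (n := n) (t := (t : ℕ)) (d := d) (R := R) (U := U)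
    (M0 := allM M0) (M0t := M0 t) (A := A) (ρ := δ / 8) (ζ := ζ) (κ := δ / 4) (dA := dA)
    (L := Real.log n) (l := ll δ n) (η := h) (c0 := δ * z0 / 4 * (n : ℝ) ^ 2) hζ.le hR hI.reg
    hI.reg' hM0 hmat hA hκ (by rw [ll]; linarith) (by nlinarith [P.h3]) (by nlinarith [P.h3])
    (by
      intro X hX Z hZ hc
      by_contra hcon
      refine hbox ⟨X, hX, Z, hZ, hc, fun c hc s hs hcs => hcon ⟨c, hc, s, hs, hcs⟩⟩)
    (by
      have : 0 ≤ 7 / 8 * δ * (n : ℝ) := by positivity
      linarith) hnum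
  -- the non-hot part
  have hN'm : IsMatch (N \ hotN R U h N) := hNm.mono Finset.sdiff_subset
  have hhN := card_hotN (R := R) (U := U) (η := h) hNm
  have hhN' : ((hotN R U h N).card : ℝ) ≤ 2 * h * n := by
    have : ((hotN R U h N).card : ℝ) ≤ (hot R U h).card + (hot (tr R) (tr U) h).card := by
      exact_mod_cast hhN
    linarith
  have hact := card_act hmat
  have hN'card : (1 - ζ - z - 2 * h) * n ≤ ((N \ hotN R U h N).card : ℝ) := by
    have h1 : ((N \ hotN R U h N).card : ℝ) + (hotN R U h N).card = N.card := by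
      exact_mod_cast Finset.card_sdiff_add_card_eq_card
        (show hotN R U h N ⊆ N from Finset.filter_subset _ _)
    have h2 : ((act (M0 t)).card : ℝ) + (M0 t).card = n := by exact_mod_cast hact
    have h3 : ((act (M0 t)).card : ℝ) ≤ N.card + d := by exact_mod_cast hdN
    nlinarith
  have hcod : ∀ c c', c ≠ c' → ((nb B c ∩ nb B c').card : ℝ) ≤ ((δ / 8) ^ 2 + ζ) * n := by
    intro c c' hcc
    refine le_trans ?_ (hR.cod c c' hcc)
    have : nb B c ∩ nb B c' ⊆ nb R c ∩ nb R c' := by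
      intro v hv
      rw [Finset.mem_inter, mem_nb, mem_nb] at hv ⊢
      rw [hB, resv, Finset.mem_sdiff, Finset.mem_sdiff] at hv
      exact ⟨hv.1.1, hv.2.1⟩
    exact_mod_cast Finset.card_le_card this
  have hcod' : ∀ c c', c ≠ c' → ((nb (tr B) c ∩ nb (tr B) c').card : ℝ) ≤
      ((δ / 8) ^ 2 + ζ) * n := by
    intro c c' hcc
    refine le_trans ?_ (hR.cod' c c' hcc)
    have : nb (tr B) c ∩ nb (tr B) c' ⊆ nb (tr R) c ∩ nb (tr R) c' := by
      intro v hv
      rw [Finset.mem_inter, mem_nb, mem_nb, mem_tr, mem_tr] at hv ⊢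
      rw [hB, resv, Finset.mem_sdiff, Finset.mem_sdiff] at hv
      exact ⟨hv.1.1, hv.2.1⟩
    exact_mod_cast Finset.card_le_card this
  obtain ⟨P0, hP0, hS1, hS2, hP0c⟩ := hsamp B (N \ hotN R U h N) z hz0 hz1 hN'm hd1 hd2 hcod hcod'
    hN'card
  have hP0m : IsMatch P0 := hN'm.mono hP0
  refine ⟨act' (M0 t) \ syms (hotN R U h N), syms P0, act (M0 t) \ cols (hotN R U h N), cols P0,
    ?_, ?_, hS1, hS2, ?_⟩
  · intro c hc
    have h1 : nb R c \ (nb B c ∩ (act' (M0 t) \ syms (hotN R U h N))) ⊆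
        (nb R c \ nb B c) ∪ (syms (M0 t) ∪ syms (hotN R U h N)) := by
      intro v hv
      simp only [Finset.mem_sdiff, Finset.mem_inter, Finset.mem_union, act', Finset.mem_univ,
        true_and] at hv ⊢
      tauto
    have h2 := (Finset.card_le_card h1).trans ((Finset.card_union_le _ _).trans
      (Nat.add_le_add_left (Finset.card_union_le _ _) _))
    have hhm : IsMatch (hotN R U h N) := hNm.mono (Finset.filter_subset _ _)
    rw [hmat.card_syms, hhm.card_syms] at h2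
    have h3 : ((nb R c \ (nb B c ∩ (act' (M0 t) \ syms (hotN R U h N)))).card : ℝ) ≤
        (nb R c \ nb B c).card + ((M0 t).card + (hotN R U h N).card) := by exact_mod_cast h2
    have h4 := hr1 c
    nlinarith
  · intro c hc
    have h1 : nb (tr R) c \ (nb (tr B) c ∩ (act (M0 t) \ cols (hotN R U h N))) ⊆
        (nb (tr R) c \ nb (tr B) c) ∪ (cols (M0 t) ∪ cols (hotN R U h N)) := by
      intro v hv
      simp only [Finset.mem_sdiff, Finset.mem_inter, Finset.mem_union, act, Finset.mem_univ,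
        true_and] at hv ⊢
      tauto
    have h2 := (Finset.card_le_card h1).trans ((Finset.card_union_le _ _).trans
      (Nat.add_le_add_left (Finset.card_union_le _ _) _))
    have hhm : IsMatch (hotN R U h N) := hNm.mono (Finset.filter_subset _ _)
    rw [hmat.card_cols, hhm.card_cols] at h2
    have h3 : ((nb (tr R) c \ (nb (tr B) c ∩ (act (M0 t) \ cols (hotN R U h N)))).card : ℝ) ≤
        (nb (tr R) c \ nb (tr B) c).card + ((M0 t).card + (hotN R U h N).card) := by
      exact_mod_cast h2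
    have h4 := hr2 c
    nlinarith
  · intro C S hG hSC hSS
    have hL0 : 0 < Real.log n := by linarith
    have hlogne : Real.log n ≠ 0 := hL0.ne'
    have hgD : 2 * gg ζ n * (8 * Real.log n) = ζ * n := by
      rw [gg]; field_simp; ring
    have hg0 : 0 ≤ gg ζ n := by rw [gg]; positivity
    have htau : 0 ≤ tau δ ∧ tau δ ≤ 1 / 1000 := by
      have h1 := P.rho
      rw [tau]
      constructor
      · positivity
      · nlinarith
    have hP0u : (P0.card : ℝ) ≤ (1 + tau δ) * (2 * z * n) := by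
      have := hS1.card
      rw [hP0m.card_syms] at this
      exact this
    have hz0s : z0 ≤ 1 / 4 := by
      have := P.z0small
      nlinarith
    have hε := P.ε0
    refine stage2 (n := n) (R := R) (U := U) (M0 := allM M0) (M0t := M0 t) (A := A) (C := C)
      (S := S) (N := N) (P0 := P0) (η := h) (l := ll δ n) (K := 4 * z * n)
      (l1 := bb δ ε n / 2) (l2 := l2 δ ε z0 n) (g := gg ζ n) (x1 := dC / 2 * n)
      (w := z / 25 * n) (κ := ε * (δ / 8) * z0 / 32) (dd := dC) (L := Real.log n)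
      (Dm := 8 * Real.log n) (d := d) hmat hM0A hN hNm hcov hcov' hdN hP0 hSC hSS hG.sC hG.sS
      (by positivity) (by rw [l2]; nlinarith) ?_ (by linarith) hG.dC hG.dS (by positivity) hg0
      ?_ ?_
    · rw [l2, bb]
      have : ε * (δ / 8) * z0 / 16 * Real.log n = (ε * (δ / 8) * Real.log n) * (z0 / 16) := by ring
      rw [this]
      have h2 : ε * (δ / 8) / 32 * Real.log n / 2 = (ε * (δ / 8) * Real.log n) * (1 / 64) := by ring
      rw [h2]
      exact mul_le_mul_of_nonneg_left (by linarith) (by positivity)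
    · rw [hgD]
      have h1 : tau δ * (2 * z * n) ≤ 1 / 1000 * (2 * z * n) :=
        mul_le_mul_of_nonneg_right htau.2 (by positivity)
      nlinarith
    · rw [hgD]
      have h1 : tau δ * (2 * z * n) ≤ 1 / 1000 * (2 * z * n) :=
        mul_le_mul_of_nonneg_right htau.2 (by positivity)
      nlinarith

end Pool.Agent.Helper40.LS
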