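import Pool.Agent.Helper29.LS.Q1

/-! LS-Q9: empty boxes. -/

set_option autoImplicit false
open Classical Filter Topology

namespace Pool.Agent.Helper40.LS

/-- the density of `A` is a probability for large `n` -/
theorem h71_pa_bounds {ε : ℝ} (h0 : 0 < ε) :
    ∀ᶠ n : ℕ in atTop, 0 ≤ pa ε n ∧ pa ε n ≤ 1 := by
  have h : Tendsto (fun n : ℕ => pa ε n) atTop (𝓝 0) := by
    have h1 : Tendsto (fun x : ℝ => Real.log x / x) atTop (𝓝 0) := by
      have := Real.isLittleO_log_id_atTop.tendsto_div_nhds_zero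
      simpa using this
    have h2 := (h1.comp tendsto_natCast_atTop_atTop).const_mul (2 + ε / 2)
    rw [mul_zero] at h2
    refine h2.congr fun n => ?_
    simp only [Function.comp, pa]
    ring
  have h3 : ∀ᶠ n : ℕ in atTop, pa ε n ≤ 1 := h.eventually (ge_mem_nhds (by norm_num))
  filter_upwards [h3, eventually_ge_atTop 1] with n hn hn1
  refine ⟨?_, hn⟩
  have h4 : 0 ≤ Real.log n := Real.log_natCast_nonneg n
  unfold pa
  positivity

/-- union bound over all boxes -/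
theorem h71_box_union {n : ℕ} {p : ℝ} (h0 : 0 ≤ p) (h1 : p ≤ 1) (W : Gr n) (Act Act' : Finset (Fin n))
    (a : ℝ) :
    Ex p (fun A => ind (∃ X ⊆ Act, ∃ Z ⊆ Act', a ≤ ((W ∩ box X Z).card : ℝ) ∧
        ∀ c ∈ X, ∀ s ∈ Z, (c, s) ∉ A ∩ W)) ≤ 2 ^ n * (2 ^ n * Real.exp (-(p * a))) := by
  have hone : ∀ X Z : Finset (Fin n), Ex p (fun A => ind (a ≤ ((W ∩ box X Z).card : ℝ) ∧
      ∀ c ∈ X, ∀ s ∈ Z, (c, s) ∉ A ∩ W)) ≤ Real.exp (-(p * a)) := by
    intro X Z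
    by_cases ha : a ≤ ((W ∩ box X Z).card : ℝ)
    · have h2 : Ex p (fun A => ind (a ≤ ((W ∩ box X Z).card : ℝ) ∧
          ∀ c ∈ X, ∀ s ∈ Z, (c, s) ∉ A ∩ W)) ≤ FL.Pr p (fun S : Gr n => S ∩ (W ∩ box X Z) = ∅) := by
        rw [← Ex_ind]
        refine Ex_mono h0 h1 fun A => ind_mono fun hA => ?_
        rw [Finset.eq_empty_iff_forall_notMem]
        rintro ⟨c, s⟩ hcs
        simp only [Finset.mem_inter, mem_box] at hcs
        exact hA.2 c hcs.2.2.1 s hcs.2.2.2 (Finset.mem_inter.2 ⟨hcs.1, hcs.2.1⟩)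
      refine (h2.trans (tail_empty h0 h1 _)).trans (Real.exp_le_exp.2 ?_)
      have := mul_le_mul_of_nonneg_left ha h0
      linarith
    · have h2 : Ex p (fun A => ind (a ≤ ((W ∩ box X Z).card : ℝ) ∧
          ∀ c ∈ X, ∀ s ∈ Z, (c, s) ∉ A ∩ W)) = 0 := by
        unfold Ex
        refine Finset.sum_eq_zero fun A _ => mul_eq_zero_of_right _ ?_
        exact ind_false fun h => ha h.1
      rw [h2]
      exact (Real.exp_pos _).le
  have hstep : Ex p (fun A => ind (∃ X ⊆ Act, ∃ Z ⊆ Act', a ≤ ((W ∩ box X Z).card : ℝ) ∧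
        ∀ c ∈ X, ∀ s ∈ Z, (c, s) ∉ A ∩ W)) ≤
      Ex p (fun A => ∑ X ∈ (Finset.univ : Finset (Finset (Fin n))),
        ∑ Z ∈ (Finset.univ : Finset (Finset (Fin n))),
        ind (a ≤ ((W ∩ box X Z).card : ℝ) ∧ ∀ c ∈ X, ∀ s ∈ Z, (c, s) ∉ A ∩ W)) := by
    refine Ex_mono h0 h1 fun A => ?_
    refine (ind_mono (Q := ∃ X ∈ (Finset.univ : Finset (Finset (Fin n))),
      ∃ Z ∈ (Finset.univ : Finset (Finset (Fin n))), a ≤ ((W ∩ box X Z).card : ℝ) ∧
        ∀ c ∈ X, ∀ s ∈ Z, (c, s) ∉ A ∩ W) ?_).trans ?_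
    · rintro ⟨X, -, Z, -, h⟩
      exact ⟨X, Finset.mem_univ _, Z, Finset.mem_univ _, h⟩
    · refine (ind_exists_le _ _).trans (Finset.sum_le_sum fun X _ => ?_)
      exact ind_exists_le _ _
  refine hstep.trans ?_
  rw [Ex_sum]
  have hcard : ((Finset.univ : Finset (Finset (Fin n))).card : ℝ) = 2 ^ n := by
    rw [Finset.card_univ, Fintype.card_finset, Fintype.card_fin]; push_cast; rfl
  calc ∑ X ∈ (Finset.univ : Finset (Finset (Fin n))), Ex p (fun A =>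
        ∑ Z ∈ (Finset.univ : Finset (Finset (Fin n))),
        ind (a ≤ ((W ∩ box X Z).card : ℝ) ∧ ∀ c ∈ X, ∀ s ∈ Z, (c, s) ∉ A ∩ W))
      ≤ ∑ X ∈ (Finset.univ : Finset (Finset (Fin n))), (2 ^ n * Real.exp (-(p * a))) := by
        refine Finset.sum_le_sum fun X _ => ?_
        rw [Ex_sum]
        refine (Finset.sum_le_sum fun Z _ => hone X Z).trans (le_of_eq ?_)
        rw [Finset.sum_const, nsmul_eq_mul, hcard]
    _ = 2 ^ n * (2 ^ n * Real.exp (-(p * a))) := by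
        rw [Finset.sum_const, nsmul_eq_mul, hcard]

/-- the numerical estimate -/
theorem h71_box_num {δ ε z0 : ℝ} (hδ : 0 < δ) (hε : 0 < ε) (hz : 0 < z0) :
    ∀ᶠ n : ℕ in atTop, (2 : ℝ) ^ n * (2 ^ n * Real.exp (-(pa ε n * (δ * z0 / 4 * (n : ℝ) ^ 2))))
      ≤ (n : ℝ) ^ (-(3 : ℝ)) := by
  have hlog : Tendsto (fun n : ℕ => Real.log n) atTop atTop :=
    Real.tendsto_log_atTop.comp tendsto_natCast_atTop_atTop
  have h1 : ∀ᶠ n : ℕ in atTop, 8 / (δ * z0) * 2 ≤ Real.log n := hlog.eventually_ge_atTop _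
  have h2 : Tendsto (fun n : ℕ => (n : ℝ)) atTop atTop := tendsto_natCast_atTop_atTop
  have h3 : ∀ᶠ n : ℕ in atTop, 24 / (δ * z0) ≤ (n : ℝ) := h2.eventually_ge_atTop _
  filter_upwards [h1, h3, eventually_ge_atTop 1] with n hn1 hn3 hn
  have hn0 : (0 : ℝ) < n := by exact_mod_cast hn
  have hdz : 0 < δ * z0 := mul_pos hδ hz
  have hL : 0 ≤ Real.log n := Real.log_natCast_nonneg n
  have e1 : (2 : ℝ) ^ n = Real.exp (Real.log 2 * n) := by
    rw [Real.exp_mul, Real.exp_log (by norm_num), Real.rpow_natCast]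
  have e2 : (n : ℝ) ^ (-(3 : ℝ)) = Real.exp (Real.log n * (-3)) := by
    rw [Real.rpow_def_of_pos hn0]
  rw [e1, e2, ← Real.exp_add, ← Real.exp_add]
  refine Real.exp_le_exp.2 ?_
  have e3 : pa ε n * (δ * z0 / 4 * (n : ℝ) ^ 2) = (2 + ε / 2) * (δ * z0 / 4) * (n * Real.log n) := by
    unfold pa
    field_simp
  rw [e3]
  have h5 : Real.log 2 ≤ 1 := by
    have := Real.log_two_lt_d9; linarith
  have h6 : 0 ≤ (n : ℝ) * Real.log n := mul_nonneg hn0.le hL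
  have h7 : 2 * (δ * z0 / 4) * (n * Real.log n) ≤ (2 + ε / 2) * (δ * z0 / 4) * (n * Real.log n) := by
    refine mul_le_mul_of_nonneg_right ?_ h6
    refine mul_le_mul_of_nonneg_right ?_ (by positivity)
    linarith
  have h8 : 16 ≤ δ * z0 * Real.log n := by
    have := mul_le_mul_of_nonneg_left hn1 hdz.le
    have e : δ * z0 * (8 / (δ * z0) * 2) = 16 := by field_simp; norm_num
    linarith
  have h9 : 24 ≤ δ * z0 * n := by
    have := mul_le_mul_of_nonneg_left hn3 hdz.le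
    have e : δ * z0 * (24 / (δ * z0)) = 24 := by field_simp
    linarith
  have h10 : 16 * (n : ℝ) ≤ δ * z0 * (n * Real.log n) := by
    have := mul_le_mul_of_nonneg_right h8 hn0.le
    linarith
  have h11 : 24 * Real.log n ≤ δ * z0 * (n * Real.log n) := by
    have := mul_le_mul_of_nonneg_right h9 hL
    linarith
  have h12 : Real.log 2 * n ≤ n := by nlinarith
  linarith

/-- LS-Q9: empty boxes -/
theorem box_fail {δ ε dA h z0 dC ζ : ℝ} (P : Par δ ε dA h z0 dC ζ) :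
    ∀ᶠ n : ℕ in atTop, ∀ (W Q : Gr n) (Act Act' B B' : Finset (Fin n)),
      Disjoint Act B → Disjoint Act' B' →
      Ex (pa ε n) (fun A => ind (A ∩ touch B B' = Q) *
        ind (∃ X ⊆ Act, ∃ Z ⊆ Act', δ * z0 / 4 * (n : ℝ) ^ 2 ≤ ((W ∩ box X Z).card : ℝ) ∧
          ∀ c ∈ X, ∀ s ∈ Z, (c, s) ∉ A ∩ W)) ≤
      (n : ℝ) ^ (-(3 : ℝ)) * Ex (pa ε n) (fun A => ind (A ∩ touch B B' = Q)) := by
  filter_upwards [h71_pa_bounds P.ε0, h71_box_num P.δ0 P.ε0 P.zpos] with n hp hnum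
  intro W Q Act Act' B B' hB hB'
  obtain ⟨h0, h1⟩ := hp
  set g : Gr n → ℝ := fun A => ind (∃ X ⊆ Act, ∃ Z ⊆ Act',
    δ * z0 / 4 * (n : ℝ) ^ 2 ≤ ((W ∩ box X Z).card : ℝ) ∧
          ∀ c ∈ X, ∀ s ∈ Z, (c, s) ∉ A ∩ W) with hg
  have key : ∀ A : Gr n, g (A \ touch B B') = g A := by
    intro A
    refine ind_congr ?_
    have hmem : ∀ X ⊆ Act, ∀ Z ⊆ Act', ∀ c ∈ X, ∀ s ∈ Z,
        ((c, s) ∈ (A \ touch B B') ∩ W ↔ (c, s) ∈ A ∩ W) := by
      intro X hX Z hZ c hc s hs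
      have h2 : c ∉ B := Finset.disjoint_left.1 hB (hX hc)
      have h3 : s ∉ B' := Finset.disjoint_left.1 hB' (hZ hs)
      simp only [Finset.mem_inter, Finset.mem_sdiff, touch, Finset.mem_filter, Finset.mem_univ,
        true_and, h2, h3, or_self, not_false_eq_true, and_true]
    constructor
    · rintro ⟨X, hX, Z, hZ, h2, h3⟩
      exact ⟨X, hX, Z, hZ, h2, fun c hc s hs h4 =>
        h3 c hc s hs ((hmem X hX Z hZ c hc s hs).2 h4)⟩
    · rintro ⟨X, hX, Z, hZ, h2, h3⟩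
      exact ⟨X, hX, Z, hZ, h2, fun c hc s hs h4 =>
        h3 c hc s hs ((hmem X hX Z hZ c hc s hs).1 h4)⟩
  have h2 := split_sum (pa ε n) (touch B B') (fun H => ind (H = Q)) g
  simp only [key] at h2
  have h3 : Ex (pa ε n) g ≤ (n : ℝ) ^ (-(3 : ℝ)) :=
    (h71_box_union h0 h1 W Act Act' _).trans hnum
  have h4 : 0 ≤ Ex (pa ε n) (fun A => ind (A ∩ touch B B' = Q)) :=
    Ex_nonneg h0 h1 fun A => ind_nonneg _
  calc Ex (pa ε n) (fun A => ind (A ∩ touch B B' = Q) * g A)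
      = Ex (pa ε n) (fun A => ind (A ∩ touch B B' = Q)) * Ex (pa ε n) g := h2
    _ ≤ Ex (pa ε n) (fun A => ind (A ∩ touch B B' = Q)) * (n : ℝ) ^ (-(3 : ℝ)) :=
        mul_le_mul_of_nonneg_left h3 h4
    _ = _ := mul_comm _ _

end Pool.Agent.Helper40.LS
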