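import Pool.Agent.Helper40.LS.G2
import Pool.Agent.Helper40.LS.Q9

/-! Project LS, assembly 3: failure probability and potential of one row. -/

set_option autoImplicit false
open Classical Filter Topology

namespace Pool.Agent.Helper40.LS

open Helper20.LS (inv_facts)

theorem pa_pc_bounds {ε : ℝ} (h0 : 0 < ε) (h1 : ε < 1) : ∀ᶠ n : ℕ in atTop,
    (0 ≤ pa ε n ∧ pa ε n ≤ 1) ∧ (0 ≤ pc ε n ∧ pc ε n ≤ 1) := by
  have hl : Tendsto (fun n : ℕ => 3 * (Real.log n / n)) atTop (𝓝 (3 * 0)) := by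
    refine Tendsto.const_mul _ ?_
    exact (Real.isLittleO_log_id_atTop.tendsto_div_nhds_zero).comp tendsto_natCast_atTop_atTop
  rw [mul_zero] at hl
  filter_upwards [hl.eventually_lt_const zero_lt_one, eventually_ge_atTop 1] with n hn hn1
  have h3 : (1 : ℝ) ≤ n := by exact_mod_cast hn1
  have h4 := Real.log_nonneg h3
  have h5 : 0 ≤ Real.log n / n := by positivity
  have ha : pa ε n = (2 + ε / 2) * (Real.log n / n) := by rw [pa]; ring
  have hc : pc ε n = ε / 8 * (Real.log n / n) := by rw [pc]; ring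
  rw [ha, hc]
  refine ⟨⟨by positivity, ?_⟩, ⟨by positivity, ?_⟩⟩ <;> nlinarith

theorem ind_stat {n : ℕ} (R : Gr n) (b : ℝ) (A C S : Gr n) (q : Stat n) :
    ind (stat R b ((A, C, S) : Row n) = q) =
      ind (A ∩ touch q.1 q.2.1 = q.2.2) * (ind (bad R C b = q.1) * ind (bad (tr R) S b = q.2.1)) := by
  rw [← ind_and, ← ind_and]
  refine ind_congr ?_
  rw [stat, Prod.ext_iff, Prod.ext_iff]
  simp only
  constructor
  · rintro ⟨h1, h2, h3⟩
    rw [h1, h2] at h3
    exact ⟨h3, h1, h2⟩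
  · rintro ⟨h1, h2, h3⟩
    refine ⟨h2, h3, ?_⟩
    rw [h2, h3]; exact h1

/-- the mass of a static information -/
theorem mass_eq {n : ℕ} (R : Gr n) (b pa pc : ℝ) (q : Stat n) :
    ∑ x : Row n, rwt n pa pc x * ind (stat R b x = q) =
      Ex pa (fun A => ind (A ∩ touch q.1 q.2.1 = q.2.2)) *
        (Ex pc (fun C => ind (bad R C b = q.1)) * Ex pc (fun S => ind (bad (tr R) S b = q.2.1))) := by
  have h1 : ∀ x : Row n, rwt n pa pc x * ind (stat R b x = q) =
      rwt n pa pc x * (ind (x.1 ∩ touch q.1 q.2.1 = q.2.2) *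
        (ind (bad R x.2.1 b = q.1) * ind (bad (tr R) x.2.2 b = q.2.1))) := by
    rintro ⟨A, C, S⟩
    rw [ind_stat]
  rw [Finset.sum_congr rfl fun x _ => h1 x,
    sum_row pa pc (fun A C S => ind (A ∩ touch q.1 q.2.1 = q.2.2) *
        (ind (bad R C b = q.1) * ind (bad (tr R) S b = q.2.1)))]
  simp only [Ex_mul]
  have h2 : ∀ A : Gr n, Ex pc (fun C => ind (bad R C b = q.1) *
      Ex pc (fun S => ind (bad (tr R) S b = q.2.1))) =
      Ex pc (fun C => ind (bad R C b = q.1)) * Ex pc (fun S => ind (bad (tr R) S b = q.2.1)) := by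
    intro _
    rw [mul_comm, ← Ex_mul]
    simp only [mul_comm]
  have h3 : (fun A : Gr n => ind (A ∩ touch q.1 q.2.1 = q.2.2) *
      Ex pc (fun C => ind (bad R C b = q.1) * Ex pc (fun S => ind (bad (tr R) S b = q.2.1)))) =
      fun A => (Ex pc (fun C => ind (bad R C b = q.1)) *
        Ex pc (fun S => ind (bad (tr R) S b = q.2.1))) * ind (A ∩ touch q.1 q.2.1 = q.2.2) := by
    funext A
    rw [h2 A, mul_comm]
  rw [h3, Ex_mul, mul_comm]

/-- LS-G3: failure probability of one row -/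
theorem row_fail {δ ε dA h z0 dC ζ : ℝ} (P : Par δ ε dA h z0 dC ζ) :
    ∀ᶠ n : ℕ in atTop, ∀ (R : Gr n) (σ : Fin n → Stat n) (M0 : Fin n → Gr n) (t : Fin n)
      (s : St n), Reserve R (δ / 8) ζ → Pre σ M0 ζ → ((t : ℕ) : ℝ) ≤ (1 - δ) * n →
      Inv δ z0 h R M0 t s → Psi δ t s < Real.exp (h * n / 16) →
      ∑ x : Row n, rwt n (pa ε n) (pc ε n) x * ind (stat R (bb δ ε n) x = σ t) *
        ind (stepR δ z0 h R M0 t s x = none ∧ Good δ ε dA z0 dC x) ≤
      (n : ℝ) ^ (-(2 : ℝ)) *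
        ∑ x : Row n, rwt n (pa ε n) (pc ε n) x * ind (stat R (bb δ ε n) x = σ t) := by
  filter_upwards [pa_pc_bounds P.ε0 P.ε1, det_row P, inv_facts P, side_fail P, box_fail P,
    eventually_ge_atTop 7] with n hp hdet hfacts hside hbox hn7 R σ M0 t s hR hPre ht hI hPsi
  obtain ⟨⟨ha0, ha1⟩, hc0, hc1⟩ := hp
  obtain ⟨hz, -⟩ := hfacts R σ M0 t s hR hPre ht hI hPsi
  set β : ℝ := (n : ℝ) ^ (-(3 : ℝ)) with hβ
  have hn0 : (0 : ℝ) < n := by
    have : (7 : ℝ) ≤ n := by exact_mod_cast hn7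
    linarith
  have hβ0 : 0 ≤ β := Real.rpow_nonneg hn0.le _
  set q := σ t with hq
  set W := free R s.1 (allM M0) with hW
  set mA := Ex (pa ε n) (fun A => ind (A ∩ touch q.1 q.2.1 = q.2.2)) with hmA
  set mC := Ex (pc ε n) (fun C => ind (bad R C (bb δ ε n) = q.1)) with hmC
  set mS := Ex (pc ε n) (fun S => ind (bad (tr R) S (bb δ ε n) = q.2.1)) with hmS
  have hmA0 : 0 ≤ mA := Ex_nonneg ha0 ha1 fun _ => ind_nonneg _
  have hmC0 : 0 ≤ mC := Ex_nonneg hc0 hc1 fun _ => ind_nonneg _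
  have hmS0 : 0 ≤ mS := Ex_nonneg hc0 hc1 fun _ => ind_nonneg _
  have hD : Disjoint (act (M0 t)) q.1 := by
    rw [Finset.disjoint_left]
    intro c hc hc2
    rw [act, Finset.mem_sdiff] at hc
    exact hc.2 (hPre.cov t hc2)
  have hD' : Disjoint (act' (M0 t)) q.2.1 := by
    rw [Finset.disjoint_left]
    intro c hc hc2
    rw [act', Finset.mem_sdiff] at hc
    exact hc.2 (hPre.cov' t hc2)
  -- the event
  set E : Gr n → Gr n → Gr n → Prop := fun A C S =>
    (¬ ∃ M, RowOut R s.1 (allM M0) (M0 t) A C S (act (M0 t)) (act' (M0 t)) h (ll δ n)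
      (4 * zz δ z0 n t * n) M) ∧ Good δ ε dA z0 dC ((A, C, S) : Row n) with hE
  have hsum : ∑ x : Row n, rwt n (pa ε n) (pc ε n) x * ind (stat R (bb δ ε n) x = σ t) *
        ind (stepR δ z0 h R M0 t s x = none ∧ Good δ ε dA z0 dC x) ≤
      Ex (pa ε n) (fun A => Ex (pc ε n) fun C => Ex (pc ε n) fun S =>
        ind (A ∩ touch q.1 q.2.1 = q.2.2) * ((ind (bad R C (bb δ ε n) = q.1) *
          ind (bad (tr R) S (bb δ ε n) = q.2.1)) * ind (E A C S))) := by
    rw [← sum_row (pa ε n) (pc ε n) (fun A C S => ind (A ∩ touch q.1 q.2.1 = q.2.2) *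
      ((ind (bad R C (bb δ ε n) = q.1) *
          ind (bad (tr R) S (bb δ ε n) = q.2.1)) * ind (E A C S)))]
    refine Finset.sum_le_sum ?_
    rintro ⟨A, C, S⟩ _
    rw [ind_stat]
    have h1 : ind (stepR δ z0 h R M0 t s ((A, C, S) : Row n) = none ∧
        Good δ ε dA z0 dC ((A, C, S) : Row n)) ≤ ind (E A C S) := by
      refine ind_mono ?_
      rintro ⟨h1, h2⟩
      refine ⟨fun h3 => ?_, h2⟩
      rw [stepR, dif_pos h3] at h1
      exact Option.some_ne_none _ h1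
    have h2 := rwt_nonneg ha0 ha1 hc0 hc1 ((A, C, S) : Row n)
    have h3 := ind_nonneg (A ∩ touch q.1 q.2.1 = q.2.2)
    have h4 := ind_nonneg (bad R C (bb δ ε n) = q.1)
    have h5 := ind_nonneg (bad (tr R) S (bb δ ε n) = q.2.1)
    calc _ = (rwt n (pa ε n) (pc ε n) ((A, C, S) : Row n) *
          (ind (A ∩ touch q.1 q.2.1 = q.2.2) * (ind (bad R C (bb δ ε n) = q.1) *
            ind (bad (tr R) S (bb δ ε n) = q.2.1)))) *
          ind (stepR δ z0 h R M0 t s ((A, C, S) : Row n) = none ∧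
            Good δ ε dA z0 dC ((A, C, S) : Row n)) := by ring
      _ ≤ (rwt n (pa ε n) (pc ε n) ((A, C, S) : Row n) *
          (ind (A ∩ touch q.1 q.2.1 = q.2.2) * (ind (bad R C (bb δ ε n) = q.1) *
            ind (bad (tr R) S (bb δ ε n) = q.2.1)))) * ind (E A C S) :=
          mul_le_mul_of_nonneg_left h1 (by positivity)
      _ = _ := by ring
  refine hsum.trans ?_
  -- for each graph A
  have hA : ∀ A : Gr n, (Ex (pc ε n) fun C => Ex (pc ε n) fun S =>
        ind (A ∩ touch q.1 q.2.1 = q.2.2) * ((ind (bad R C (bb δ ε n) = q.1) *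
          ind (bad (tr R) S (bb δ ε n) = q.2.1)) * ind (E A C S))) ≤
      (mC * mS) * (ind (A ∩ touch q.1 q.2.1 = q.2.2) *
        ind (BoxFail A W (act (M0 t)) (act' (M0 t)) (δ * z0 / 4 * (n : ℝ) ^ 2)) +
        6 * β * ind (A ∩ touch q.1 q.2.1 = q.2.2)) := by
    intro A
    simp only [Ex_mul]
    by_cases hQ : A ∩ touch q.1 q.2.1 = q.2.2
    swap
    · rw [ind_false hQ]; simp
    rw [ind_true hQ, one_mul, one_mul, mul_one]
    have hprod : ∀ f g : Gr n → ℝ, (Ex (pc ε n) fun C => Ex (pc ε n) fun S => f C * g S) =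
        Ex (pc ε n) f * Ex (pc ε n) g := by
      intro f g
      have : ∀ C : Gr n, (Ex (pc ε n) fun S => f C * g S) = f C * Ex (pc ε n) g :=
        fun C => Ex_mul _ _ _
      simp only [this]
      rw [mul_comm, ← Ex_mul]
      simp only [mul_comm]
    by_cases hB : BoxFail A W (act (M0 t)) (act' (M0 t)) (δ * z0 / 4 * (n : ℝ) ^ 2)
    · rw [ind_true hB]
      have h1 : (Ex (pc ε n) fun C => Ex (pc ε n) fun S => (ind (bad R C (bb δ ε n) = q.1) *
          ind (bad (tr R) S (bb δ ε n) = q.2.1)) * ind (E A C S)) ≤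
          Ex (pc ε n) fun C => Ex (pc ε n) fun S => ind (bad R C (bb δ ε n) = q.1) *
          ind (bad (tr R) S (bb δ ε n) = q.2.1) := by
        refine Ex_mono hc0 hc1 fun C => Ex_mono hc0 hc1 fun S => ?_
        have h3 := mul_nonneg (ind_nonneg (bad R C (bb δ ε n) = q.1))
          (ind_nonneg (bad (tr R) S (bb δ ε n) = q.2.1))
        calc _ ≤ (ind (bad R C (bb δ ε n) = q.1) * ind (bad (tr R) S (bb δ ε n) = q.2.1)) * 1 :=
              mul_le_mul_of_nonneg_left (ind_le_one _) h3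
          _ = _ := mul_one _
      refine h1.trans ?_
      rw [hprod]
      have := mul_nonneg hmC0 hmS0
      nlinarith
    rw [ind_false hB, zero_add]
    by_cases hSm : SmallG A (δ / 4) dA (Real.log n)
    swap
    · have h1 : ∀ C S, ind (E A C S) = 0 := fun C S => ind_false fun h => hSm h.2.sA
      simp only [h1, mul_zero]
      have h2 : (Ex (pc ε n) fun _ : Gr n => Ex (pc ε n) fun _ : Gr n => (0 : ℝ)) = 0 := by
        unfold Ex; simp
      rw [h2]
      have := mul_nonneg hmC0 hmS0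
      positivity
    have hM0A : M0 t ⊆ A := fun e he => by
      have h1 := hPre.sub t he
      rw [← hq, ← hQ] at h1
      exact (Finset.mem_inter.1 h1).1
    obtain ⟨Al, Y0, Al', X0, hx1, hx2, hs1, hs2, hfin⟩ := hdet R σ M0 t s hR hPre ht hI hPsi A hSm
      hM0A hB
    have e1 := hside R (resv R s.1 (allM M0)) q.1 (act (M0 t)) Al Y0 (zz δ z0 n t) hR hD hx1 hz.1 hs1
    have e2 := hside (tr R) (tr (resv R s.1 (allM M0))) q.2.1 (act' (M0 t)) Al' X0 (zz δ z0 n t)
      hR.tr hD' hx2 hz.1 hs2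
    set FC : Gr n → ℝ := fun C => ind (bad R C (bb δ ε n) = q.1) *
      ind (¬ Side C (resv R s.1 (allM M0)) (act (M0 t)) Al Y0 (bb δ ε n / 2) (l2 δ ε z0 n)
        (gg ζ n) (dC / 2 * n) (zz δ z0 n t / 25 * n)) with hFC
    set FS : Gr n → ℝ := fun S => ind (bad (tr R) S (bb δ ε n) = q.2.1) *
      ind (¬ Side S (tr (resv R s.1 (allM M0))) (act' (M0 t)) Al' X0 (bb δ ε n / 2) (l2 δ ε z0 n)
        (gg ζ n) (dC / 2 * n) (zz δ z0 n t / 25 * n)) with hFS
    have h1 : (Ex (pc ε n) fun C => Ex (pc ε n) fun S => (ind (bad R C (bb δ ε n) = q.1) *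
          ind (bad (tr R) S (bb δ ε n) = q.2.1)) * ind (E A C S)) ≤
        Ex (pc ε n) fun C => Ex (pc ε n) fun S =>
          FC C * ind (bad (tr R) S (bb δ ε n) = q.2.1) +
          ind (bad R C (bb δ ε n) = q.1) * FS S := by
      refine Ex_mono hc0 hc1 fun C => Ex_mono hc0 hc1 fun S => ?_
      have h3 := ind_nonneg (bad R C (bb δ ε n) = q.1)
      have h4 := ind_nonneg (bad (tr R) S (bb δ ε n) = q.2.1)
      have h5 : ind (E A C S) ≤
          ind (¬ Side C (resv R s.1 (allM M0)) (act (M0 t)) Al Y0 (bb δ ε n / 2) (l2 δ ε z0 n)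
            (gg ζ n) (dC / 2 * n) (zz δ z0 n t / 25 * n)) +
          ind (¬ Side S (tr (resv R s.1 (allM M0))) (act' (M0 t)) Al' X0 (bb δ ε n / 2)
            (l2 δ ε z0 n) (gg ζ n) (dC / 2 * n) (zz δ z0 n t / 25 * n)) := by
        refine le_trans (ind_mono ?_) (ind_or_le _ _)
        rintro ⟨h6, h7⟩
        by_contra h8
        rw [not_or, not_not, not_not] at h8
        exact h6 (hfin C S h7 h8.1 h8.2)
      have h6 := mul_le_mul_of_nonneg_left h5 (mul_nonneg h3 h4)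
      refine h6.trans (le_of_eq ?_)
      rw [hFC, hFS]; ring
    refine h1.trans ?_
    have h2 : (Ex (pc ε n) fun C => Ex (pc ε n) fun S =>
          FC C * ind (bad (tr R) S (bb δ ε n) = q.2.1) +
          ind (bad R C (bb δ ε n) = q.1) * FS S) = Ex (pc ε n) FC * mS + mC * Ex (pc ε n) FS := by
      have : ∀ C : Gr n, (Ex (pc ε n) fun S => FC C * ind (bad (tr R) S (bb δ ε n) = q.2.1) +
          ind (bad R C (bb δ ε n) = q.1) * FS S) =
          (Ex (pc ε n) fun S => FC C * ind (bad (tr R) S (bb δ ε n) = q.2.1)) +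
          Ex (pc ε n) fun S => ind (bad R C (bb δ ε n) = q.1) * FS S := fun C => Ex_add _ _ _
      simp only [this]
      rw [Ex_add, hprod, hprod]
    rw [h2]
    have h3 : Ex (pc ε n) FC * mS ≤ 3 * β * mC * mS := mul_le_mul_of_nonneg_right e1 hmS0
    have h4 : mC * Ex (pc ε n) FS ≤ mC * (3 * β * mS) := mul_le_mul_of_nonneg_left e2 hmC0
    calc _ ≤ 3 * β * mC * mS + mC * (3 * β * mS) := add_le_add h3 h4
      _ = _ := by ring
  refine (Ex_mono ha0 ha1 hA).trans ?_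
  rw [Ex_mul, Ex_add, Ex_mul, mass_eq]
  have e3 := hbox W q.2.2 (act (M0 t)) (act' (M0 t)) q.1 q.2.1 hD hD'
  have e4 : Ex (pa ε n) (fun A => ind (A ∩ touch q.1 q.2.1 = q.2.2) *
        ind (BoxFail A W (act (M0 t)) (act' (M0 t)) (δ * z0 / 4 * (n : ℝ) ^ 2))) ≤ β * mA := e3
  have h7 : 7 * β ≤ (n : ℝ) ^ (-(2 : ℝ)) := by
    have : (n : ℝ) ^ (-(2 : ℝ)) = n * β := by
      rw [hβ, ← Real.rpow_one_add' hn0.le (by norm_num)]
      norm_num
    rw [this]
    have : (7 : ℝ) ≤ n := by exact_mod_cast hn7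
    nlinarith
  have hm : 0 ≤ mA * (mC * mS) := mul_nonneg hmA0 (mul_nonneg hmC0 hmS0)
  calc (mC * mS) * (Ex (pa ε n) (fun A => ind (A ∩ touch q.1 q.2.1 = q.2.2) *
        ind (BoxFail A W (act (M0 t)) (act' (M0 t)) (δ * z0 / 4 * (n : ℝ) ^ 2))) + 6 * β * mA)
      ≤ (mC * mS) * (β * mA + 6 * β * mA) :=
        mul_le_mul_of_nonneg_left (by linarith) (mul_nonneg hmC0 hmS0)
    _ = 7 * β * (mA * (mC * mS)) := by ring
    _ ≤ (n : ℝ) ^ (-(2 : ℝ)) * (mA * (mC * mS)) := mul_le_mul_of_nonneg_right h7 hm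

end Pool.Agent.Helper40.LS
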