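import Pool.Agent.Helper40.LS.Basic
import Pool.Agent.Helper29.LS.Q1

/-! LS-Q10: low columns. -/

set_option autoImplicit false
open Classical Filter Topology

namespace Pool.Agent.Helper40.LS

/-- few cells at the column `c` with symbol in `T` -/
theorem pr_col_low {n : ℕ} {p : ℝ} (h0 : 0 ≤ p) (h1 : p ≤ 1) (c : Fin n) (T : Finset (Fin n))
    (l : ℝ) :
    Ex p (fun A : Gr n => ind (((nb A c ∩ T).card : ℝ) < l)) ≤
      Real.exp (l - p * T.card * (1 - Real.exp (-1))) := by
  rw [Ex_ind]
  have hcard : ({c} ×ˢ T : Finset (Fin n × Fin n)).card = T.card := by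
    rw [Finset.card_product]; simp
  have h := tail_lower h0 h1 ({c} ×ˢ T : Finset (Fin n × Fin n)) (s := 1) (by norm_num) l
  rw [hcard, one_mul] at h
  refine le_trans (FL.Pr_mono h0 h1 fun A hA => ?_) h
  have h2 : (A ∩ ({c} ×ˢ T)).card = (nb A c ∩ T).card := by
    have : A ∩ ({c} ×ˢ T) = (nb A c ∩ T).image fun s => (c, s) := by
      ext ⟨a, b⟩
      simp only [Finset.mem_inter, Finset.mem_product, Finset.mem_singleton, Finset.mem_image,
        mem_nb, Prod.mk.injEq]
      constructor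
      · rintro ⟨h1, rfl, h2⟩; exact ⟨b, ⟨h1, h2⟩, rfl, rfl⟩
      · rintro ⟨s, ⟨h1, h2⟩, rfl, rfl⟩; exact ⟨h1, rfl, h2⟩
    rw [this, Finset.card_image_of_injective _ (fun a b h => (Prod.mk.inj h).2)]
  rw [h2]
  exact hA.le

theorem low_prob {δ ε dA h z0 dC ζ : ℝ} (P : Par δ ε dA h z0 dC ζ) :
    ∀ᶠ n : ℕ in atTop, ∀ (W Q : Gr n) (Act Act' B B' : Finset (Fin n)) (c : Fin n),
      Disjoint Act B → Disjoint Act' B' →
      3 / 4 * δ * n ≤ ((nb W c ∩ Act').card : ℝ) →
      Ex (pa ε n) (fun A => ind (A ∩ touch B B' = Q) * ind (c ∈ low A W Act Act' (ll δ n))) ≤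
      (n : ℝ) ^ (-(δ / 8)) * Ex (pa ε n) (fun A => ind (A ∩ touch B B' = Q)) := by
  have hlog : ∀ᶠ n : ℕ in atTop, (2 + ε / 2) * Real.log n ≤ n := by
    have h := (Real.isLittleO_pow_log_id_atTop (n := 1)).bound
      (show (0:ℝ) < 1 / (2 + ε / 2) by have := P.ε0; positivity)
    have h2 := tendsto_natCast_atTop_atTop (R := ℝ) |>.eventually h
    filter_upwards [h2] with n hn
    simp only [Real.norm_eq_abs, id, pow_one] at hn
    rw [abs_of_nonneg (Nat.cast_nonneg n : (0:ℝ) ≤ (n:ℝ))] at hn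
    have h3 := le_abs_self (Real.log n)
    have h4 : (0:ℝ) < 2 + ε / 2 := by have := P.ε0; positivity
    have h5 : Real.log n ≤ 1 / (2 + ε / 2) * n := h3.trans hn
    calc (2 + ε / 2) * Real.log n ≤ (2 + ε / 2) * (1 / (2 + ε / 2) * n) :=
          mul_le_mul_of_nonneg_left h5 h4.le
      _ = n := by rw [← mul_assoc, mul_one_div_cancel h4.ne', one_mul]
  filter_upwards [hlog, eventually_ge_atTop 1] with n hn hn1
  intro W Q Act Act' B B' c hAB hAB' hT
  have hn0 : (0:ℝ) < n := by exact_mod_cast hn1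
  have hn1' : (1:ℝ) ≤ n := by exact_mod_cast hn1
  have hL : 0 ≤ Real.log n := Real.log_nonneg hn1'
  have hε := P.ε0
  have hδ := P.δ0
  have hp0 : 0 ≤ pa ε n := by unfold pa; positivity
  have hp1 : pa ε n ≤ 1 := by
    unfold pa
    rw [div_le_one hn0]
    exact hn
  by_cases hc : c ∈ Act
  · set T : Finset (Fin n) := nb W c ∩ Act' with hTdef
    have hg : ∀ G : Gr n, nb (G \ touch B B') c ∩ T = nb G c ∩ T := by
      intro G
      ext s
      simp only [Finset.mem_inter, mem_nb, Finset.mem_sdiff, hTdef]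
      constructor
      · rintro ⟨⟨h1, -⟩, h2⟩; exact ⟨h1, h2⟩
      · rintro ⟨h1, h2, h3⟩
        refine ⟨⟨h1, ?_⟩, h2, h3⟩
        simp only [touch, Finset.mem_filter, Finset.mem_univ, true_and, not_or]
        exact ⟨fun hB => (Finset.disjoint_left.1 hAB hc) hB,
          fun hB => (Finset.disjoint_left.1 hAB' h3) hB⟩
    have hev : ∀ A : Gr n, (c ∈ low A W Act Act' (ll δ n)) ↔
        (((nb (A \ touch B B') c ∩ T).card : ℝ) < ll δ n) := by
      intro A
      rw [hg, low, Finset.mem_filter, hTdef, Finset.inter_assoc]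
      exact ⟨fun h => h.2, fun h => ⟨hc, h⟩⟩
    have hsplit := split_sum (pa ε n) (touch B B') (fun G => ind (G = Q))
      (fun G : Gr n => ind (((nb G c ∩ T).card : ℝ) < ll δ n))
    have h1 : Ex (pa ε n) (fun A => ind (A ∩ touch B B' = Q) *
        ind (c ∈ low A W Act Act' (ll δ n))) = Ex (pa ε n) (fun A => ind (A ∩ touch B B' = Q)) *
        Ex (pa ε n) (fun A => ind (((nb A c ∩ T).card : ℝ) < ll δ n)) := by
      have e1 : (fun A : Gr n => ind (A ∩ touch B B' = Q) * ind (c ∈ low A W Act Act' (ll δ n))) =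
          fun A => ind (A ∩ touch B B' = Q) *
            ind (((nb (A \ touch B B') c ∩ T).card : ℝ) < ll δ n) := by
        funext A; rw [ind_congr (hev A)]
      rw [e1, hsplit]
      congr 2
      funext A
      rw [hg]
    rw [h1, mul_comm]
    refine mul_le_mul_of_nonneg_right ?_ (Ex_nonneg hp0 hp1 fun G => ind_nonneg _)
    refine (pr_col_low hp0 hp1 c T (ll δ n)).trans ?_
    rw [Real.rpow_def_of_pos hn0]
    refine Real.exp_le_exp.2 ?_
    have he : Real.exp (-1) ≤ 0.37 := by
      have := Real.exp_neg_one_lt_d9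
      linarith
    have hmean : 3 / 2 * δ * Real.log n ≤ pa ε n * T.card := by
      calc 3 / 2 * δ * Real.log n ≤ (2 + ε / 2) * Real.log n / n * (3 / 4 * δ * n) := by
            have : (2 + ε / 2) * Real.log n / n * (3 / 4 * δ * n)
                = (2 + ε / 2) * (3 / 4) * δ * Real.log n := by field_simp
            rw [this]
            have h9 : 0 ≤ δ * Real.log n := by positivity
            nlinarith
        _ ≤ pa ε n * T.card := mul_le_mul_of_nonneg_left hT hp0
    have h10 : 0 ≤ δ * Real.log n := by positivity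
    have h11 : 3 / 2 * δ * Real.log n * 0.63 ≤ pa ε n * T.card * (1 - Real.exp (-1)) :=
      mul_le_mul hmean (by linarith) (by norm_num) (by positivity)
    unfold ll
    nlinarith
  · have h1 : (fun A : Gr n => ind (A ∩ touch B B' = Q) * ind (c ∈ low A W Act Act' (ll δ n))) =
        fun _ => 0 := by
      funext A
      rw [ind_false (P := c ∈ low A W Act Act' (ll δ n)), mul_zero]
      intro h
      rw [low, Finset.mem_filter] at h
      exact hc h.1
    rw [h1]
    have h2 : Ex (n := n) (pa ε n) (fun _ => 0) = 0 := by unfold Ex; simp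
    rw [h2]
    exact mul_nonneg (Real.rpow_nonneg hn0.le _) (Ex_nonneg hp0 hp1 fun G => ind_nonneg _)

end Pool.Agent.Helper40.LS
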