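import Pool.Agent.Helper40.LS.G3
import Pool.Agent.Helper40.LS.Q10

/-! Project LS, assembly 4: the potential. -/

set_option autoImplicit false
open Classical Filter Topology

namespace Pool.Agent.Helper40.LS

open Helper20.LS (inv_facts)

theorem tr_inter_touch {n : ℕ} (G Q : Gr n) (B B' : Finset (Fin n)) :
    tr G ∩ touch B B' = Q ↔ G ∩ touch B' B = tr Q := by
  have h : ∀ (B B' : Finset (Fin n)), tr (touch B B') = touch B' B := by
    intro B B'
    ext ⟨a, b⟩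
    simp only [mem_tr, touch, Finset.mem_filter, Finset.mem_univ, true_and]
    exact or_comm
  constructor
  · intro h1
    rw [← h1, tr_inter, tr_tr, h]
  · intro h1
    rw [← tr_tr (G := Q), ← h1, tr_inter, h]

theorem exp_add_ite (a : ℕ) (Q : Prop) [Decidable Q] :
    Real.exp (((a + if Q then 1 else 0 : ℕ)) : ℝ) =
      Real.exp a * (1 + (Real.exp 1 - 1) * ind Q) := by
  by_cases h : Q
  · rw [if_pos h, ind_true h]
    push_cast
    rw [Real.exp_add]; ring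
  · rw [if_neg h, ind_false h]
    push_cast
    simp

/-- LS-G4: the potential does not increase in mean -/
theorem row_pot {δ ε dA h z0 dC ζ : ℝ} (P : Par δ ε dA h z0 dC ζ) :
    ∀ᶠ n : ℕ in atTop, ∀ (R : Gr n) (σ : Fin n → Stat n) (M0 : Fin n → Gr n) (t : Fin n)
      (s : St n), Reserve R (δ / 8) ζ → Pre σ M0 ζ → ((t : ℕ) : ℝ) ≤ (1 - δ) * n →
      Inv δ z0 h R M0 t s → Psi δ t s < Real.exp (h * n / 16) →
      ∑ x : Row n, rwt n (pa ε n) (pc ε n) x * ind (stat R (bb δ ε n) x = σ t) *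
        ((stepR δ z0 h R M0 t s x).elim 0 (Psi δ ((t : ℕ) + 1))) ≤
      Psi δ t s *
        ∑ x : Row n, rwt n (pa ε n) (pc ε n) x * ind (stat R (bb δ ε n) x = σ t) := by
  filter_upwards [pa_pc_bounds P.ε0 P.ε1, inv_facts P, low_prob P,
    eventually_ge_atTop 1] with n hp hfacts hlow hn1 R σ M0 t s hR hPre ht hI hPsi
  obtain ⟨⟨ha0, ha1⟩, hc0, hc1⟩ := hp
  obtain ⟨hz, -, -, -, -, -, -, -, hf1, hf2⟩ := hfacts R σ M0 t s hR hPre ht hI hPsi
  have hn0 : (0 : ℝ) < n := by exact_mod_cast hn1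
  set κ : ℝ := (n : ℝ) ^ (-(δ / 8)) with hκ
  have hκ0 : 0 ≤ κ := Real.rpow_nonneg hn0.le _
  set q := σ t with hq
  set W := free R s.1 (allM M0) with hW
  set mA := Ex (pa ε n) (fun A => ind (A ∩ touch q.1 q.2.1 = q.2.2)) with hmA
  set mC := Ex (pc ε n) (fun C => ind (bad R C (bb δ ε n) = q.1)) with hmC
  set mS := Ex (pc ε n) (fun S => ind (bad (tr R) S (bb δ ε n) = q.2.1)) with hmS
  have hmA0 : 0 ≤ mA := Ex_nonneg ha0 ha1 fun _ => ind_nonneg _
  have hmC0 : 0 ≤ mC := Ex_nonneg hc0 hc1 fun _ => ind_nonneg _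
  have hmS0 : 0 ≤ mS := Ex_nonneg hc0 hc1 fun _ => ind_nonneg _
  have hD : Disjoint (act (M0 t)) q.1 := by
    rw [Finset.disjoint_left]
    intro c hc hc2
    rw [act, Finset.mem_sdiff] at hc
    exact hc.2 (hPre.cov t hc2)
  have hD' : Disjoint (act' (M0 t)) q.2.1 := by
    rw [Finset.disjoint_left]
    intro c hc hc2
    rw [act', Finset.mem_sdiff] at hc
    exact hc.2 (hPre.cov' t hc2)
  set L1 : Gr n → Fin n → Prop := fun A c => c ∈ low A W (act (M0 t)) (act' (M0 t)) (ll δ n) with hL1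
  set L2 : Gr n → Fin n → Prop := fun A c =>
    c ∈ low (tr A) (tr W) (act' (M0 t)) (act (M0 t)) (ll δ n) with hL2
  set D : ℝ := (1 + 2 * κ) ^ ((t : ℕ) + 1) with hDdef
  have hDpos : 0 < D := by positivity
  set G : Gr n → ℝ := fun A => (∑ c, (Real.exp (s.2.1 c) * (1 + (Real.exp 1 - 1) * ind (L1 A c)) +
    Real.exp (s.2.2 c) * (1 + (Real.exp 1 - 1) * ind (L2 A c)))) / D with hG
  have hG0 : ∀ A, 0 ≤ G A := by
    intro A
    have h1 : 0 ≤ Real.exp 1 - 1 := by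
      have := Real.add_one_le_exp (1 : ℝ); linarith
    refine div_nonneg (Finset.sum_nonneg fun c _ => ?_) hDpos.le
    have h2 := ind_nonneg (L1 A c)
    have h3 := ind_nonneg (L2 A c)
    positivity
  have helim : ∀ x : Row n, (stepR δ z0 h R M0 t s x).elim 0 (Psi δ ((t : ℕ) + 1)) ≤ G x.1 := by
    intro x
    rw [stepR]
    split_ifs with H
    · rw [Option.elim_some]
      refine le_of_eq ?_
      rw [Psi, hG]
      simp only [upd]
      congr 1
      refine Finset.sum_congr rfl fun c _ => ?_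
      rw [exp_add_ite, exp_add_ite]
    · rw [Option.elim_none]; exact hG0 _
  have h1 : ∑ x : Row n, rwt n (pa ε n) (pc ε n) x * ind (stat R (bb δ ε n) x = σ t) *
        ((stepR δ z0 h R M0 t s x).elim 0 (Psi δ ((t : ℕ) + 1))) ≤
      ∑ x : Row n, rwt n (pa ε n) (pc ε n) x * (ind (x.1 ∩ touch q.1 q.2.1 = q.2.2) *
        (ind (bad R x.2.1 (bb δ ε n) = q.1) * ind (bad (tr R) x.2.2 (bb δ ε n) = q.2.1)) *
          G x.1) := by
    refine Finset.sum_le_sum fun x _ => ?_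
    have e : ind (stat R (bb δ ε n) x = σ t) = ind (x.1 ∩ touch q.1 q.2.1 = q.2.2) *
        (ind (bad R x.2.1 (bb δ ε n) = q.1) * ind (bad (tr R) x.2.2 (bb δ ε n) = q.2.1)) :=
      ind_stat R _ x.1 x.2.1 x.2.2 q
    rw [← mul_assoc (rwt n (pa ε n) (pc ε n) x), ← e]
    exact mul_le_mul_of_nonneg_left (helim x) (mul_nonneg (rwt_nonneg ha0 ha1 hc0 hc1 x)
      (ind_nonneg _))
  refine h1.trans ?_
  rw [sum_row (pa ε n) (pc ε n) (fun A C S => ind (A ∩ touch q.1 q.2.1 = q.2.2) *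
        (ind (bad R C (bb δ ε n) = q.1) * ind (bad (tr R) S (bb δ ε n) = q.2.1)) * G A), mass_eq]
  have h2 : (Ex (pa ε n) fun A => Ex (pc ε n) fun C => Ex (pc ε n) fun S =>
      ind (A ∩ touch q.1 q.2.1 = q.2.2) *
        (ind (bad R C (bb δ ε n) = q.1) * ind (bad (tr R) S (bb δ ε n) = q.2.1)) * G A) =
      (mC * mS) * Ex (pa ε n) (fun A => ind (A ∩ touch q.1 q.2.1 = q.2.2) * G A) := by
    rw [← Ex_mul]
    congr 1
    funext A
    have e1 : ∀ C : Gr n, (Ex (pc ε n) fun S => ind (A ∩ touch q.1 q.2.1 = q.2.2) *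
        (ind (bad R C (bb δ ε n) = q.1) * ind (bad (tr R) S (bb δ ε n) = q.2.1)) * G A) =
        (ind (A ∩ touch q.1 q.2.1 = q.2.2) * G A * mS) * ind (bad R C (bb δ ε n) = q.1) := by
      intro C
      have : (fun S : Gr n => ind (A ∩ touch q.1 q.2.1 = q.2.2) *
        (ind (bad R C (bb δ ε n) = q.1) * ind (bad (tr R) S (bb δ ε n) = q.2.1)) * G A) =
        fun S => (ind (A ∩ touch q.1 q.2.1 = q.2.2) * G A * ind (bad R C (bb δ ε n) = q.1)) *
          ind (bad (tr R) S (bb δ ε n) = q.2.1) := by funext S; ring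
      rw [this, Ex_mul]; ring
    simp only [e1]
    rw [Ex_mul]; ring
  rw [h2]
  -- the expectation over A
  have hexp1 : Real.exp 1 - 1 ≤ 2 := by have := Real.exp_one_lt_d9; linarith
  have hexp0 : 0 ≤ Real.exp 1 - 1 := by
    have := Real.add_one_le_exp (1 : ℝ); linarith
  have hl1 : ∀ c, Ex (pa ε n) (fun A => ind (A ∩ touch q.1 q.2.1 = q.2.2) * ind (L1 A c)) ≤
      κ * mA := fun c => hlow W q.2.2 (act (M0 t)) (act' (M0 t)) q.1 q.2.1 c hD hD' (hf1 c)
  have hl2 : ∀ c, Ex (pa ε n) (fun A => ind (A ∩ touch q.1 q.2.1 = q.2.2) * ind (L2 A c)) ≤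
      κ * mA := by
    intro c
    have e1 := hlow (tr W) (tr q.2.2) (act' (M0 t)) (act (M0 t)) q.2.1 q.1 c hD' hD (hf2 c)
    have e2 : ∀ f : Gr n → ℝ, Ex (pa ε n) (fun A => ind (A ∩ touch q.1 q.2.1 = q.2.2) * f (tr A)) =
        Ex (pa ε n) (fun A => ind (A ∩ touch q.2.1 q.1 = tr q.2.2) * f A) := by
      intro f
      rw [← Ex_tr (pa ε n) (fun A => ind (A ∩ touch q.2.1 q.1 = tr q.2.2) * f A)]
      congr 1
      funext A
      have : (A ∩ touch q.1 q.2.1 = q.2.2) ↔ (tr A ∩ touch q.2.1 q.1 = tr q.2.2) := by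
        rw [tr_inter_touch, tr_tr]
      rw [ind_congr this]
    have e3 := e2 (fun G => ind (c ∈ low G (tr W) (act' (M0 t)) (act (M0 t)) (ll δ n)))
    have e4 := e2 (fun _ => 1)
    simp only [mul_one] at e4
    calc Ex (pa ε n) (fun A => ind (A ∩ touch q.1 q.2.1 = q.2.2) * ind (L2 A c))
        = Ex (pa ε n) (fun A => ind (A ∩ touch q.2.1 q.1 = tr q.2.2) *
            ind (c ∈ low A (tr W) (act' (M0 t)) (act (M0 t)) (ll δ n))) := e3
      _ ≤ κ * Ex (pa ε n) (fun A => ind (A ∩ touch q.2.1 q.1 = tr q.2.2)) := e1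
      _ = κ * mA := by rw [hmA, ← e4]
  have h3 : Ex (pa ε n) (fun A => ind (A ∩ touch q.1 q.2.1 = q.2.2) * G A) ≤
      Psi δ t s * mA := by
    have e1 : (fun A : Gr n => ind (A ∩ touch q.1 q.2.1 = q.2.2) * G A) = fun A =>
        D⁻¹ * ∑ c, (Real.exp (s.2.1 c) * (ind (A ∩ touch q.1 q.2.1 = q.2.2) + (Real.exp 1 - 1) *
          (ind (A ∩ touch q.1 q.2.1 = q.2.2) * ind (L1 A c))) +
          Real.exp (s.2.2 c) * (ind (A ∩ touch q.1 q.2.1 = q.2.2) + (Real.exp 1 - 1) *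
          (ind (A ∩ touch q.1 q.2.1 = q.2.2) * ind (L2 A c)))) := by
      funext A
      rw [hG]
      simp only
      rw [div_eq_inv_mul, mul_left_comm, Finset.mul_sum]
      congr 1
      refine Finset.sum_congr rfl fun c _ => ?_
      ring
    rw [e1, Ex_mul, Ex_sum]
    have e2 : ∀ c : Fin n, Ex (pa ε n) (fun A =>
        Real.exp (s.2.1 c) * (ind (A ∩ touch q.1 q.2.1 = q.2.2) + (Real.exp 1 - 1) *
          (ind (A ∩ touch q.1 q.2.1 = q.2.2) * ind (L1 A c))) +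
          Real.exp (s.2.2 c) * (ind (A ∩ touch q.1 q.2.1 = q.2.2) + (Real.exp 1 - 1) *
          (ind (A ∩ touch q.1 q.2.1 = q.2.2) * ind (L2 A c)))) ≤
        (Real.exp (s.2.1 c) + Real.exp (s.2.2 c)) * ((1 + 2 * κ) * mA) := by
      intro c
      rw [Ex_add, Ex_mul, Ex_mul, Ex_add, Ex_add, Ex_mul, Ex_mul]
      have g1 : mA + (Real.exp 1 - 1) * Ex (pa ε n) (fun A =>
          ind (A ∩ touch q.1 q.2.1 = q.2.2) * ind (L1 A c)) ≤ (1 + 2 * κ) * mA := by
        have g2 : (Real.exp 1 - 1) * Ex (pa ε n) (fun A =>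
          ind (A ∩ touch q.1 q.2.1 = q.2.2) * ind (L1 A c)) ≤ 2 * (κ * mA) :=
          mul_le_mul hexp1 (hl1 c) (Ex_nonneg ha0 ha1 fun A =>
            mul_nonneg (ind_nonneg _) (ind_nonneg _)) (by norm_num)
        linarith
      have g3 : mA + (Real.exp 1 - 1) * Ex (pa ε n) (fun A =>
          ind (A ∩ touch q.1 q.2.1 = q.2.2) * ind (L2 A c)) ≤ (1 + 2 * κ) * mA := by
        have g2 : (Real.exp 1 - 1) * Ex (pa ε n) (fun A =>
          ind (A ∩ touch q.1 q.2.1 = q.2.2) * ind (L2 A c)) ≤ 2 * (κ * mA) :=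
          mul_le_mul hexp1 (hl2 c) (Ex_nonneg ha0 ha1 fun A =>
            mul_nonneg (ind_nonneg _) (ind_nonneg _)) (by norm_num)
        linarith
      rw [add_mul]
      exact add_le_add (mul_le_mul_of_nonneg_left g1 (Real.exp_pos _).le)
        (mul_le_mul_of_nonneg_left g3 (Real.exp_pos _).le)
    refine (mul_le_mul_of_nonneg_left (Finset.sum_le_sum fun c _ => e2 c)
      (inv_nonneg.2 hDpos.le)).trans (le_of_eq ?_)
    rw [← Finset.sum_mul, Psi, hDdef, ← hκ, pow_succ]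
    have hk : (1 + 2 * κ) ^ (t : ℕ) ≠ 0 := by positivity
    have hk2 : (1 + 2 * κ) ≠ 0 := by positivity
    field_simp
  calc (mC * mS) * Ex (pa ε n) (fun A => ind (A ∩ touch q.1 q.2.1 = q.2.2) * G A)
      ≤ (mC * mS) * (Psi δ t s * mA) := mul_le_mul_of_nonneg_left h3 (mul_nonneg hmC0 hmS0)
    _ = _ := by ring

end Pool.Agent.Helper40.LS
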