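import Pool.Agent.Helper40.LS.Basic

/-! Module H11 of project LS: disjoint perfect matchings form a Latin rectangle. -/

set_option autoImplicit false
open Classical Filter Topology

namespace Pool.Agent.Helper40.LS

/-- LS-H11: disjoint perfect matchings form a Latin rectangle -/
theorem rect_of_pms {n k : ℕ} (G M : Fin n → Gr n)
    (h1 : ∀ t : Fin n, (t : ℕ) < k → IsPM (M t) ∧ M t ⊆ G t)
    (h2 : ∀ t t' : Fin n, (t : ℕ) < k → (t' : ℕ) < k → t ≠ t' → Disjoint (M t) (M t')) :
    Helper80.LR.Rect k G := by
  have hex : ∀ t : Fin n, (t : ℕ) < k → ∀ c : Fin n, ∃ s, (c, s) ∈ M t := fun t ht c =>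
    mem_cols.mp ((h1 t ht).1.2.1 c)
  refine ⟨fun t c => if ht : (t : ℕ) < k then Classical.choose (hex t ht c) else c, ?_, ?_, ?_⟩
  · intro t ht c c' hcc
    simp only [dif_pos ht] at hcc
    have e1 := Classical.choose_spec (hex t ht c)
    have e2 := Classical.choose_spec (hex t ht c')
    have := (h1 t ht).1.1.2 _ e1 _ e2 hcc
    exact (Prod.ext_iff.mp this).1
  · intro c t ht t' ht' htt
    have ht : (t : ℕ) < k := ht
    have ht' : (t' : ℕ) < k := ht'
    simp only [dif_pos ht, dif_pos ht'] at htt
    by_contra hne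
    have e1 := Classical.choose_spec (hex t ht c)
    have e2 := Classical.choose_spec (hex t' ht' c)
    rw [htt] at e1
    exact Finset.disjoint_left.mp (h2 t t' ht ht' hne) e1 e2
  · intro t c ht
    simp only [dif_pos ht]
    exact (h1 t ht).2 (Classical.choose_spec (hex t ht c))

end Pool.Agent.Helper40.LS
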