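import Pool.Agent.Helper36.LS.H3

/-! Project LS, module H4: the cells chosen in advance. -/

set_option autoImplicit false
open Classical Filter Topology

namespace Pool.Agent.Helper40.LS

/-- bad vertices: `(t, true, c)` is the column `c` in row `t`, `(t, false, s)` the symbol `s` -/
def h40Bad {n : ℕ} (σ : Fin n → Stat n) (v : Fin n × Bool × Fin n) : Prop :=
  (v.2.1 = true ∧ v.2.2 ∈ (σ v.1).1) ∨ (v.2.1 = false ∧ v.2.2 ∈ (σ v.1).2.1)

/-- the cell of a vertex and a partner -/
def h40Cell {n : ℕ} (v : Fin n × Bool × Fin n) (a : Fin n) : Fin n × Fin n :=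
  if v.2.1 = true then (v.2.2, a) else (a, v.2.2)

/-- candidates -/
noncomputable def h40P {n : ℕ} (σ : Fin n → Stat n) (v : Fin n × Bool × Fin n) : Finset (Fin n) :=
  Finset.univ.filter fun a => h40Cell v a ∈ (σ v.1).2.2 ∧ ¬ h40Bad σ (v.1, !v.2.1, a)

/-- conflicts -/
def h40Conf {n : ℕ} (x y : (Fin n × Bool × Fin n) × Fin n) : Prop :=
  (x.1.1 = y.1.1 ∧ ((h40Cell x.1 x.2).1 = (h40Cell y.1 y.2).1 ∨
    (h40Cell x.1 x.2).2 = (h40Cell y.1 y.2).2)) ∨
  (x.1.1 ≠ y.1.1 ∧ h40Cell x.1 x.2 = h40Cell y.1 y.2)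

theorem h40P_card {n m : ℕ} {ζ : ℝ} {σ : Fin n → Stat n} (h : StatOK σ m ζ)
    (v : Fin n × Bool × Fin n) (hv : h40Bad σ v) : 12 * m ≤ (h40P σ v).card := by
  obtain ⟨t, b, u⟩ := v
  rcases b with _ | _
  · -- symbol
    have hu : u ∈ (σ t).2.1 := by
      rcases hv with h1 | h1
      · exact absurd h1.1 (by simp)
      · exact h1.2
    have h1 := h.d1' t u hu
    have h2 := h.h2 t u
    have h3 : nb (tr (σ t).2.2) u \ ((σ t).1.filter fun c => (c, u) ∈ (σ t).2.2) ⊆
        h40P σ (t, false, u) := by
      intro c hc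
      rw [Finset.mem_sdiff, mem_nb, mem_tr, Finset.mem_filter] at hc
      rw [h40P, Finset.mem_filter]
      refine ⟨Finset.mem_univ _, ?_, ?_⟩
      · simpa [h40Cell] using hc.1
      · rintro (h4 | h4)
        · exact hc.2 ⟨h4.2, hc.1⟩
        · exact absurd h4.1 (by simp)
    have h4 := Finset.card_le_card h3
    have h5 := Finset.le_card_sdiff ((σ t).1.filter fun c => (c, u) ∈ (σ t).2.2)
      (nb (tr (σ t).2.2) u)
    omega
  · have hu : u ∈ (σ t).1 := by
      rcases hv with h1 | h1
      · exact h1.2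
      · exact absurd h1.1 (by simp)
    have h1 := h.d1 t u hu
    have h2 := h.h2' t u
    have h3 : nb (σ t).2.2 u \ ((σ t).2.1.filter fun s => (u, s) ∈ (σ t).2.2) ⊆
        h40P σ (t, true, u) := by
      intro c hc
      rw [Finset.mem_sdiff, mem_nb, Finset.mem_filter] at hc
      rw [h40P, Finset.mem_filter]
      refine ⟨Finset.mem_univ _, ?_, ?_⟩
      · simpa [h40Cell] using hc.1
      · rintro (h4 | h4)
        · exact absurd h4.1 (by simp)
        · exact hc.2 ⟨h4.2, hc.1⟩
    have h4 := Finset.card_le_card h3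
    have h5 := Finset.le_card_sdiff ((σ t).2.1.filter fun s => (u, s) ∈ (σ t).2.2)
      (nb (σ t).2.2 u)
    omega

/-- the number of conflicts -/
theorem h40Conf_card {n m : ℕ} {ζ : ℝ} {σ : Fin n → Stat n} (h : StatOK σ m ζ)
    (v : Fin n × Bool × Fin n) (hv : h40Bad σ v) (a : Fin n) (ha : a ∈ h40P σ v) :
    (Finset.univ.filter fun y : (Fin n × Bool × Fin n) × Fin n => y.1 ≠ v ∧ h40Bad σ y.1 ∧
      y.2 ∈ h40P σ y.1 ∧ h40Conf (v, a) y).card ≤ 3 * m := by
  obtain ⟨t, b, u⟩ := v
  rw [h40P, Finset.mem_filter] at ha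
  obtain ⟨-, ha1, ha2⟩ := ha
  rcases b with _ | _
  · -- symbol `u`, column `a`
    have hu : u ∈ (σ t).2.1 := by
      rcases hv with h1 | h1
      · exact absurd h1.1 (by simp)
      · exact h1.2
    have hsub : (Finset.univ.filter fun y : (Fin n × Bool × Fin n) × Fin n =>
        y.1 ≠ (t, false, u) ∧ h40Bad σ y.1 ∧
        y.2 ∈ h40P σ y.1 ∧ h40Conf ((t, false, u), a) y) ⊆
        (((σ t).2.1.filter fun s => (a, s) ∈ (σ t).2.2).image fun s => ((t, false, s), a)) ∪
        (((Finset.univ.filter fun t' => a ∈ (σ t').1 ∧ (a, u) ∈ (σ t').2.2).image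
          fun t' => ((t', true, a), u)) ∪
        ((Finset.univ.filter fun t' => u ∈ (σ t').2.1 ∧ (a, u) ∈ (σ t').2.2).image
          fun t' => ((t', false, u), a))) := by
      rintro ⟨⟨t', b', u'⟩, a'⟩ hy
      rw [Finset.mem_filter] at hy
      obtain ⟨-, hne, hbad, hP, hc⟩ := hy
      rw [h40P, Finset.mem_filter] at hP
      obtain ⟨-, hP1, hP2⟩ := hP
      simp only [Finset.mem_union, Finset.mem_image, Finset.mem_filter, Finset.mem_univ, true_and,
        Prod.mk.injEq]
      rcases hc with ⟨hc1, hc2⟩ | ⟨hc1, hc2⟩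
      · simp only at hc1
        subst hc1
        rcases b' with _ | _
        · simp only [h40Cell, Bool.false_eq_true, if_false] at hc2 hP1
          rcases hc2 with hc3 | hc3
          · left
            refine ⟨u', ⟨?_, ?_⟩, ⟨rfl, rfl, rfl⟩, hc3⟩
            · rcases hbad with h1 | h1
              · exact absurd h1.1 (by simp)
              · exact h1.2
            · rw [hc3]; exact hP1
          · exact absurd (by rw [hc3]) hne
        · simp only [h40Cell, Bool.false_eq_true, if_false, if_true] at hc2 hP1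
          rcases hc2 with hc3 | hc3
          · exfalso
            refine ha2 (Or.inl ⟨by simp, ?_⟩)
            rcases hbad with h1 | h1
            · simp only; rw [hc3]; exact h1.2
            · exact absurd h1.1 (by simp)
          · exfalso
            refine hP2 (Or.inr ⟨by simp, ?_⟩)
            simp only; rw [← hc3]; exact hu
      · rcases b' with _ | _
        · simp only [h40Cell, Bool.false_eq_true, if_false, Prod.mk.injEq] at hc2 hP1
          right; right
          refine ⟨t', ⟨?_, ?_⟩, ⟨rfl, rfl, hc2.2⟩, hc2.1⟩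
          · rcases hbad with h1 | h1
            · exact absurd h1.1 (by simp)
            · rw [hc2.2]; exact h1.2
          · rw [hc2.1, hc2.2]; exact hP1
        · simp only [h40Cell, Bool.false_eq_true, if_false, if_true, Prod.mk.injEq] at hc2 hP1
          right; left
          refine ⟨t', ⟨?_, ?_⟩, ⟨rfl, rfl, hc2.1⟩, hc2.2⟩
          · rcases hbad with h1 | h1
            · rw [hc2.1]; exact h1.2
            · exact absurd h1.1 (by simp)
          · rw [hc2.1, hc2.2]; exact hP1
    refine (Finset.card_le_card hsub).trans ((Finset.card_union_le _ _).trans ?_)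
    have e1 := (Finset.card_image_le (s := (σ t).2.1.filter fun s => (a, s) ∈ (σ t).2.2)
      (f := fun s => ((t, false, s), a))).trans (h.h2' t a)
    have e2 := Finset.card_union_le ((Finset.univ.filter fun t' => a ∈ (σ t').1 ∧
      (a, u) ∈ (σ t').2.2).image fun t' => ((t', true, a), u))
      ((Finset.univ.filter fun t' => u ∈ (σ t').2.1 ∧ (a, u) ∈ (σ t').2.2).image
          fun t' => ((t', false, u), a))
    have e3 := (Finset.card_image_le (s := Finset.univ.filter fun t' => a ∈ (σ t').1 ∧
      (a, u) ∈ (σ t').2.2) (f := fun t' => ((t', true, a), u))).trans (h.h3 a u)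
    have e4 := (Finset.card_image_le (s := Finset.univ.filter fun t' => u ∈ (σ t').2.1 ∧
      (a, u) ∈ (σ t').2.2) (f := fun t' => ((t', false, u), a))).trans (h.h3' a u)
    omega
  · -- column `u`, symbol `a`
    have hu : u ∈ (σ t).1 := by
      rcases hv with h1 | h1
      · exact h1.2
      · exact absurd h1.1 (by simp)
    have hsub : (Finset.univ.filter fun y : (Fin n × Bool × Fin n) × Fin n =>
        y.1 ≠ (t, true, u) ∧ h40Bad σ y.1 ∧
        y.2 ∈ h40P σ y.1 ∧ h40Conf ((t, true, u), a) y) ⊆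
        (((σ t).1.filter fun c => (c, a) ∈ (σ t).2.2).image fun c => ((t, true, c), a)) ∪
        (((Finset.univ.filter fun t' => u ∈ (σ t').1 ∧ (u, a) ∈ (σ t').2.2).image
          fun t' => ((t', true, u), a)) ∪
        ((Finset.univ.filter fun t' => a ∈ (σ t').2.1 ∧ (u, a) ∈ (σ t').2.2).image
          fun t' => ((t', false, a), u))) := by
      rintro ⟨⟨t', b', u'⟩, a'⟩ hy
      rw [Finset.mem_filter] at hy
      obtain ⟨-, hne, hbad, hP, hc⟩ := hy
      rw [h40P, Finset.mem_filter] at hP
      obtain ⟨-, hP1, hP2⟩ := hP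
      simp only [Finset.mem_union, Finset.mem_image, Finset.mem_filter, Finset.mem_univ, true_and,
        Prod.mk.injEq]
      rcases hc with ⟨hc1, hc2⟩ | ⟨hc1, hc2⟩
      · simp only at hc1
        subst hc1
        rcases b' with _ | _
        · simp only [h40Cell, Bool.false_eq_true, if_false, if_true] at hc2 hP1
          rcases hc2 with hc3 | hc3
          · exfalso
            refine hP2 (Or.inl ⟨by simp, ?_⟩)
            simp only; rw [← hc3]; exact hu
          · exfalso
            refine ha2 (Or.inr ⟨by simp, ?_⟩)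
            rcases hbad with h1 | h1
            · exact absurd h1.1 (by simp)
            · simp only; rw [hc3]; exact h1.2
        · simp only [h40Cell, if_true] at hc2 hP1
          rcases hc2 with hc3 | hc3
          · exact absurd (by rw [hc3]) hne
          · left
            refine ⟨u', ⟨?_, ?_⟩, ⟨rfl, rfl, rfl⟩, hc3⟩
            · rcases hbad with h1 | h1
              · exact h1.2
              · exact absurd h1.1 (by simp)
            · rw [hc3]; exact hP1
      · rcases b' with _ | _
        · simp only [h40Cell, Bool.false_eq_true, if_false, if_true, Prod.mk.injEq] at hc2 hP1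
          right; right
          refine ⟨t', ⟨?_, ?_⟩, ⟨rfl, rfl, hc2.2⟩, hc2.1⟩
          · rcases hbad with h1 | h1
            · exact absurd h1.1 (by simp)
            · rw [hc2.2]; exact h1.2
          · rw [hc2.1, hc2.2]; exact hP1
        · simp only [h40Cell, if_true, Prod.mk.injEq] at hc2 hP1
          right; left
          refine ⟨t', ⟨?_, ?_⟩, ⟨rfl, rfl, hc2.1⟩, hc2.2⟩
          · rcases hbad with h1 | h1
            · rw [hc2.1]; exact h1.2
            · exact absurd h1.1 (by simp)
          · rw [hc2.1, hc2.2]; exact hP1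
    refine (Finset.card_le_card hsub).trans ((Finset.card_union_le _ _).trans ?_)
    have e1 := (Finset.card_image_le (s := (σ t).1.filter fun c => (c, a) ∈ (σ t).2.2)
      (f := fun c => ((t, true, c), a))).trans (h.h2 t a)
    have e2 := Finset.card_union_le ((Finset.univ.filter fun t' => u ∈ (σ t').1 ∧
      (u, a) ∈ (σ t').2.2).image fun t' => ((t', true, u), a))
      ((Finset.univ.filter fun t' => a ∈ (σ t').2.1 ∧ (u, a) ∈ (σ t').2.2).image
          fun t' => ((t', false, a), u))
    have e3 := (Finset.card_image_le (s := Finset.univ.filter fun t' => u ∈ (σ t').1 ∧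
      (u, a) ∈ (σ t').2.2) (f := fun t' => ((t', true, u), a))).trans (h.h3 u a)
    have e4 := (Finset.card_image_le (s := Finset.univ.filter fun t' => a ∈ (σ t').2.1 ∧
      (u, a) ∈ (σ t').2.2) (f := fun t' => ((t', false, a), u))).trans (h.h3' u a)
    omega

/-- LS-H4: the cells chosen in advance -/
theorem exists_M0 {n m : ℕ} {ζ : ℝ} (σ : Fin n → Stat n) (hm : 1 ≤ m) (h : StatOK σ m ζ) :
    ∃ M0 : Fin n → Gr n, Pre σ M0 ζ := by
  obtain ⟨f, hf1, hf2⟩ := indep_transversal (ι := {v : Fin n × Bool × Fin n // h40Bad σ v})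
    (α := Fin n) (fun v => h40P σ v.1)
    (fun x y => h40Conf (x.1.1, x.2) (y.1.1, y.2))
    (by
      rintro x y (⟨h1, h2⟩ | ⟨h1, h2⟩)
      · exact Or.inl ⟨h1.symm, h2.imp Eq.symm Eq.symm⟩
      · exact Or.inr ⟨fun h3 => h1 h3.symm, h2.symm⟩)
    (3 * m) (12 * m) (by omega) (by omega) (fun v => h40P_card h v.1 v.2)
    (by
      intro i a ha
      refine le_trans ?_ (h40Conf_card h i.1 i.2 a ha)
      refine Finset.card_le_card_of_injOn (fun y => (y.1.1, y.2)) (fun y hy => ?_)
        (fun y _ y' _ hyy => ?_)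
      · simp only [Finset.coe_filter, Set.mem_ofPred_eq, Finset.mem_univ, true_and] at hy ⊢
        exact ⟨fun h1 => hy.1 (Subtype.ext h1), y.1.2, hy.2.1, hy.2.2⟩
      · simp only [Prod.mk.injEq] at hyy
        exact Prod.ext (Subtype.ext hyy.1) hyy.2)
  refine ⟨fun t => (Finset.univ.filter fun v : {v : Fin n × Bool × Fin n // h40Bad σ v} =>
    v.1.1 = t).image fun v => h40Cell v.1 (f v), ?_⟩
  have hmem : ∀ t e, e ∈ ((Finset.univ.filter fun v : {v : Fin n × Bool × Fin n // h40Bad σ v} =>
      v.1.1 = t).image fun v => h40Cell v.1 (f v)) ↔ ∃ v : {v : Fin n × Bool × Fin n // h40Bad σ v},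
        v.1.1 = t ∧ h40Cell v.1 (f v) = e := by
    intro t e
    simp only [Finset.mem_image, Finset.mem_filter, Finset.mem_univ, true_and]
  have hsub : ∀ t, ((Finset.univ.filter fun v : {v : Fin n × Bool × Fin n // h40Bad σ v} =>
      v.1.1 = t).image fun v => h40Cell v.1 (f v)) ⊆ (σ t).2.2 := by
    intro t e he
    rw [hmem] at he
    obtain ⟨v, rfl, rfl⟩ := he
    have := hf1 v
    rw [h40P, Finset.mem_filter] at this
    exact this.2.1
  refine ⟨fun t => ⟨?_, ?_⟩, hsub, fun t c hc => ?_, fun t s hs => ?_, fun t t' htt => ?_,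
    fun t => ?_, fun c => ?_, fun s => ?_⟩
  · intro e he e' he' hee
    rw [hmem] at he he'
    obtain ⟨v, hv, rfl⟩ := he
    obtain ⟨v', hv', rfl⟩ := he'
    by_cases hvv : v = v'
    · rw [hvv]
    · exact absurd (Or.inl ⟨by rw [hv, hv'], Or.inl hee⟩) (hf2 v v' hvv)
  · intro e he e' he' hee
    rw [hmem] at he he'
    obtain ⟨v, hv, rfl⟩ := he
    obtain ⟨v', hv', rfl⟩ := he'
    by_cases hvv : v = v'
    · rw [hvv]
    · exact absurd (Or.inl ⟨by rw [hv, hv'], Or.inr hee⟩) (hf2 v v' hvv)
  · rw [mem_cols]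
    refine ⟨f ⟨(t, true, c), Or.inl ⟨rfl, hc⟩⟩, ?_⟩
    rw [hmem]
    exact ⟨⟨(t, true, c), Or.inl ⟨rfl, hc⟩⟩, rfl, by simp [h40Cell]⟩
  · rw [mem_syms]
    refine ⟨f ⟨(t, false, s), Or.inr ⟨rfl, hs⟩⟩, ?_⟩
    rw [hmem]
    exact ⟨⟨(t, false, s), Or.inr ⟨rfl, hs⟩⟩, rfl, by simp [h40Cell]⟩
  · rw [Finset.disjoint_left]
    intro e he he'
    rw [hmem] at he he'
    obtain ⟨v, hv, hve⟩ := he
    obtain ⟨v', hv', hve'⟩ := he'
    have hvv : v ≠ v' := by
      intro h1
      rw [h1, hv'] at hv
      exact htt hv.symm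
    exact absurd (Or.inr ⟨by rw [hv, hv']; exact htt, by rw [hve, hve']⟩) (hf2 v v' hvv)
  · have h1 : ((Finset.univ.filter fun v : {v : Fin n × Bool × Fin n // h40Bad σ v} =>
      v.1.1 = t).image fun v => h40Cell v.1 (f v)).card ≤ (σ t).1.card + (σ t).2.1.card := by
      refine Finset.card_image_le.trans ?_
      have h2 : (Finset.univ.filter fun v : {v : Fin n × Bool × Fin n // h40Bad σ v} =>
          v.1.1 = t).card ≤ (((σ t).1.image fun c => ((t, true, c) : Fin n × Bool × Fin n)) ∪
          ((σ t).2.1.image fun c => ((t, false, c) : Fin n × Bool × Fin n))).card := by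
        refine Finset.card_le_card_of_injOn (fun v => v.1) (fun v hv => ?_)
          (fun v _ v' _ hvv => Subtype.ext hvv)
        rw [Finset.mem_coe, Finset.mem_filter] at hv
        obtain ⟨⟨t', b, u⟩, hb⟩ := v
        have hv2 : t' = t := hv.2
        subst hv2
        rw [Finset.mem_coe, Finset.mem_union, Finset.mem_image, Finset.mem_image]
        rcases hb with ⟨hb1, hb2⟩ | ⟨hb1, hb2⟩
        · left
          simp only at hb1 hb2
          subst hb1
          exact ⟨u, hb2, rfl⟩
        · right
          simp only at hb1 hb2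
          subst hb1
          exact ⟨u, hb2, rfl⟩
      refine h2.trans ((Finset.card_union_le _ _).trans (Nat.add_le_add ?_ ?_))
      · exact Finset.card_image_le
      · exact Finset.card_image_le
    have h3 : ((((Finset.univ.filter fun v : {v : Fin n × Bool × Fin n // h40Bad σ v} =>
      v.1.1 = t).image fun v => h40Cell v.1 (f v)).card : ℕ) : ℝ) ≤
        (σ t).1.card + (σ t).2.1.card := by exact_mod_cast h1
    have h4 := h.sz t
    have h5 := h.sz' t
    linarith
  · refine le_trans ?_ (h.dg c)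
    have : (Finset.univ.filter fun t => c ∈ cols ((Finset.univ.filter
        fun v : {v : Fin n × Bool × Fin n // h40Bad σ v} => v.1.1 = t).image
          fun v => h40Cell v.1 (f v))) ⊆
        Finset.univ.filter fun t => ∃ s, (c, s) ∈ (σ t).2.2 := by
      intro t ht
      rw [Finset.mem_filter, mem_cols] at ht
      rw [Finset.mem_filter]
      obtain ⟨-, s, hs⟩ := ht
      exact ⟨Finset.mem_univ _, s, hsub t hs⟩
    exact_mod_cast Finset.card_le_card this
  · refine le_trans ?_ (h.dg' s)
    have : (Finset.univ.filter fun t => s ∈ syms ((Finset.univ.filter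
        fun v : {v : Fin n × Bool × Fin n // h40Bad σ v} => v.1.1 = t).image
          fun v => h40Cell v.1 (f v))) ⊆
        Finset.univ.filter fun t => ∃ c, (c, s) ∈ (σ t).2.2 := by
      intro t ht
      rw [Finset.mem_filter, mem_syms] at ht
      rw [Finset.mem_filter]
      obtain ⟨-, c, hc⟩ := ht
      exact ⟨Finset.mem_univ _, c, hsub t hc⟩
    exact_mod_cast Finset.card_le_card this

end Pool.Agent.Helper40.LS
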