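import Pool.Agent.Helper40.LS.Basic

/-! Project LS, module Q12: maximal degree. -/

set_option autoImplicit false
open Classical Filter Topology

namespace Pool.Agent.Helper40.LS

/-- LS-Q12: maximal degree -/
theorem pr_maxdeg : ∀ᶠ n : ℕ in atTop, ∀ p : ℝ, 0 ≤ p → p ≤ 1 → p ≤ Real.log n / n →
    Ex p (fun G : Gr n => ind (∃ c, 8 * Real.log n < ((nb G c).card : ℝ))) ≤
      (n : ℝ) ^ (-(2 : ℝ)) := by
  filter_upwards [eventually_ge_atTop 3] with n hn p h0 h1 hp
  have hn0 : (0 : ℝ) < n := by
    have : (3 : ℝ) ≤ n := by exact_mod_cast hn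
    linarith
  have hL : 0 < Real.log n := Real.log_pos (by
    have : (3 : ℝ) ≤ n := by exact_mod_cast hn
    linarith)
  have hlog8 : (2 : ℝ) ≤ Real.log 8 := by
    have h : Real.log 8 = 3 * Real.log 2 := by
      rw [show (8 : ℝ) = 2 ^ 3 by norm_num, Real.log_pow]
      norm_num
    have h2 := Real.log_two_gt_d9
    rw [h]
    linarith
  have hone : ∀ c : Fin n,
      Ex p (fun G : Gr n => ind (8 * Real.log n < ((nb G c).card : ℝ))) ≤
        (n : ℝ) ^ (-(3 : ℝ)) := by
    intro c
    rw [Ex_ind]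
    have hA : ((box ({c} : Finset (Fin n)) Finset.univ).card : ℝ) = n := by
      unfold box
      rw [Finset.card_product, Finset.card_singleton, Finset.card_univ, Fintype.card_fin, one_mul]
    have hv : p * ((box ({c} : Finset (Fin n)) Finset.univ).card : ℝ) ≤ Real.log n := by
      rw [hA]
      rw [le_div_iff₀ hn0] at hp
      exact hp
    have h := tail_hits h0 h1 (box ({c} : Finset (Fin n)) Finset.univ)
      (L := 8 * Real.log n) (v := Real.log n) (by positivity) hv hL (by linarith)
    refine le_trans (FL.Pr_mono h0 h1 fun G hG => ?_) (h.trans ?_)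
    · rw [card_box_eq_sum, Finset.sum_singleton, Finset.inter_univ]
      exact hG.le
    · rw [show 8 * Real.log n / Real.log n = 8 by field_simp, Real.rpow_def_of_pos hn0]
      refine Real.exp_le_exp.2 ?_
      nlinarith
  calc Ex p (fun G : Gr n => ind (∃ c, 8 * Real.log n < ((nb G c).card : ℝ)))
      ≤ Ex p (fun G : Gr n => ∑ c : Fin n, ind (8 * Real.log n < ((nb G c).card : ℝ))) := by
        refine Ex_mono h0 h1 fun G => ?_
        refine le_trans (ind_mono ?_) (ind_exists_le Finset.univ
          fun c : Fin n => 8 * Real.log n < ((nb G c).card : ℝ))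
        rintro ⟨c, hc⟩
        exact ⟨c, Finset.mem_univ _, hc⟩
    _ = ∑ c : Fin n, Ex p (fun G : Gr n => ind (8 * Real.log n < ((nb G c).card : ℝ))) :=
        Ex_sum p Finset.univ fun (c : Fin n) (G : Gr n) =>
          ind (8 * Real.log n < ((nb G c).card : ℝ))
    _ ≤ ∑ _c : Fin n, (n : ℝ) ^ (-(3 : ℝ)) := Finset.sum_le_sum fun c _ => hone c
    _ = (n : ℝ) ^ (-(2 : ℝ)) := by
        rw [Finset.sum_const, Finset.card_univ, Fintype.card_fin, nsmul_eq_mul,
          show (-(2 : ℝ)) = 1 + (-3) by norm_num, Real.rpow_add hn0, Real.rpow_one]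

end Pool.Agent.Helper40.LS
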