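import Pool.Agent.Helper40.LS.Basic

/-! # LS-Q17 and LS-N1 (helper45) -/

set_option autoImplicit false
open Classical Filter Topology

namespace Pool.Agent.Helper40.LS

/-- LS-Q17: fewer rows -/
theorem prRect_anti {n k k' : ℕ} (h : k ≤ k') {p : ℝ} (h0 : 0 ≤ p) (h1 : p ≤ 1) :
    Helper80.LR.prRect n k' p ≤ Helper80.LR.prRect n k p := by
  unfold Helper80.LR.prRect
  refine Finset.sum_le_sum_of_subset_of_nonneg ?_
    (fun S _ _ => mul_nonneg (pow_nonneg h0 _) (pow_nonneg (by linarith) _))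
  intro S hS
  simp only [Finset.mem_filter, Finset.mem_univ, true_and] at hS ⊢
  obtain ⟨L, h1, h2, h3⟩ := hS
  exact ⟨L, fun i hi => h1 i (lt_of_lt_of_le hi h),
    fun j => (h2 j).mono fun i hi => lt_of_lt_of_le hi h,
    fun i j hi => h3 i j (lt_of_lt_of_le hi h)⟩

/-- LS-N1: choice of the parameters -/
theorem exists_par (δ ε : ℝ) (hδ : 0 < δ) (hδ1 : δ < 1) (hε : 0 < ε) (hε1 : ε < 1)
    (SA : ℝ → Prop) (hSA : ∃ d, 0 < d ∧ SA d) (SC : ℝ → ℝ → Prop)
    (hSC : ∀ z0, 0 < z0 → ∃ d, 0 < d ∧ SC z0 d) :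
    ∃ dA h z0 dC ζ : ℝ, Par δ ε dA h z0 dC ζ ∧ SA dA ∧ SC z0 dC := by
  obtain ⟨dA, hdA, hSAd⟩ := hSA
  set h1 : ℝ := (δ / 8) / (32 * Real.exp 1) * Real.exp (-(320 / (ε * (δ / 8)))) with hh1
  set h2 : ℝ := (δ / 8) ^ 2 / 20000 with hh2
  have p1 : 0 < h1 := by
    have : 0 < Real.exp 1 := Real.exp_pos _
    positivity
  have p2 : 0 < h2 := by positivity
  set h : ℝ := min h1 (min h2 (dA / 2)) with hh
  have ph : 0 < h := lt_min p1 (lt_min p2 (half_pos hdA))
  set z0 : ℝ := h ^ 2 * Real.exp (-(8 / δ)) with hz0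
  have pz : 0 < z0 := mul_pos (pow_pos ph 2) (Real.exp_pos _)
  obtain ⟨dC, hdC, hSCd⟩ := hSC z0 pz
  set ζ : ℝ := min (h / 8) (min (δ * z0 / 64) (min ((δ / 8) ^ 2 * z0 / 4000) (z0 / 100))) with hζ
  have pζ : 0 < ζ := by
    refine lt_min (by positivity) (lt_min (by positivity) (lt_min (by positivity) (by positivity)))
  refine ⟨dA, h, z0, dC, ζ, ?_, hSAd, hSCd⟩
  refine { δ0 := hδ, δ1 := hδ1, ε0 := hε, ε1 := hε1, dA0 := hdA, h0 := ph, h1 := min_le_left _ _,
           h2 := (min_le_right _ _).trans (min_le_left _ _), h3 := ?_, zpos := pz, z1 := ?_,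
           dC0 := hdC, ζ0 := pζ, ζ1 := min_le_left _ _,
           ζ2 := (min_le_right _ _).trans (min_le_left _ _),
           ζ3 := (min_le_right _ _).trans ((min_le_right _ _).trans (min_le_left _ _)),
           ζ4 := (min_le_right _ _).trans ((min_le_right _ _).trans (min_le_right _ _)) }
  · have : h ≤ dA / 2 := (min_le_right _ _).trans (min_le_right _ _)
    linarith
  · rw [hz0, mul_assoc, ← Real.exp_add, neg_add_cancel, Real.exp_zero, mul_one]

end Pool.Agent.Helper40.LS
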