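import Pool.Agent.Helper40.LS.Basic

/-! Project LS, module Q14: symmetry between columns and symbols. -/

set_option autoImplicit false
open Classical Filter Topology

namespace Pool.Agent.Helper40.LS

theorem swapR_swapR {n : ℕ} (x : Row n) : swapR (swapR x) = x := by
  obtain ⟨A, C, S⟩ := x
  change (tr (tr A), C, S) = (A, C, S)
  rw [tr_tr]

theorem rwt_swapR {n : ℕ} (pa pc : ℝ) (x : Row n) : rwt n pa pc (swapR x) = rwt n pa pc x := by
  obtain ⟨A, C, S⟩ := x
  change FL.wt pa (tr A) * (FL.wt pc S * FL.wt pc C) = FL.wt pa A * (FL.wt pc C * FL.wt pc S)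
  rw [wt_tr]
  ring

/-- LS-Q14: symmetry -/
theorem PR_swap {n : ℕ} (pa pc : ℝ) (P : (Fin n → Row n) → Prop) :
    PR n pa pc (fun x => P fun t => swapR (x t)) = PR n pa pc P := by
  rw [PR_eq, PR_eq]
  refine Finset.sum_nbij' (fun x t => swapR (x t)) (fun x t => swapR (x t))
    (fun _ _ => Finset.mem_univ _) (fun _ _ => Finset.mem_univ _) (fun x _ => ?_)
    (fun x _ => ?_) (fun x _ => ?_)
  · funext t
    exact swapR_swapR _
  · funext t
    exact swapR_swapR _
  · have h : ∏ t, rwt n pa pc (swapR (x t)) = ∏ t, rwt n pa pc (x t) :=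
      Finset.prod_congr rfl fun t _ => rwt_swapR pa pc (x t)
    rw [h]

theorem tr_touch {n : ℕ} (B B' : Finset (Fin n)) : tr (touch B B') = touch B' B := by
  ext e
  rw [mem_tr']
  simp [touch, or_comm]

theorem stat_swap {n : ℕ} (R : Gr n) (b : ℝ) (x : Row n) :
    stat (tr R) b (swapR x) = ((stat R b x).2.1, (stat R b x).1, tr (stat R b x).2.2) := by
  obtain ⟨A, C, S⟩ := x
  change (bad (tr R) S b, bad (tr (tr R)) C b,
    tr A ∩ touch (bad (tr R) S b) (bad (tr (tr R)) C b)) =
    (bad (tr R) S b, bad R C b, tr (A ∩ touch (bad R C b) (bad (tr R) S b)))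
  rw [tr_tr, tr_inter, tr_touch]

end Pool.Agent.Helper40.LS
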