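import Pool.Agent.Helper40.LS.Basic

/-! Project LS, tools for the modules S2 and S3. -/

set_option autoImplicit false
open Classical Filter Topology

namespace Pool.Agent.Helper40.LS

/-- the probability that a set is contained in the random set -/
theorem h28_Pr_subset {X : Type} [Fintype X] [DecidableEq X] (p : ℝ) (D : Finset X) :
    FL.Pr p (fun S : Finset X => D ⊆ S) = p ^ D.card := by
  rw [Pr_eq]
  have h := Finset.prod_add (fun _ : X => p) (fun x : X => if x ∈ D then (0 : ℝ) else 1 - p)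
    Finset.univ
  have h1 : ∏ x : X, (p + if x ∈ D then (0 : ℝ) else 1 - p) = p ^ D.card := by
    have h2 : ∀ x : X, (p + if x ∈ D then (0 : ℝ) else 1 - p) = if x ∈ D then p else 1 := by
      intro x
      split_ifs <;> ring
    rw [Finset.prod_congr rfl fun x _ => h2 x, Finset.prod_ite_mem, Finset.univ_inter,
      Finset.prod_const]
  rw [h1, Finset.powerset_univ] at h
  rw [h]
  refine Finset.sum_congr rfl fun S _ => ?_
  unfold FL.wt
  rw [Finset.prod_const, mul_assoc]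
  congr 1
  by_cases hD : D ⊆ S
  · rw [ind_true hD, mul_one]
    have h3 : ∀ x ∈ Finset.univ \ S, (if x ∈ D then (0 : ℝ) else 1 - p) = 1 - p := by
      intro x hx
      rw [if_neg]
      intro hxD
      exact (Finset.mem_sdiff.1 hx).2 (hD hxD)
    rw [Finset.prod_congr rfl h3, Finset.prod_const,
      Finset.card_sdiff_of_subset (Finset.subset_univ S), Finset.card_univ]
  · rw [ind_false hD, mul_zero]
    obtain ⟨x, hx, hxS⟩ := Finset.not_subset.1 hD
    symm
    refine Finset.prod_eq_zero (Finset.mem_sdiff.2 ⟨Finset.mem_univ x, hxS⟩) ?_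
    rw [if_pos hx]

/-- the columns of `Γ` are bad and have a cell with the symbol `s` in the graph `A` -/
theorem h28_row {n : ℕ} {pa pc : ℝ} (ha : 0 ≤ pa) (ha1 : pa ≤ 1) (hc : 0 ≤ pc) (hc1 : pc ≤ 1)
    (R : Gr n) (b q : ℝ)
    (hq : ∀ Γ : Finset (Fin n), Ex pc (fun C : Gr n => ind (Γ ⊆ bad R C b)) ≤ q ^ Γ.card)
    (Γ : Finset (Fin n)) (s : Fin n) :
    ∑ x ∈ (Finset.univ : Finset (Row n)).filter (fun x => Γ ⊆ (stat R b x).1 ∧
      ∀ c ∈ Γ, (c, s) ∈ (stat R b x).2.2), rwt n pa pc x ≤ (q * pa) ^ Γ.card := by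
  set D : Gr n := Γ.image fun c => (c, s) with hDdef
  have hDcard : D.card = Γ.card :=
    Finset.card_image_of_injective _ fun a b h => (Prod.mk.inj h).1
  have h1 : ∑ x ∈ (Finset.univ : Finset (Row n)).filter (fun x => Γ ⊆ (stat R b x).1 ∧
      ∀ c ∈ Γ, (c, s) ∈ (stat R b x).2.2), rwt n pa pc x ≤
      ∑ x : Row n, rwt n pa pc x * (ind (Γ ⊆ bad R x.2.1 b) * ind (D ⊆ x.1)) := by
    rw [Finset.sum_filter]
    refine Finset.sum_le_sum fun x _ => ?_
    have hw := rwt_nonneg ha ha1 hc hc1 x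
    split_ifs with hx
    · have hb : Γ ⊆ bad R x.2.1 b := hx.1
      have hD : D ⊆ x.1 := by
        intro e he
        rw [hDdef, Finset.mem_image] at he
        obtain ⟨c, hcΓ, rfl⟩ := he
        have h := hx.2 c hcΓ
        unfold stat at h
        exact (Finset.mem_inter.1 h).1
      rw [ind_true hb, ind_true hD, one_mul, mul_one]
    · exact mul_nonneg hw (mul_nonneg (ind_nonneg _) (ind_nonneg _))
  refine h1.trans ?_
  rw [sum_row pa pc fun A C _ => ind (Γ ⊆ bad R C b) * ind (D ⊆ A)]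
  have hconst : ∀ (p a : ℝ), Ex (n := n) p (fun _ => a) = a := by
    intro p a
    have h := Ex_mul (n := n) p a (fun _ => 1)
    rw [Ex_one, mul_one] at h
    simpa using h
  have h2 : ∀ A : Gr n, Ex pc (fun C : Gr n => Ex pc fun _ : Gr n =>
      ind (Γ ⊆ bad R C b) * ind (D ⊆ A)) =
      Ex pc (fun C : Gr n => ind (Γ ⊆ bad R C b)) * ind (D ⊆ A) := by
    intro A
    have h3 : (fun C : Gr n => Ex pc fun _ : Gr n => ind (Γ ⊆ bad R C b) * ind (D ⊆ A)) =
        fun C : Gr n => ind (D ⊆ A) * ind (Γ ⊆ bad R C b) := by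
      funext C
      rw [hconst, mul_comm]
    rw [h3, Ex_mul, mul_comm]
  have h4 : (Ex pa fun A : Gr n => Ex pc fun C : Gr n => Ex pc fun _ : Gr n =>
      ind (Γ ⊆ bad R C b) * ind (D ⊆ A)) =
      Ex pc (fun C : Gr n => ind (Γ ⊆ bad R C b)) * Ex pa (fun A : Gr n => ind (D ⊆ A)) := by
    rw [← Ex_mul]
    exact congrArg _ (funext h2)
  rw [h4, Ex_ind pa (fun A : Gr n => D ⊆ A), h28_Pr_subset, hDcard, mul_pow]
  exact mul_le_mul_of_nonneg_right (hq Γ) (pow_nonneg ha _)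

theorem h28_eventually (ε : ℝ) (hε : 0 < ε) :
    ∀ᶠ n : ℕ in atTop, 3 ≤ n ∧ 0 ≤ pa ε n ∧ pa ε n ≤ 1 ∧ 0 ≤ pc ε n ∧ pc ε n ≤ 1 := by
  have h1 : Tendsto (fun n : ℕ => Real.log n / (n : ℝ)) atTop (𝓝 0) :=
    (Real.isLittleO_log_id_atTop.tendsto_div_nhds_zero).comp tendsto_natCast_atTop_atTop
  have h2 := h1.const_mul (ε / 8)
  have h3 := h1.const_mul (2 + ε / 2)
  rw [mul_zero] at h2 h3
  filter_upwards [h2.eventually (ge_mem_nhds (show (0 : ℝ) < 1 by norm_num)),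
    h3.eventually (ge_mem_nhds (show (0 : ℝ) < 1 by norm_num)), eventually_ge_atTop 3]
    with n hn hn' hn3
  have hn3' : (3 : ℝ) ≤ n := by exact_mod_cast hn3
  have hL : 0 < Real.log n := Real.log_pos (by linarith)
  have hn0 : (0 : ℝ) < n := by linarith
  refine ⟨hn3, ?_, ?_, ?_, ?_⟩
  · unfold pa; positivity
  · unfold pa; rw [mul_div_assoc]; exact hn'
  · unfold pc; positivity
  · unfold pc; rw [mul_div_assoc]; exact hn

/-- the number which occurs in S2 and S3 tends to zero -/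
theorem h28_count (ε a : ℝ) (hε : 0 < ε) (ha : 0 < a) (m : ℕ) (hm : 5 ≤ a * m) (η : ℝ)
    (hη : 0 < η) :
    ∀ᶠ n : ℕ in atTop, (n : ℝ) ^ 2 * ((n.choose (m + 1) : ℕ) : ℝ) *
      ((n : ℝ) ^ (-a) * pa ε n) ^ (m + 1) ≤ η := by
  have h1 : Tendsto (fun n : ℕ => (Real.log n) ^ (m + 1) / (n : ℝ)) atTop (𝓝 0) :=
    ((Real.isLittleO_pow_log_id_atTop (n := m + 1)).tendsto_div_nhds_zero).comp
      tendsto_natCast_atTop_atTop
  have h2 := h1.const_mul ((2 + ε / 2) ^ (m + 1))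
  rw [mul_zero] at h2
  filter_upwards [h2.eventually (ge_mem_nhds hη), eventually_ge_atTop 3] with n hn hn3
  have hn3' : (3 : ℝ) ≤ n := by exact_mod_cast hn3
  have hn0 : (0 : ℝ) < n := by linarith
  have hL : 0 < Real.log n := Real.log_pos (by linarith)
  have hch : ((n.choose (m + 1) : ℕ) : ℝ) ≤ (n : ℝ) ^ (m + 1) := by
    exact_mod_cast Nat.choose_le_pow n (m + 1)
  have hna : ((n : ℝ) ^ (-a)) ^ (m + 1) ≤ (n : ℝ) ^ (-(5 : ℝ)) := by
    rw [← Real.rpow_natCast, ← Real.rpow_mul hn0.le]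
    refine Real.rpow_le_rpow_of_exponent_le (by linarith) ?_
    push_cast
    nlinarith
  have hpa : (n : ℝ) ^ (m + 1) * (pa ε n) ^ (m + 1) = ((2 + ε / 2) * Real.log n) ^ (m + 1) := by
    rw [← mul_pow]
    congr 1
    unfold pa
    field_simp
  have hpa0 : 0 ≤ pa ε n := by unfold pa; positivity
  calc (n : ℝ) ^ 2 * ((n.choose (m + 1) : ℕ) : ℝ) * ((n : ℝ) ^ (-a) * pa ε n) ^ (m + 1)
      ≤ (n : ℝ) ^ 2 * (n : ℝ) ^ (m + 1) * ((n : ℝ) ^ (-a) * pa ε n) ^ (m + 1) := by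
        refine mul_le_mul_of_nonneg_right (mul_le_mul_of_nonneg_left hch (by positivity)) ?_
        exact pow_nonneg (mul_nonneg (Real.rpow_nonneg hn0.le _) hpa0) _
    _ = (n : ℝ) ^ 2 * ((n : ℝ) ^ (-a)) ^ (m + 1) * ((2 + ε / 2) * Real.log n) ^ (m + 1) := by
        rw [← hpa, mul_pow]
        ring
    _ ≤ (n : ℝ) ^ 2 * (n : ℝ) ^ (-(5 : ℝ)) * ((2 + ε / 2) * Real.log n) ^ (m + 1) := by
        refine mul_le_mul_of_nonneg_right (mul_le_mul_of_nonneg_left hna (by positivity)) ?_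
        positivity
    _ = (n : ℝ) ^ (-(2 : ℝ)) *
          ((2 + ε / 2) ^ (m + 1) * ((Real.log n) ^ (m + 1) / (n : ℝ))) := by
        have h5 : (n : ℝ) ^ (-(5 : ℝ)) = (n : ℝ) ^ (-(2 : ℝ)) * (n : ℝ) ^ (-(3 : ℝ)) := by
          rw [← Real.rpow_add hn0]
          norm_num
        have h3 : (n : ℝ) ^ (-(3 : ℝ)) = ((n : ℝ) ^ 3)⁻¹ := by
          rw [Real.rpow_neg hn0.le]
          norm_num
        rw [h5, h3, mul_pow]
        field_simp
    _ ≤ 1 * ((2 + ε / 2) ^ (m + 1) * ((Real.log n) ^ (m + 1) / (n : ℝ))) := by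
        refine mul_le_mul_of_nonneg_right ?_ (by positivity)
        exact Real.rpow_le_one_of_one_le_of_nonpos (by linarith) (by norm_num)
    _ ≤ η := by
        rw [one_mul]
        exact hn

end Pool.Agent.Helper40.LS
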