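import Pool.Agent.Helper40.LS.Q5
import Pool.Agent.Helper40.LS.S23

/-! Project LS, module S2: bad neighbours in a row. -/

set_option autoImplicit false
open Classical Filter Topology

namespace Pool.Agent.Helper40.LS

/-- a row with more than `m` bad columns which have a cell with the symbol `s` -/
theorem h28_row_many {n : ℕ} {pa pc : ℝ} (ha : 0 ≤ pa) (ha1 : pa ≤ 1) (hc : 0 ≤ pc)
    (hc1 : pc ≤ 1) (R : Gr n) (b q : ℝ)
    (hq : ∀ Γ : Finset (Fin n), Ex pc (fun C : Gr n => ind (Γ ⊆ bad R C b)) ≤ q ^ Γ.card)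
    (m : ℕ) (s : Fin n) :
    ∑ x ∈ (Finset.univ : Finset (Row n)).filter (fun x => ¬ ((stat R b x).1.filter fun c =>
        (c, s) ∈ (stat R b x).2.2).card ≤ m), rwt n pa pc x ≤
      (n.choose (m + 1) : ℝ) * (q * pa) ^ (m + 1) := by
  set T := Finset.powersetCard (m + 1) (Finset.univ : Finset (Fin n)) with hT
  have h1 : ∑ x ∈ (Finset.univ : Finset (Row n)).filter (fun x => ¬ ((stat R b x).1.filter fun c =>
        (c, s) ∈ (stat R b x).2.2).card ≤ m), rwt n pa pc x ≤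
      ∑ Γ ∈ T, ∑ x ∈ (Finset.univ : Finset (Row n)).filter (fun x => Γ ⊆ (stat R b x).1 ∧
      ∀ c ∈ Γ, (c, s) ∈ (stat R b x).2.2), rwt n pa pc x := by
    simp only [Finset.sum_filter]
    rw [Finset.sum_comm]
    refine Finset.sum_le_sum fun x _ => ?_
    have hw := rwt_nonneg ha ha1 hc hc1 x
    split_ifs with hx
    · exact Finset.sum_nonneg fun Γ _ => by split_ifs <;> first | exact hw | exact le_rfl
    · push Not at hx
      obtain ⟨Γ, hΓ, hΓc⟩ := Finset.exists_subset_card_eq (Nat.succ_le_of_lt hx)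
      have hΓT : Γ ∈ T := Finset.mem_powersetCard.2 ⟨Finset.subset_univ Γ, hΓc⟩
      have hev : Γ ⊆ (stat R b x).1 ∧ ∀ c ∈ Γ, (c, s) ∈ (stat R b x).2.2 :=
        ⟨fun c hc => (Finset.mem_filter.1 (hΓ hc)).1, fun c hc => (Finset.mem_filter.1 (hΓ hc)).2⟩
      refine le_trans ?_ (Finset.single_le_sum (f := fun Γ => if Γ ⊆ (stat R b x).1 ∧
        ∀ c ∈ Γ, (c, s) ∈ (stat R b x).2.2 then rwt n pa pc x else 0)
        (fun Γ _ => by split_ifs <;> first | exact hw | exact le_rfl) hΓT)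
      rw [if_pos hev]
  refine h1.trans ((Finset.sum_le_sum fun Γ hΓ => (h28_row ha ha1 hc hc1 R b q hq Γ s).trans_eq
    (by rw [(Finset.mem_powersetCard.1 hΓ).2])).trans_eq ?_)
  rw [Finset.sum_const, nsmul_eq_mul, hT, Finset.card_powersetCard, Finset.card_univ,
    Fintype.card_fin]

/-- LS-S2: bad neighbours in a row (uses Q5) -/
theorem st_h2 {δ ε dA h z0 dC ζ : ℝ} (P : Par δ ε dA h z0 dC ζ) (m : ℕ)
    (hm : 5 ≤ ε * δ / 1024 * m) (η : ℝ) (hη : 0 < η) :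
    ∀ᶠ n : ℕ in atTop, ∀ R : Gr n, Reserve R (δ / 8) ζ →
      PR n (pa ε n) (pc ε n) (fun x => ¬ ∀ t s, ((stat R (bb δ ε n) (x t)).1.filter fun c =>
        (c, s) ∈ (stat R (bb δ ε n) (x t)).2.2).card ≤ m) ≤ η := by
  have ha : 0 < ε * δ / 1024 := by
    have := P.ε0
    have := P.δ0
    positivity
  filter_upwards [pr_bad P, h28_eventually ε P.ε0, h28_count ε (ε * δ / 1024) P.ε0 ha m hm η hη]
    with n hbad hn hcount R hR
  obtain ⟨-, ha0, ha1, hc0, hc1⟩ := hn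
  have hq := (hbad R hR).2
  have h1 : PR n (pa ε n) (pc ε n) (fun x => ¬ ∀ t s, ((stat R (bb δ ε n) (x t)).1.filter fun c =>
        (c, s) ∈ (stat R (bb δ ε n) (x t)).2.2).card ≤ m) ≤
      PR n (pa ε n) (pc ε n) (fun x => ∃ b ∈ (Finset.univ : Finset (Fin n × Fin n)),
        ¬ ((stat R (bb δ ε n) (x b.1)).1.filter fun c =>
        (c, b.2) ∈ (stat R (bb δ ε n) (x b.1)).2.2).card ≤ m) := by
    refine PR_mono ha0 ha1 hc0 hc1 fun x hx => ?_
    simp only [not_forall] at hx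
    obtain ⟨t, s, hts⟩ := hx
    exact ⟨(t, s), Finset.mem_univ _, hts⟩
  refine h1.trans ((PR_exists_le ha0 ha1 hc0 hc1 (Finset.univ : Finset (Fin n × Fin n))
    (fun b x => ¬ ((stat R (bb δ ε n) (x b.1)).1.filter fun c =>
        (c, b.2) ∈ (stat R (bb δ ε n) (x b.1)).2.2).card ≤ m)).trans ?_)
  have h2 : ∀ b : Fin n × Fin n, PR n (pa ε n) (pc ε n)
      (fun x => ¬ ((stat R (bb δ ε n) (x b.1)).1.filter fun c =>
        (c, b.2) ∈ (stat R (bb δ ε n) (x b.1)).2.2).card ≤ m) ≤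
      (n.choose (m + 1) : ℝ) * ((n : ℝ) ^ (-(ε * δ / 1024)) * pa ε n) ^ (m + 1) := by
    intro b
    rw [PR_row (pa ε n) (pc ε n) b.1 (fun y => ¬ ((stat R (bb δ ε n) y).1.filter fun c =>
        (c, b.2) ∈ (stat R (bb δ ε n) y).2.2).card ≤ m)]
    refine le_trans (le_of_eq ?_) (h28_row_many ha0 ha1 hc0 hc1 R (bb δ ε n) _ hq m b.2)
    congr!
  refine (Finset.sum_le_sum fun b _ => h2 b).trans ?_
  rw [Finset.sum_const, nsmul_eq_mul, Finset.card_univ, Fintype.card_prod, Fintype.card_fin]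
  refine le_trans (le_of_eq ?_) hcount
  push_cast
  ring

end Pool.Agent.Helper40.LS
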