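import Pool.Agent.Helper40.LS.Basic

/-! Project LS, module Q13: events for many rows. -/

set_option autoImplicit false
open Classical Filter Topology

namespace Pool.Agent.Helper40.LS

/-- the event that all rows of a set have a property -/
theorem PR_rows {n : ℕ} (pa pc : ℝ) (T : Finset (Fin n)) (ev : Row n → Prop) :
    PR n pa pc (fun x => ∀ t ∈ T, ev (x t)) =
      (∑ x ∈ (Finset.univ : Finset (Row n)).filter ev, rwt n pa pc x) ^ T.card := by
  rw [PR_eq]
  have h0 : ∀ x : Fin n → Row n, ind (∀ t ∈ T, ev (x t)) =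
      ∏ u, if u ∈ T then ind (ev (x u)) else 1 := by
    intro x
    rw [Finset.prod_ite_mem, Finset.univ_inter]
    by_cases h : ∀ t ∈ T, ev (x t)
    · rw [ind_true h, Finset.prod_eq_one fun t ht => ind_true (h t ht)]
    · rw [ind_false h]
      push Not at h
      obtain ⟨t, ht, hev⟩ := h
      rw [Finset.prod_eq_zero ht (ind_false hev)]
  have h1 : ∀ x : Fin n → Row n, (∏ t, rwt n pa pc (x t)) * ind (∀ t ∈ T, ev (x t)) =
      ∏ u, (rwt n pa pc (x u) * if u ∈ T then ind (ev (x u)) else 1) := by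
    intro x
    rw [h0, Finset.prod_mul_distrib]
  rw [Finset.sum_congr rfl fun x _ => h1 x,
    sum_prod_rows (fun u y => rwt n pa pc y * if u ∈ T then ind (ev y) else 1)]
  have h2 : ∀ u : Fin n, (∑ y, rwt n pa pc y * if u ∈ T then ind (ev y) else 1) =
      if u ∈ T then (∑ x ∈ (Finset.univ : Finset (Row n)).filter ev, rwt n pa pc x) else 1 := by
    intro u
    by_cases hu : u ∈ T
    · simp only [if_pos hu]
      rw [Finset.sum_filter]
      refine Finset.sum_congr rfl fun y _ => ?_
      unfold ind; split_ifs <;> simp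
    · simp only [if_neg hu, mul_one]
      exact sum_rwt pa pc
  rw [Finset.prod_congr rfl fun u _ => h2 u, Finset.prod_ite_mem, Finset.univ_inter,
    Finset.prod_const]

/-- LS-Q13: events for many rows -/
theorem many_rows {n : ℕ} {pa pc : ℝ} (ha : 0 ≤ pa) (ha1 : pa ≤ 1) (hc : 0 ≤ pc) (hc1 : pc ≤ 1)
    (ev : Row n → Prop) {q : ℝ}
    (hq : ∑ x ∈ (Finset.univ : Finset (Row n)).filter ev, rwt n pa pc x ≤ q) (M : ℕ) :
    PR n pa pc (fun x => M ≤ (Finset.univ.filter fun t => ev (x t)).card) ≤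
      n.choose M * q ^ M := by
  have h0 : 0 ≤ ∑ x ∈ (Finset.univ : Finset (Row n)).filter ev, rwt n pa pc x :=
    Finset.sum_nonneg fun x _ => rwt_nonneg ha ha1 hc hc1 x
  have h1 : PR n pa pc (fun x => M ≤ (Finset.univ.filter fun t => ev (x t)).card) ≤
      PR n pa pc (fun x => ∃ T ∈ Finset.powersetCard M (Finset.univ : Finset (Fin n)),
        ∀ t ∈ T, ev (x t)) := by
    refine PR_mono ha ha1 hc hc1 fun x hx => ?_
    obtain ⟨T, hT, hTc⟩ := Finset.exists_subset_card_eq hx
    refine ⟨T, Finset.mem_powersetCard.2 ⟨Finset.subset_univ _, hTc⟩, fun t ht => ?_⟩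
    exact (Finset.mem_filter.1 (hT ht)).2
  refine h1.trans ((PR_exists_le ha ha1 hc hc1 _ _).trans ?_)
  have h2 : ∀ T ∈ Finset.powersetCard M (Finset.univ : Finset (Fin n)),
      PR n pa pc (fun x => ∀ t ∈ T, ev (x t)) ≤ q ^ M := by
    intro T hT
    rw [PR_rows, (Finset.mem_powersetCard.1 hT).2]
    exact pow_le_pow_left₀ h0 hq M
  refine (Finset.sum_le_sum h2).trans ?_
  rw [Finset.sum_const, Finset.card_powersetCard, Finset.card_univ, Fintype.card_fin,
    nsmul_eq_mul]

end Pool.Agent.Helper40.LS
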