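import Pool.Agent.Helper40.LS.Q5
import Pool.Agent.Helper40.LS.Q13
import Pool.Agent.Helper40.LS.S23

/-! Project LS, module S3: rows in which a cell touches a bad column. -/

set_option autoImplicit false
open Classical Filter Topology

namespace Pool.Agent.Helper40.LS

/-- LS-S3: rows in which a cell touches a bad column (uses Q5, Q13) -/
theorem st_h3 {δ ε dA h z0 dC ζ : ℝ} (P : Par δ ε dA h z0 dC ζ) (m : ℕ)
    (hm : 5 ≤ ε * δ / 1024 * m) (η : ℝ) (hη : 0 < η) :
    ∀ᶠ n : ℕ in atTop, ∀ R : Gr n, Reserve R (δ / 8) ζ →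
      PR n (pa ε n) (pc ε n) (fun x => ¬ ∀ c s, (Finset.univ.filter fun t =>
        c ∈ (stat R (bb δ ε n) (x t)).1 ∧ (c, s) ∈ (stat R (bb δ ε n) (x t)).2.2).card ≤ m)
        ≤ η := by
  have ha : 0 < ε * δ / 1024 := by
    have := P.ε0
    have := P.δ0
    positivity
  filter_upwards [pr_bad P, h28_eventually ε P.ε0, h28_count ε (ε * δ / 1024) P.ε0 ha m hm η hη]
    with n hbad hn hcount R hR
  obtain ⟨-, ha0, ha1, hc0, hc1⟩ := hn
  have hq := (hbad R hR).2
  set ev : Fin n × Fin n → Row n → Prop := fun b y =>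
    b.1 ∈ (stat R (bb δ ε n) y).1 ∧ (b.1, b.2) ∈ (stat R (bb δ ε n) y).2.2 with hev
  have h1 : PR n (pa ε n) (pc ε n) (fun x => ¬ ∀ c s, (Finset.univ.filter fun t =>
        c ∈ (stat R (bb δ ε n) (x t)).1 ∧ (c, s) ∈ (stat R (bb δ ε n) (x t)).2.2).card ≤ m) ≤
      PR n (pa ε n) (pc ε n) (fun x => ∃ b ∈ (Finset.univ : Finset (Fin n × Fin n)),
        m + 1 ≤ (Finset.univ.filter fun t => ev b (x t)).card) := by
    refine PR_mono ha0 ha1 hc0 hc1 fun x hx => ?_
    simp only [not_forall, not_le] at hx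
    obtain ⟨c, s, hcs⟩ := hx
    exact ⟨(c, s), Finset.mem_univ _, hcs⟩
  refine h1.trans ((PR_exists_le ha0 ha1 hc0 hc1 (Finset.univ : Finset (Fin n × Fin n))
    (fun b x => m + 1 ≤ (Finset.univ.filter fun t => ev b (x t)).card)).trans ?_)
  have h2 : ∀ b : Fin n × Fin n, PR n (pa ε n) (pc ε n)
      (fun x => m + 1 ≤ (Finset.univ.filter fun t => ev b (x t)).card) ≤
      (n.choose (m + 1) : ℝ) * ((n : ℝ) ^ (-(ε * δ / 1024)) * pa ε n) ^ (m + 1) := by
    intro b
    have h3 := h28_row ha0 ha1 hc0 hc1 R (bb δ ε n) _ hq {b.1} b.2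
    rw [Finset.card_singleton, pow_one] at h3
    refine le_trans (le_of_eq ?_) (many_rows ha0 ha1 hc0 hc1 (ev b)
      (q := (n : ℝ) ^ (-(ε * δ / 1024)) * pa ε n) ?_ (m + 1))
    · congr!
    · refine le_trans (le_of_eq ?_) h3
      refine Finset.sum_congr ?_ fun _ _ => rfl
      ext y
      simp [hev]
  refine (Finset.sum_le_sum fun b _ => h2 b).trans ?_
  rw [Finset.sum_const, nsmul_eq_mul, Finset.card_univ, Fintype.card_prod, Fintype.card_fin]
  refine le_trans (le_of_eq ?_) hcount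
  push_cast
  ring

end Pool.Agent.Helper40.LS
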