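import Pool.Agent.Helper40.LS.Q5

/-! Project LS, module S4: number of bad columns of a row. -/

set_option autoImplicit false
open Classical Filter Topology

namespace Pool.Agent.Helper40.LS

theorem h40_pabounds {ε : ℝ} (h0 : 0 < ε) (h1 : ε < 1) : ∀ᶠ n : ℕ in atTop,
    (0 ≤ pa ε n ∧ pa ε n ≤ 1) ∧ (0 ≤ pc ε n ∧ pc ε n ≤ 1) := by
  have hl : Tendsto (fun n : ℕ => 3 * (Real.log n / n)) atTop (𝓝 (3 * 0)) := by
    refine Tendsto.const_mul _ ?_
    exact (Real.isLittleO_log_id_atTop.tendsto_div_nhds_zero).comp tendsto_natCast_atTop_atTop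
  rw [mul_zero] at hl
  filter_upwards [hl.eventually_lt_const zero_lt_one, eventually_ge_atTop 1] with n hn hn1
  have h3 : (1 : ℝ) ≤ n := by exact_mod_cast hn1
  have h4 := Real.log_nonneg h3
  have h5 : 0 ≤ Real.log n / n := by positivity
  have ha : pa ε n = (2 + ε / 2) * (Real.log n / n) := by rw [pa]; ring
  have hc : pc ε n = ε / 8 * (Real.log n / n) := by rw [pc]; ring
  rw [ha, hc]
  refine ⟨⟨by positivity, ?_⟩, ⟨by positivity, ?_⟩⟩ <;> nlinarith

/-- LS-S4: number of bad columns of a row (uses Q5) -/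
theorem st_sz {δ ε dA h z0 dC ζ : ℝ} (P : Par δ ε dA h z0 dC ζ) (η : ℝ) (hη : 0 < η) :
    ∀ᶠ n : ℕ in atTop, ∀ R : Gr n, Reserve R (δ / 8) ζ →
      PR n (pa ε n) (pc ε n) (fun x => ¬ ∀ t,
        (((stat R (bb δ ε n) (x t)).1.card : ℝ) ≤ ζ / 2 * n)) ≤ η := by
  have hlog : Tendsto (fun n : ℕ => Real.log n) atTop atTop :=
    Real.tendsto_log_atTop.comp tendsto_natCast_atTop_atTop
  have ha0 : 0 < ε * δ / 1024 := by have := P.ε0; have := P.δ0; positivity
  have hζ := P.ζ0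
  have hexp : Tendsto (fun n : ℕ => (n : ℝ) ^ 1 * Real.exp (-(n : ℝ))) atTop (𝓝 0) :=
    (Real.tendsto_pow_mul_exp_neg_atTop_nhds_zero 1).comp tendsto_natCast_atTop_atTop
  filter_upwards [pr_bad P, h40_pabounds P.ε0 P.ε1,
    hlog.eventually_ge_atTop (2 / (ε * δ / 1024 * (ζ / 2))), hexp.eventually_lt_const hη,
    eventually_ge_atTop 1] with n hbad hp hln hsmall hn1 R hR
  obtain ⟨⟨hpa0, hpa1⟩, hpc0, hpc1⟩ := hp
  have hn0 : (1 : ℝ) ≤ n := by exact_mod_cast hn1
  set a : ℝ := ε * δ / 1024 with ha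
  set q : ℝ := (n : ℝ) ^ (-a) with hq
  have hq0 : 0 < q := Real.rpow_pos_of_pos (by linarith) _
  have hqe : q = Real.exp (-(a * Real.log n)) := by
    rw [hq, Real.rpow_def_of_pos (by linarith)]; ring_nf
  have hq1 : q ≤ 1 := by
    rw [hqe, Real.exp_le_one_iff]
    have := Real.log_nonneg hn0
    have : 0 ≤ a * Real.log n := by positivity
    linarith
  set M : ℕ := ⌊ζ / 2 * n⌋₊ + 1 with hM
  have hMge : ζ / 2 * n ≤ M := by
    rw [hM]; push_cast
    exact (Nat.lt_floor_add_one _).le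
  -- one row
  have hone : ∑ x ∈ (Finset.univ : Finset (Row n)).filter
      (fun x => ¬ (((stat R (bb δ ε n) x).1.card : ℝ) ≤ ζ / 2 * n)), rwt n (pa ε n) (pc ε n) x ≤
      Real.exp (-(n : ℝ)) := by
    have h1 : ∑ x ∈ (Finset.univ : Finset (Row n)).filter
        (fun x => ¬ (((stat R (bb δ ε n) x).1.card : ℝ) ≤ ζ / 2 * n)),
        rwt n (pa ε n) (pc ε n) x ≤ ∑ x : Row n, rwt n (pa ε n) (pc ε n) x *
          ∑ Γ ∈ (Finset.univ : Finset (Fin n)).powersetCard M,
            ind (Γ ⊆ bad R x.2.1 (bb δ ε n)) := by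
      rw [Finset.sum_filter]
      refine Finset.sum_le_sum fun x _ => ?_
      have h0 := rwt_nonneg hpa0 hpa1 hpc0 hpc1 x
      have h2 : 0 ≤ ∑ Γ ∈ (Finset.univ : Finset (Fin n)).powersetCard M,
            ind (Γ ⊆ bad R x.2.1 (bb δ ε n)) := Finset.sum_nonneg fun _ _ => ind_nonneg _
      by_cases hx : (((stat R (bb δ ε n) x).1.card : ℝ) ≤ ζ / 2 * n)
      · rw [if_neg (not_not.2 hx)]; exact mul_nonneg h0 h2
      · rw [if_pos hx]
        refine le_mul_of_one_le_right h0 ?_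
        rw [not_le] at hx
        have h3 : M ≤ (bad R x.2.1 (bb δ ε n)).card := by
          have h4 : ⌊ζ / 2 * n⌋₊ < (bad R x.2.1 (bb δ ε n)).card := by
            rw [Nat.floor_lt (by positivity)]; exact hx
          omega
        obtain ⟨Γ, hΓ, hΓc⟩ := Finset.exists_subset_card_eq h3
        rw [← ind_true hΓ]
        exact Finset.single_le_sum (f := fun Γ => ind (Γ ⊆ bad R x.2.1 (bb δ ε n)))
          (fun _ _ => ind_nonneg _)
          (Finset.mem_powersetCard.2 ⟨Finset.subset_univ _, hΓc⟩)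
    refine h1.trans ?_
    rw [sum_row (pa ε n) (pc ε n) (fun _ C _ =>
      ∑ Γ ∈ (Finset.univ : Finset (Fin n)).powersetCard M, ind (Γ ⊆ bad R C (bb δ ε n)))]
    have cst : ∀ (p a : ℝ), Ex (n := n) p (fun _ => a) = a := by
      intro p a
      have := Ex_mul (n := n) p a (fun _ => 1)
      rw [Ex_one] at this
      simpa using this
    simp only [cst, Ex_sum]
    have h5 : ∑ Γ ∈ (Finset.univ : Finset (Fin n)).powersetCard M,
        Ex (pc ε n) (fun C : Gr n => ind (Γ ⊆ bad R C (bb δ ε n))) ≤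
        ∑ _Γ ∈ (Finset.univ : Finset (Fin n)).powersetCard M, q ^ M := by
      refine Finset.sum_le_sum fun Γ hΓ => ?_
      have := (hbad R hR).2 Γ
      rw [(Finset.mem_powersetCard.1 hΓ).2] at this
      exact this
    refine h5.trans ?_
    rw [Finset.sum_const, Finset.card_powersetCard, Finset.card_univ, Fintype.card_fin,
      nsmul_eq_mul]
    have e1 : ((n.choose M : ℕ) : ℝ) ≤ Real.exp (n : ℝ) := by
      have h2 : n.choose M ≤ 2 ^ n := Nat.choose_le_two_pow n M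
      have h3 : ((n.choose M : ℕ) : ℝ) ≤ ((2 ^ n : ℕ) : ℝ) := by exact_mod_cast h2
      refine h3.trans ?_
      push_cast
      have h4 : (2 : ℝ) ≤ Real.exp 1 := by
        have := Real.exp_one_gt_d9; linarith
      calc (2 : ℝ) ^ n ≤ (Real.exp 1) ^ n := pow_le_pow_left₀ (by norm_num) h4 n
        _ = Real.exp n := by rw [← Real.exp_nat_mul]; ring_nf
    have e2 : q ^ M ≤ Real.exp (-(2 * n : ℝ)) := by
      rw [hqe, ← Real.exp_nat_mul, Real.exp_le_exp]
      rw [div_le_iff₀ (by positivity)] at hln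
      have h6 : a * Real.log n * (ζ / 2 * n) ≤ a * Real.log n * M :=
        mul_le_mul_of_nonneg_left hMge (by
          have := Real.log_nonneg hn0
          positivity)
      have h7 : 2 * (n : ℝ) ≤ Real.log n * (a * (ζ / 2)) * n :=
        mul_le_mul_of_nonneg_right hln (by linarith)
      nlinarith
    calc ((n.choose M : ℕ) : ℝ) * q ^ M ≤ Real.exp n * Real.exp (-(2 * n : ℝ)) :=
          mul_le_mul e1 e2 (by positivity) (Real.exp_pos _).le
      _ = Real.exp (-(n : ℝ)) := by rw [← Real.exp_add]; ring_nf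
  have h8 : PR n (pa ε n) (pc ε n) (fun x => ¬ ∀ t,
        (((stat R (bb δ ε n) (x t)).1.card : ℝ) ≤ ζ / 2 * n)) ≤
      PR n (pa ε n) (pc ε n) (fun x => ∃ t ∈ (Finset.univ : Finset (Fin n)),
        ¬ (((stat R (bb δ ε n) (x t)).1.card : ℝ) ≤ ζ / 2 * n)) := by
    refine PR_mono hpa0 hpa1 hpc0 hpc1 fun x hx => ?_
    rw [not_forall] at hx
    obtain ⟨t, ht⟩ := hx
    exact ⟨t, Finset.mem_univ _, ht⟩
  refine h8.trans ((PR_exists_le hpa0 hpa1 hpc0 hpc1 Finset.univ
    (fun t (x : Fin n → Row n) => ¬ (((stat R (bb δ ε n) (x t)).1.card : ℝ) ≤ ζ / 2 * n))).trans ?_)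
  have h9 : ∀ t : Fin n, PR n (pa ε n) (pc ε n)
      (fun x => ¬ (((stat R (bb δ ε n) (x t)).1.card : ℝ) ≤ ζ / 2 * n)) ≤
      Real.exp (-(n : ℝ)) := by
    intro t
    rw [PR_row (pa ε n) (pc ε n) t
      (fun x => ¬ (((stat R (bb δ ε n) x).1.card : ℝ) ≤ ζ / 2 * n))]
    refine le_trans (le_of_eq (Finset.sum_congr ?_ fun _ _ => rfl)) hone
    ext x
    simp only [Finset.mem_filter]
  refine (Finset.sum_le_sum fun t _ => h9 t).trans ?_
  rw [Finset.sum_const, Finset.card_univ, Fintype.card_fin, nsmul_eq_mul]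
  have := hsmall.le
  rw [pow_one] at this
  exact this

end Pool.Agent.Helper40.LS
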