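import Pool.Agent.Helper40.LS.Q5
import Pool.Agent.Helper40.LS.Q13

/-! Project LS, module S5: rows in which a column has a cell which touches something bad. -/

set_option autoImplicit false
open Classical Filter Topology

namespace Pool.Agent.Helper40.LS

namespace S5

theorem Ex_const {n : ℕ} (p a : ℝ) : Ex (n := n) p (fun _ => a) = a := by
  have h := Ex_mul (n := n) p a (fun _ => 1)
  simpa [Ex_one] using h

theorem Pr_mem {X : Type} [Fintype X] (p : ℝ) (x : X) :
    FL.Pr p (fun S : Finset X => x ∈ S) = p := by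
  rw [FL.Pr_not, Pr_eq]
  have h := FL.gf (X := X) p (fun y => if y = x then 0 else 1)
  have h1 : ∀ y : X, (1 - p + p * if y = x then (0 : ℝ) else 1) = if y = x then 1 - p else 1 := by
    intro y; split_ifs <;> ring
  rw [Finset.prod_congr rfl fun y _ => h1 y, Finset.prod_ite_eq' Finset.univ x,
    if_pos (Finset.mem_univ x)] at h
  have h2 : ∀ S : Finset X, ind (x ∉ S) = ∏ y ∈ S, if y = x then (0 : ℝ) else 1 := by
    intro S
    by_cases hx : x ∈ S
    · rw [ind_false (not_not.2 hx)]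
      symm
      apply Finset.prod_eq_zero hx
      simp
    · rw [ind_true hx, Finset.prod_eq_one]
      intro y hy
      rw [if_neg]
      rintro rfl; exact hx hy
  have h3 : ∑ S : Finset X, FL.wt p S * ind (x ∉ S) = 1 - p := by
    rw [← h]
    exact Finset.sum_congr rfl fun S _ => by rw [h2]
  rw [h3]; ring

theorem row_dg {n : ℕ} {pa pc : ℝ} (ha : 0 ≤ pa) (ha1 : pa ≤ 1) (hc : 0 ≤ pc) (hc1 : pc ≤ 1)
    (R : Gr n) (b q : ℝ) (c : Fin n)
    (h1 : Ex pc (fun C : Gr n => ind (c ∈ bad R C b)) ≤ q)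
    (h2 : ∀ s, Ex pc (fun S : Gr n => ind (s ∈ bad (tr R) S b)) ≤ q) :
    ∑ x ∈ (Finset.univ : Finset (Row n)).filter (fun x => ∃ s, (c, s) ∈ (stat R b x).2.2),
      rwt n pa pc x ≤ q + n * (pa * q) := by
  have h3 := sum_row (n := n) pa pc (fun A C S => ind (c ∈ bad R C b) +
    ∑ s ∈ (Finset.univ : Finset (Fin n)), ind ((c, s) ∈ A) * ind (s ∈ bad (tr R) S b))
  have h4 : (Ex pa fun A : Gr n => Ex pc fun C : Gr n => Ex pc fun S : Gr n =>
      (ind (c ∈ bad R C b) +
        ∑ s ∈ (Finset.univ : Finset (Fin n)), ind ((c, s) ∈ A) * ind (s ∈ bad (tr R) S b))) =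
      Ex pc (fun C : Gr n => ind (c ∈ bad R C b)) +
        ∑ s ∈ (Finset.univ : Finset (Fin n)),
          pa * Ex pc (fun S : Gr n => ind (s ∈ bad (tr R) S b)) := by
    have e1 : ∀ A C : Gr n, (Ex pc fun S : Gr n => (ind (c ∈ bad R C b) +
        ∑ s ∈ (Finset.univ : Finset (Fin n)), ind ((c, s) ∈ A) * ind (s ∈ bad (tr R) S b))) =
        ind (c ∈ bad R C b) + ∑ s ∈ (Finset.univ : Finset (Fin n)),
          ind ((c, s) ∈ A) * Ex pc (fun S : Gr n => ind (s ∈ bad (tr R) S b)) := by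
      intro A C
      rw [Ex_add pc (fun _ => ind (c ∈ bad R C b)), Ex_const, Ex_sum]
      congr 1
      exact Finset.sum_congr rfl fun s _ => Ex_mul _ _ _
    simp only [e1]
    have e2 : ∀ A : Gr n, (Ex pc fun C : Gr n => (ind (c ∈ bad R C b) +
        ∑ s ∈ (Finset.univ : Finset (Fin n)),
          ind ((c, s) ∈ A) * Ex pc (fun S : Gr n => ind (s ∈ bad (tr R) S b)))) =
        Ex pc (fun C : Gr n => ind (c ∈ bad R C b)) + ∑ s ∈ (Finset.univ : Finset (Fin n)),
          ind ((c, s) ∈ A) * Ex pc (fun S : Gr n => ind (s ∈ bad (tr R) S b)) := by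
      intro A
      rw [Ex_add pc (fun C => ind (c ∈ bad R C b)), Ex_const]
    simp only [e2]
    rw [Ex_add pa (fun _ => Ex pc (fun C : Gr n => ind (c ∈ bad R C b))), Ex_const, Ex_sum]
    congr 1
    refine Finset.sum_congr rfl fun s _ => ?_
    have e3 : (fun A : Gr n => ind ((c, s) ∈ A) *
        Ex pc (fun S : Gr n => ind (s ∈ bad (tr R) S b))) =
        fun A : Gr n => Ex pc (fun S : Gr n => ind (s ∈ bad (tr R) S b)) * ind ((c, s) ∈ A) := by
      funext A; ring
    rw [e3, Ex_mul, Ex_ind pa (fun A : Gr n => (c, s) ∈ A), Pr_mem]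
    ring
  rw [h4] at h3
  have h5 : ∑ x ∈ (Finset.univ : Finset (Row n)).filter
      (fun x => ∃ s, (c, s) ∈ (stat R b x).2.2), rwt n pa pc x ≤
      ∑ x : Row n, rwt n pa pc x * (ind (c ∈ bad R x.2.1 b) +
        ∑ s ∈ (Finset.univ : Finset (Fin n)), ind ((c, s) ∈ x.1) *
          ind (s ∈ bad (tr R) x.2.2 b)) := by
    rw [Finset.sum_filter]
    refine Finset.sum_le_sum fun x _ => ?_
    have hw := rwt_nonneg (n := n) ha ha1 hc hc1 x
    have hnn : ∀ s ∈ (Finset.univ : Finset (Fin n)),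
        0 ≤ ind ((c, s) ∈ x.1) * ind (s ∈ bad (tr R) x.2.2 b) :=
      fun s _ => mul_nonneg (ind_nonneg _) (ind_nonneg _)
    split_ifs with h
    · obtain ⟨s, hs⟩ := h
      simp only [stat, Finset.mem_inter, touch, Finset.mem_filter, Finset.mem_univ,
        true_and] at hs
      obtain ⟨hs1, hs2⟩ := hs
      have : 1 ≤ ind (c ∈ bad R x.2.1 b) +
        ∑ s ∈ (Finset.univ : Finset (Fin n)), ind ((c, s) ∈ x.1) *
          ind (s ∈ bad (tr R) x.2.2 b) := by
        rcases hs2 with hs2 | hs2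
        · rw [ind_true hs2]
          have := Finset.sum_nonneg hnn
          linarith
        · have h6 := Finset.single_le_sum hnn (Finset.mem_univ s)
          rw [ind_true hs1, ind_true hs2] at h6
          have := ind_nonneg (c ∈ bad R x.2.1 b)
          linarith
      nlinarith
    · exact mul_nonneg hw (add_nonneg (ind_nonneg _) (Finset.sum_nonneg hnn))
  refine h5.trans ?_
  rw [h3]
  refine add_le_add h1 ?_
  refine le_trans (Finset.sum_le_sum fun s _ => mul_le_mul_of_nonneg_left (h2 s) ha) ?_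
  simp

end S5

open S5 in
theorem st_dg {δ ε dA h z0 dC ζ : ℝ} (P : Par δ ε dA h z0 dC ζ) (η : ℝ) (hη : 0 < η) :
    ∀ᶠ n : ℕ in atTop, ∀ R : Gr n, Reserve R (δ / 8) ζ →
      PR n (pa ε n) (pc ε n) (fun x => ¬ ∀ c, ((Finset.univ.filter fun t =>
        ∃ s, (c, s) ∈ (stat R (bb δ ε n) (x t)).2.2).card : ℝ) ≤ ζ * n) ≤ η := by
  have hε := P.ε0
  have hε1 := P.ε1
  have hδ := P.δ0
  have hζ := P.ζ0
  set a : ℝ := ε * δ / 1024 with hadef
  have ha : 0 < a := by positivity
  have hlogn : Tendsto (fun n : ℕ => Real.log n / n) atTop (𝓝 0) := by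
    have h1 := (Real.isLittleO_log_id_atTop).tendsto_div_nhds_zero
    exact h1.comp tendsto_natCast_atTop_atTop
  have hsmall : ∀ᶠ n : ℕ in atTop, Real.log n / n < 1 / 3 :=
    hlogn.eventually (gt_mem_nhds (by norm_num))
  -- the probability for one row tends to zero
  have hq : Tendsto (fun n : ℕ => 4 * (Real.log n * (n : ℝ) ^ (-a))) atTop (𝓝 0) := by
    have h1 : Tendsto (fun x : ℝ => Real.log x / x ^ a) atTop (𝓝 0) :=
      (isLittleO_log_rpow_atTop ha).tendsto_div_nhds_zero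
    have h2 : Tendsto (fun n : ℕ => 4 * (Real.log n / (n : ℝ) ^ a)) atTop (𝓝 (4 * 0)) :=
      (h1.comp tendsto_natCast_atTop_atTop).const_mul 4
    rw [mul_zero] at h2
    refine h2.congr fun n => ?_
    rw [Real.rpow_neg (Nat.cast_nonneg n), div_eq_mul_inv]
  set q0 : ℝ := Real.exp (-(2 / ζ)) with hq0
  have hq0pos : 0 < q0 := Real.exp_pos _
  have hqs : ∀ᶠ n : ℕ in atTop, 4 * (Real.log n * (n : ℝ) ^ (-a)) < q0 :=
    hq.eventually (gt_mem_nhds hq0pos)
  have hfin : Tendsto (fun n : ℕ => (n : ℝ) * Real.exp (-(n : ℝ))) atTop (𝓝 0) := by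
    have h1 := (Real.tendsto_pow_mul_exp_neg_atTop_nhds_zero 1).comp
      (tendsto_natCast_atTop_atTop (R := ℝ))
    refine h1.congr fun n => ?_
    simp
  have hfin' : ∀ᶠ n : ℕ in atTop, (n : ℝ) * Real.exp (-(n : ℝ)) < η :=
    hfin.eventually (gt_mem_nhds hη)
  filter_upwards [hsmall, hqs, hfin', eventually_ge_atTop 3, pr_bad P] with
    n hn1 hn2 hn4 hn3 hbad R hR
  have hn : (0 : ℝ) < n := by exact_mod_cast (by omega : 0 < n)
  have hn3' : (3 : ℝ) ≤ n := by exact_mod_cast hn3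
  have hL1 : 1 ≤ Real.log n := by
    rw [Real.le_log_iff_exp_le hn]
    have := Real.exp_one_lt_d9
    linarith
  have hL : 0 ≤ Real.log n := by linarith
  have hpa0 : 0 ≤ pa ε n := by unfold pa; positivity
  have hpa1 : pa ε n ≤ 1 := by
    unfold pa
    rw [mul_div_assoc]
    have : 0 ≤ Real.log n / n := by positivity
    nlinarith
  have hpc0 : 0 ≤ pc ε n := by unfold pc; positivity
  have hpc1 : pc ε n ≤ 1 := by
    unfold pc
    rw [mul_div_assoc]
    have : 0 ≤ Real.log n / n := by positivity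
    nlinarith
  set q : ℝ := 4 * (Real.log n * (n : ℝ) ^ (-a)) with hqdef
  have hna : 0 < (n : ℝ) ^ (-a) := Real.rpow_pos_of_pos hn _
  have hqnn : 0 ≤ q := by positivity
  have hb1 : ∀ c, Ex (pc ε n) (fun C : Gr n => ind (c ∈ bad R C (bb δ ε n))) ≤
      (n : ℝ) ^ (-a) := by
    intro c
    have h1 := (hbad R hR).2 {c}
    simpa using h1
  have hb2 : ∀ s, Ex (pc ε n) (fun C : Gr n => ind (s ∈ bad (tr R) C (bb δ ε n))) ≤
      (n : ℝ) ^ (-a) := by
    intro s
    have h1 := (hbad (tr R) hR.tr).2 {s}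
    simpa using h1
  have hrow : ∀ c, ∑ x ∈ (Finset.univ : Finset (Row n)).filter
      (fun x => ∃ s, (c, s) ∈ (stat R (bb δ ε n) x).2.2), rwt n (pa ε n) (pc ε n) x ≤ q := by
    intro c
    refine (row_dg hpa0 hpa1 hpc0 hpc1 R (bb δ ε n) _ c (hb1 c) hb2).trans ?_
    have hpn : (n : ℝ) * (pa ε n * (n : ℝ) ^ (-a)) =
        (2 + ε / 2) * Real.log n * (n : ℝ) ^ (-a) := by unfold pa; field_simp
    rw [hpn, hqdef]
    have h1 : 1 + (2 + ε / 2) * Real.log n ≤ 4 * Real.log n := by nlinarith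
    nlinarith
  set M : ℕ := ⌈ζ * n⌉₊ with hM
  have hMge : ζ * n ≤ M := Nat.le_ceil _
  refine le_trans (PR_mono hpa0 hpa1 hpc0 hpc1 (Q := fun x => ∃ c ∈ (Finset.univ : Finset (Fin n)),
    M ≤ (Finset.univ.filter fun t => ∃ s, (c, s) ∈ (stat R (bb δ ε n) (x t)).2.2).card) ?_) ?_
  · intro x hx
    push Not at hx
    obtain ⟨c, hc⟩ := hx
    exact ⟨c, Finset.mem_univ _, Nat.ceil_le.2 hc.le⟩
  · refine le_trans (PR_exists_le hpa0 hpa1 hpc0 hpc1 _ _) ?_
    have h1 : ∀ c ∈ (Finset.univ : Finset (Fin n)),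
        PR n (pa ε n) (pc ε n) (fun x => M ≤ (Finset.univ.filter fun t =>
          ∃ s, (c, s) ∈ (stat R (bb δ ε n) (x t)).2.2).card) ≤ Real.exp (-(n : ℝ)) := by
      intro c _
      have hmr := many_rows hpa0 hpa1 hpc0 hpc1
        (fun x => ∃ s, (c, s) ∈ (stat R (bb δ ε n) x).2.2) (q := q)
        (le_trans (le_of_eq (Finset.sum_congr (by ext; simp only [Finset.mem_filter])
          fun _ _ => rfl)) (hrow c)) M
      refine le_trans (PR_mono hpa0 hpa1 hpc0 hpc1 fun x hx => ?_) (hmr.trans ?_)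
      · exact le_of_le_of_eq hx (congrArg Finset.card (by ext; simp only [Finset.mem_filter]))
      have e1 : ((n.choose M : ℕ) : ℝ) ≤ Real.exp (n : ℝ) := by
        have h2 : n.choose M ≤ 2 ^ n := Nat.choose_le_two_pow n M
        have h3 : ((n.choose M : ℕ) : ℝ) ≤ ((2 ^ n : ℕ) : ℝ) := by exact_mod_cast h2
        refine h3.trans ?_
        push_cast
        have h4 : (2 : ℝ) ≤ Real.exp 1 := by
          have := Real.exp_one_gt_d9; linarith
        calc (2 : ℝ) ^ n ≤ (Real.exp 1) ^ n := pow_le_pow_left₀ (by norm_num) h4 n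
          _ = Real.exp n := by rw [← Real.exp_nat_mul]; ring_nf
      have e2 : q ^ M ≤ Real.exp (-(2 * n : ℝ)) := by
        calc q ^ M ≤ q0 ^ M := pow_le_pow_left₀ hqnn hn2.le M
          _ = Real.exp (M * (-(2 / ζ))) := by rw [hq0, ← Real.exp_nat_mul]
          _ ≤ Real.exp (-(2 * n : ℝ)) := by
            refine Real.exp_le_exp.2 ?_
            have : 2 * (n : ℝ) = ζ * n * (2 / ζ) := by field_simp
            have h5 : 0 < 2 / ζ := by positivity
            nlinarith [mul_le_mul_of_nonneg_right hMge h5.le]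
      calc ((n.choose M : ℕ) : ℝ) * q ^ M ≤ Real.exp n * Real.exp (-(2 * n : ℝ)) :=
            mul_le_mul e1 e2 (pow_nonneg hqnn M) (Real.exp_pos _).le
        _ = Real.exp (-(n : ℝ)) := by rw [← Real.exp_add]; ring_nf
    refine le_trans (Finset.sum_le_sum h1) ?_
    rw [Finset.sum_const, Finset.card_univ, Fintype.card_fin, nsmul_eq_mul]
    exact hn4.le

end Pool.Agent.Helper40.LS
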