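import Pool.Agent.Helper40.LS.S1
import Pool.Agent.Helper40.LS.S2
import Pool.Agent.Helper40.LS.S3
import Pool.Agent.Helper40.LS.S4
import Pool.Agent.Helper40.LS.S5
import Pool.Agent.Helper40.LS.Q14

/-! Project LS, module S6: the static properties. -/

set_option autoImplicit false
open Classical Filter Topology

namespace Pool.Agent.Helper40.LS

/-- LS-S6: the static properties (uses S1 - S5, Q14) -/
theorem pr_static {δ ε dA h z0 dC ζ : ℝ} (P : Par δ ε dA h z0 dC ζ) (m : ℕ)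
    (hm : 5 ≤ ε * δ / 1024 * m) (η : ℝ) (hη : 0 < η) :
    ∀ᶠ n : ℕ in atTop, ∀ R : Gr n, Reserve R (δ / 8) ζ →
      PR n (pa ε n) (pc ε n)
        (fun x => ¬ StatOK (fun t => stat R (bb δ ε n) (x t)) m ζ) ≤ η := by
  have h10 : 0 < η / 10 := by positivity
  filter_upwards [st_d1 P m (η / 10) h10, st_h2 P m hm (η / 10) h10, st_h3 P m hm (η / 10) h10,
    st_sz P (η / 10) h10, st_dg P (η / 10) h10, h40_pabounds P.ε0 P.ε1] with n e1 e2 e3 e4 e5 hp R hR
  obtain ⟨⟨ha0, ha1⟩, hc0, hc1⟩ := hp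
  set A1 : Gr n → (Fin n → Row n) → Prop := fun R x => ¬ ∀ t, ∀ c ∈ (stat R (bb δ ε n) (x t)).1,
        13 * m ≤ (nb (stat R (bb δ ε n) (x t)).2.2 c).card with hA1
  set A2 : Gr n → (Fin n → Row n) → Prop := fun R x => ¬ ∀ t s,
    ((stat R (bb δ ε n) (x t)).1.filter fun c =>
        (c, s) ∈ (stat R (bb δ ε n) (x t)).2.2).card ≤ m with hA2
  set A3 : Gr n → (Fin n → Row n) → Prop := fun R x => ¬ ∀ c s, (Finset.univ.filter fun t =>
        c ∈ (stat R (bb δ ε n) (x t)).1 ∧ (c, s) ∈ (stat R (bb δ ε n) (x t)).2.2).card ≤ m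
        with hA3
  set A4 : Gr n → (Fin n → Row n) → Prop := fun R x => ¬ ∀ t,
        (((stat R (bb δ ε n) (x t)).1.card : ℝ) ≤ ζ / 2 * n) with hA4
  set A5 : Gr n → (Fin n → Row n) → Prop := fun R x => ¬ ∀ c, ((Finset.univ.filter fun t =>
        ∃ s, (c, s) ∈ (stat R (bb δ ε n) (x t)).2.2).card : ℝ) ≤ ζ * n with hA5
  have f1 : ∀ R : Gr n, Reserve R (δ / 8) ζ → PR n (pa ε n) (pc ε n) (A1 R) ≤ η / 10 := e1
  have f2 : ∀ R : Gr n, Reserve R (δ / 8) ζ → PR n (pa ε n) (pc ε n) (A2 R) ≤ η / 10 := e2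
  have f3 : ∀ R : Gr n, Reserve R (δ / 8) ζ → PR n (pa ε n) (pc ε n) (A3 R) ≤ η / 10 := e3
  have f4 : ∀ R : Gr n, Reserve R (δ / 8) ζ → PR n (pa ε n) (pc ε n) (A4 R) ≤ η / 10 := e4
  have f5 : ∀ R : Gr n, Reserve R (δ / 8) ζ → PR n (pa ε n) (pc ε n) (A5 R) ≤ η / 10 := e5
  have sw : ∀ A : Gr n → (Fin n → Row n) → Prop,
      (∀ R : Gr n, Reserve R (δ / 8) ζ → PR n (pa ε n) (pc ε n) (A R) ≤ η / 10) →
      PR n (pa ε n) (pc ε n) (fun x => A (tr R) fun t => swapR (x t)) ≤ η / 10 := by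
    intro A hA
    rw [PR_swap (pa ε n) (pc ε n) (A (tr R))]
    exact hA (tr R) hR.tr
  have g1 := sw A1 f1
  have g2 := sw A2 f2
  have g3 := sw A3 f3
  have g4 := sw A4 f4
  have g5 := sw A5 f5
  have hor : PR n (pa ε n) (pc ε n) (fun x => ¬ StatOK (fun t => stat R (bb δ ε n) (x t)) m ζ) ≤
      PR n (pa ε n) (pc ε n) (fun x => A1 R x ∨ (A2 R x ∨ (A3 R x ∨ (A4 R x ∨ (A5 R x ∨
        ((A1 (tr R) fun t => swapR (x t)) ∨ ((A2 (tr R) fun t => swapR (x t)) ∨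
          ((A3 (tr R) fun t => swapR (x t)) ∨ ((A4 (tr R) fun t => swapR (x t)) ∨
            (A5 (tr R) fun t => swapR (x t)))))))))) ) := by
    refine PR_mono ha0 ha1 hc0 hc1 fun x hx => ?_
    by_contra hcon
    simp only [not_or] at hcon
    obtain ⟨b1, b2, b3, b4, b5, c1, c2, c3, c4, c5⟩ := hcon
    simp only [hA1, hA2, hA3, hA4, hA5, not_not] at b1 b2 b3 b4 b5 c1 c2 c3 c4 c5
    simp only [stat_swap, mem_tr] at c1 c2 c3 c4 c5
    refine hx ⟨fun t => ?_, b1, c1, b2, fun t c => c2 t c, b3, fun c s => c3 s c, b4, c4, b5, c5⟩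
    exact Finset.inter_subset_right
  refine hor.trans ?_
  refine (PR_or_le ha0 ha1 hc0 hc1 _ _).trans ?_
  have i2 := PR_or_le ha0 ha1 hc0 hc1 (A2 R) (fun x => (A3 R x ∨ (A4 R x ∨ (A5 R x ∨
        ((A1 (tr R) fun t => swapR (x t)) ∨ ((A2 (tr R) fun t => swapR (x t)) ∨
          ((A3 (tr R) fun t => swapR (x t)) ∨ ((A4 (tr R) fun t => swapR (x t)) ∨
            (A5 (tr R) fun t => swapR (x t))))))))))
  have i3 := PR_or_le ha0 ha1 hc0 hc1 (A3 R) (fun x => ((A4 R x ∨ (A5 R x ∨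
        ((A1 (tr R) fun t => swapR (x t)) ∨ ((A2 (tr R) fun t => swapR (x t)) ∨
          ((A3 (tr R) fun t => swapR (x t)) ∨ ((A4 (tr R) fun t => swapR (x t)) ∨
            (A5 (tr R) fun t => swapR (x t))))))))))
  have i4 := PR_or_le ha0 ha1 hc0 hc1 (A4 R) (fun x => ((A5 R x ∨
        ((A1 (tr R) fun t => swapR (x t)) ∨ ((A2 (tr R) fun t => swapR (x t)) ∨
          ((A3 (tr R) fun t => swapR (x t)) ∨ ((A4 (tr R) fun t => swapR (x t)) ∨
            (A5 (tr R) fun t => swapR (x t)))))))))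
  have i5 := PR_or_le ha0 ha1 hc0 hc1 (A5 R) (fun x => (
        ((A1 (tr R) fun t => swapR (x t)) ∨ ((A2 (tr R) fun t => swapR (x t)) ∨
          ((A3 (tr R) fun t => swapR (x t)) ∨ ((A4 (tr R) fun t => swapR (x t)) ∨
            (A5 (tr R) fun t => swapR (x t))))))))
  have i6 := PR_or_le ha0 ha1 hc0 hc1 (fun x => A1 (tr R) fun t => swapR (x t)) (fun x => (
        ((A2 (tr R) fun t => swapR (x t)) ∨
          ((A3 (tr R) fun t => swapR (x t)) ∨ ((A4 (tr R) fun t => swapR (x t)) ∨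
            (A5 (tr R) fun t => swapR (x t)))))))
  have i7 := PR_or_le ha0 ha1 hc0 hc1 (fun x => A2 (tr R) fun t => swapR (x t)) (fun x => (
          ((A3 (tr R) fun t => swapR (x t)) ∨ ((A4 (tr R) fun t => swapR (x t)) ∨
            (A5 (tr R) fun t => swapR (x t))))))
  have i8 := PR_or_le ha0 ha1 hc0 hc1 (fun x => A3 (tr R) fun t => swapR (x t)) (fun x => (
          ((A4 (tr R) fun t => swapR (x t)) ∨
            (A5 (tr R) fun t => swapR (x t)))))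
  have i9 := PR_or_le ha0 ha1 hc0 hc1 (fun x => A4 (tr R) fun t => swapR (x t))
    (fun x => A5 (tr R) fun t => swapR (x t))
  have j1 := f1 R hR
  have j2 := f2 R hR
  have j3 := f3 R hR
  have j4 := f4 R hR
  have j5 := f5 R hR
  linarith

end Pool.Agent.Helper40.LS
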