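import Pool.Agent.Helper40.LS.G4
import Pool.Agent.Helper40.LS.Q17
import Pool.Agent.Helper9.LS.Q11
import Pool.Agent.Helper40.LS.Q12
import Pool.Agent.Helper5.LS.H6
import Pool.Agent.Helper40.LS.S6
import Pool.Agent.Helper9.LS.Q15
import Pool.Agent.Helper40.LS.H4
import Pool.Agent.Helper4.LS.InvStep
import Pool.Agent.Helper40.LS.F5
import Pool.Agent.Helper40.LS.H11
import Pool.Agent.Helper20.LS.Q16

/-! Project LS, assembly 5: the main theorem. -/

set_option autoImplicit false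
open Classical Filter Topology

namespace Pool.Agent.Helper40.LS

open Helper20.LS (sprinkle)

/-- probability that a row is not good -/
theorem not_good {δ ε dA h z0 dC ζ : ℝ} (P : Par δ ε dA h z0 dC ζ)
    (hSA : ∀ᶠ n : ℕ in atTop, ∀ p : ℝ, 0 ≤ p → p ≤ 1 → p ≤ 3 * Real.log n / n →
      Ex p (fun G : Gr n => ind (¬ SmallG G (δ / 4) dA (Real.log n))) ≤ (n : ℝ) ^ (-(2 : ℝ)))
    (hSC : ∀ᶠ n : ℕ in atTop, ∀ p : ℝ, 0 ≤ p → p ≤ 1 → p ≤ 3 * Real.log n / n →
      Ex p (fun G : Gr n => ind (¬ SmallG G (ε * (δ / 8) * z0 / 32) dC (Real.log n))) ≤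
        (n : ℝ) ^ (-(2 : ℝ))) :
    ∀ᶠ n : ℕ in atTop, ∑ x ∈ (Finset.univ : Finset (Row n)).filter
      (fun x => ¬ Good δ ε dA z0 dC x), rwt n (pa ε n) (pc ε n) x ≤ 5 * (n : ℝ) ^ (-(2 : ℝ)) := by
  filter_upwards [hSA, hSC, pr_maxdeg, pa_pc_bounds P.ε0 P.ε1, eventually_ge_atTop 1] with n hA hC
    hD hp hn1
  obtain ⟨⟨ha0, ha1⟩, hc0, hc1⟩ := hp
  have hn0 : (1 : ℝ) ≤ n := by exact_mod_cast hn1
  have hl := Real.log_nonneg hn0
  have hq : 0 ≤ Real.log n / n := by positivity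
  have hε := P.ε0
  have hε1 := P.ε1
  have e1 : pa ε n ≤ 3 * Real.log n / n := by
    rw [pa, mul_div_assoc, mul_div_assoc]; nlinarith
  have e2 : pc ε n ≤ 3 * Real.log n / n := by
    rw [pc, mul_div_assoc, mul_div_assoc]; nlinarith
  have e3 : pc ε n ≤ Real.log n / n := by
    rw [pc, mul_div_assoc]; nlinarith
  have f1 := hA _ ha0 ha1 e1
  have f2 := hC _ hc0 hc1 e2
  have f3 := hD _ hc0 hc1 e3
  set β : ℝ := (n : ℝ) ^ (-(2 : ℝ)) with hβ
  have g1 : ∑ x ∈ (Finset.univ : Finset (Row n)).filter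
      (fun x => ¬ Good δ ε dA z0 dC x), rwt n (pa ε n) (pc ε n) x ≤
      ∑ x : Row n, rwt n (pa ε n) (pc ε n) x *
        (ind (¬ SmallG x.1 (δ / 4) dA (Real.log n)) +
          (ind (¬ SmallG x.2.1 (ε * (δ / 8) * z0 / 32) dC (Real.log n)) +
            ind (∃ c, 8 * Real.log n < ((nb x.2.1 c).card : ℝ))) +
          (ind (¬ SmallG x.2.2 (ε * (δ / 8) * z0 / 32) dC (Real.log n)) +
            ind (∃ c, 8 * Real.log n < ((nb x.2.2 c).card : ℝ)))) := by
    rw [Finset.sum_filter]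
    refine Finset.sum_le_sum fun x _ => ?_
    have h0 := rwt_nonneg ha0 ha1 hc0 hc1 x
    have i1 := ind_nonneg (¬ SmallG x.1 (δ / 4) dA (Real.log n))
    have i2 := ind_nonneg (¬ SmallG x.2.1 (ε * (δ / 8) * z0 / 32) dC (Real.log n))
    have i3 := ind_nonneg (∃ c, 8 * Real.log n < ((nb x.2.1 c).card : ℝ))
    have i4 := ind_nonneg (¬ SmallG x.2.2 (ε * (δ / 8) * z0 / 32) dC (Real.log n))
    have i5 := ind_nonneg (∃ c, 8 * Real.log n < ((nb x.2.2 c).card : ℝ))
    by_cases hx : Good δ ε dA z0 dC x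
    · rw [if_neg (not_not.2 hx)]
      refine mul_nonneg h0 ?_
      linarith
    · rw [if_pos hx]
      refine le_mul_of_one_le_right h0 ?_
      by_contra hcon
      rw [not_le] at hcon
      refine hx ⟨?_, ?_, ?_, ?_, ?_⟩
      · by_contra h2; rw [ind_true h2] at hcon; linarith
      · by_contra h2; rw [ind_true h2] at hcon; linarith
      · by_contra h2; rw [ind_true h2] at hcon; linarith
      · intro c
        by_contra h2
        rw [ind_true (P := ∃ c, 8 * Real.log n < ((nb x.2.1 c).card : ℝ)) ⟨c, not_le.1 h2⟩] at hcon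
        linarith
      · intro c
        by_contra h2
        rw [ind_true (P := ∃ c, 8 * Real.log n < ((nb x.2.2 c).card : ℝ)) ⟨c, not_le.1 h2⟩] at hcon
        linarith
  refine g1.trans ?_
  have g2 := sum_row (n := n) (pa ε n) (pc ε n) (fun A C S =>
        (ind (¬ SmallG A (δ / 4) dA (Real.log n)) +
          (ind (¬ SmallG C (ε * (δ / 8) * z0 / 32) dC (Real.log n)) +
            ind (∃ c, 8 * Real.log n < ((nb C c).card : ℝ))) +
          (ind (¬ SmallG S (ε * (δ / 8) * z0 / 32) dC (Real.log n)) +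
            ind (∃ c, 8 * Real.log n < ((nb S c).card : ℝ)))))
  rw [g2]
  have cst : ∀ (p a : ℝ), Ex (n := n) p (fun _ => a) = a := by
    intro p a
    have := Ex_mul (n := n) p a (fun _ => 1)
    rw [Ex_one] at this
    simpa using this
  simp only [Ex_add, cst]
  linarith

theorem inv_start {n : ℕ} {δ z0 h : ℝ} (hδ : 0 < δ) (hz : 0 < z0) (hh : 0 < h) (R : Gr n)
    (M0 : Fin n → Gr n) : Inv δ z0 h R M0 0 (st0 n) := by
  have e1 : ∀ c : Fin n, nb (∅ : Gr n) c = ∅ := by intro c; ext s; simp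
  have e2 : tr (∅ : Gr n) = ∅ := by ext ⟨a, b⟩; simp
  refine ⟨fun c => ?_, fun c => ?_, ?_, fun c => ?_, fun c => ?_, fun j _ => ?_⟩
  · simp [st0, e1]
  · simp [st0, e1, e2]
  · simp only [st0, Finset.empty_inter, Finset.card_empty, Nat.cast_zero, zz, pow_zero]
    positivity
  · simp only [st0, e1, Finset.empty_inter, Finset.card_empty, Nat.cast_zero]
    positivity
  · simp only [st0, e1, e2, Finset.empty_inter, Finset.card_empty, Nat.cast_zero]
    positivity
  · simp [st0]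

/-- failure probability with a given static information -/
theorem static_run {δ ε dA h z0 dC ζ : ℝ} (P : Par δ ε dA h z0 dC ζ) (m : ℕ) (hm1 : 1 ≤ m) :
    ∀ᶠ n : ℕ in atTop, ∀ (k : ℕ) (R : Gr n) (σ : Fin n → Stat n), (k : ℝ) ≤ (1 - δ) * n →
      Reserve R (δ / 8) ζ → StatOK σ m ζ →
      ∑ x : Fin n → Row n, (∏ t, (rwt n (pa ε n) (pc ε n) (x t) *
          ind (stat R (bb δ ε n) (x t) = σ t))) *
        ind ((∀ t, Good δ ε dA z0 dC (x t)) ∧ ¬ Helper80.LR.Rect k fun t =>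
          (x t).1 ∪ ((x t).2.1 ∪ tr (x t).2.2)) ≤
      (1 / n + 2 * n / Real.exp (h * n / 16)) *
        ∏ t, ∑ x : Row n, rwt n (pa ε n) (pc ε n) x * ind (stat R (bb δ ε n) x = σ t) := by
  filter_upwards [row_fail P, row_pot P, pa_pc_bounds P.ε0 P.ε1, eventually_ge_atTop 1] with n hF hPt
    hp hn1 k R σ hk hR hσ
  obtain ⟨⟨ha0, ha1⟩, hc0, hc1⟩ := hp
  have hn0 : (0 : ℝ) < n := by exact_mod_cast hn1
  obtain ⟨M0, hM0⟩ := exists_M0 σ hm1 hσ
  have hkn : k ≤ n := by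
    have h1 : (k : ℝ) ≤ n := by have := P.δ0; nlinarith
    exact_mod_cast h1
  have hμ : ∀ (t : Fin n) (x : Row n), 0 ≤ rwt n (pa ε n) (pc ε n) x *
      ind (stat R (bb δ ε n) x = σ t) := fun t x =>
    mul_nonneg (rwt_nonneg ha0 ha1 hc0 hc1 x) (ind_nonneg _)
  have hβ0 : (0 : ℝ) ≤ (n : ℝ) ^ (-(2 : ℝ)) := Real.rpow_nonneg hn0.le _
  have htk : ∀ t : Fin n, (t : ℕ) < k → ((t : ℕ) : ℝ) ≤ (1 - δ) * n := by
    intro t ht
    have : ((t : ℕ) : ℝ) ≤ k := by exact_mod_cast ht.le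
    linarith
  have had := adaptive (X := Row n) (S := St n) hkn
    (fun t x => rwt n (pa ε n) (pc ε n) x * ind (stat R (bb δ ε n) x = σ t)) hμ
    (Good δ ε dA z0 dC) (stepR δ z0 h R M0) (fun t s => Inv δ z0 h R M0 t s) (fun t s => Psi δ t s)
    (Real.exp (h * n / 16)) ((n : ℝ) ^ (-(2 : ℝ))) (Real.exp_pos _) hβ0 (st0 n)
    (inv_start P.δ0 P.zpos P.h0 R M0)
    (fun t s => by
      rw [Psi]
      exact div_nonneg (Finset.sum_nonneg fun c _ => by positivity) (by positivity))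
    (by
      intro t ht s x s' hI hPs hst
      rw [stepR] at hst
      split_ifs at hst with H
      have h1 := Option.some.inj hst
      rw [← h1]
      exact inv_step P.δ0 P.zpos hM0 t hI (Classical.choose_spec H))
    (fun t ht s hI hPs => hF R σ M0 t s hR hM0 (htk t ht) hI hPs)
    (fun t ht s hI hPs => hPt R σ M0 t s hR hM0 (htk t ht) hI hPs)
  have hmass : 0 ≤ ∏ t, ∑ x : Row n, rwt n (pa ε n) (pc ε n) x *
      ind (stat R (bb δ ε n) x = σ t) :=
    Finset.prod_nonneg fun t _ => Finset.sum_nonneg fun x _ => hμ t x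
  have h1 : ∑ x : Fin n → Row n, (∏ t, (rwt n (pa ε n) (pc ε n) (x t) *
          ind (stat R (bb δ ε n) (x t) = σ t))) *
        ind ((∀ t, Good δ ε dA z0 dC (x t)) ∧ ¬ Helper80.LR.Rect k fun t =>
          (x t).1 ∪ ((x t).2.1 ∪ tr (x t).2.2)) ≤
      ∑ x : Fin n → Row n, (∏ t, (rwt n (pa ε n) (pc ε n) (x t) *
          ind (stat R (bb δ ε n) (x t) = σ t))) *
        ind ((∀ t, Good δ ε dA z0 dC (x t)) ∧ run (stepR δ z0 h R M0) (st0 n) x k = none) := by
    refine Finset.sum_le_sum fun x _ => mul_le_mul_of_nonneg_left (ind_mono ?_)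
      (Finset.prod_nonneg fun t _ => hμ t _)
    rintro ⟨hg, hr⟩
    refine ⟨hg, ?_⟩
    by_contra hrun
    obtain ⟨M, hM1, hM2⟩ := run_pms hkn hM0 x hrun
    exact hr (rect_of_pms _ M hM1 hM2)
  refine h1.trans (had.trans (mul_le_mul_of_nonneg_right ?_ hmass))
  have h2 : (n : ℝ) ^ (-(2 : ℝ)) = 1 / n * (1 / n) := by
    rw [Real.rpow_neg hn0.le, Real.rpow_two]; field_simp
  have h3 : Psi δ 0 (st0 n) = 2 * n := by
    rw [Psi]
    simp only [st0, Nat.cast_zero, Real.exp_zero, pow_zero, div_one, Finset.sum_const,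
      Finset.card_univ, Fintype.card_fin, nsmul_eq_mul]
    ring
  have h4 : (k : ℝ) * (n : ℝ) ^ (-(2 : ℝ)) ≤ 1 / n := by
    rw [h2]
    have h5 : (k : ℝ) ≤ n := by exact_mod_cast hkn
    have h6 : (k : ℝ) * (1 / n) ≤ 1 := by
      rw [mul_one_div, div_le_one hn0]; exact h5
    have h7 : (0 : ℝ) ≤ 1 / n := by positivity
    nlinarith
  have h5 : Psi δ 0 (st0 n) / Real.exp (h * n / 16) = 2 * n / Real.exp (h * n / 16) := by rw [h3]
  exact add_le_add h4 h5.le

/-- the numbers which tend to zero -/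
theorem small_num {h : ℝ} (hh : 0 < h) (η : ℝ) (hη : 0 < η) : ∀ᶠ n : ℕ in atTop,
    (1 / n + 2 * n / Real.exp (h * n / 16) : ℝ) ≤ η ∧ (5 / n : ℝ) ≤ η := by
  have h1 : Tendsto (fun n : ℕ => (1 : ℝ) / n) atTop (𝓝 0) := tendsto_one_div_atTop_nhds_zero_nat
  have h2 : Tendsto (fun x : ℝ => x ^ 1 * Real.exp (-x)) atTop (𝓝 0) :=
    Real.tendsto_pow_mul_exp_neg_atTop_nhds_zero 1
  have h3 : Tendsto (fun n : ℕ => h * n / 16) atTop atTop := by
    have : (fun n : ℕ => h * n / 16) = fun n : ℕ => h / 16 * (n : ℝ) := by funext n; ring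
    rw [this]
    exact Tendsto.const_mul_atTop (by positivity) tendsto_natCast_atTop_atTop
  have h4 := (h2.comp h3).const_mul (32 / h)
  rw [mul_zero] at h4
  filter_upwards [h1.eventually_lt_const (show 0 < η / 10 by positivity),
    h4.eventually_lt_const (show 0 < η / 2 by positivity), eventually_ge_atTop 1] with n e1 e2 hn
  have hn0 : (0 : ℝ) < n := by exact_mod_cast hn
  have e3 : (2 * n / Real.exp (h * n / 16) : ℝ) < η / 2 := by
    refine lt_of_eq_of_lt ?_ e2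
    simp only [Function.comp, pow_one]
    rw [Real.exp_neg]
    have := (Real.exp_pos (h * n / 16)).ne'
    field_simp
    ring
  constructor
  · linarith
  · have : (5 / n : ℝ) = 5 * (1 / n) := by ring
    rw [this]; linarith

/-- LS-G5: main theorem -/
theorem main_LS (δ ε : ℝ) (hδ : 0 < δ) (hδ1 : δ < 1) (hε : 0 < ε) (hε1 : ε < 1) (η : ℝ)
    (hη : 0 < η) : ∀ᶠ n : ℕ in atTop, ∀ (k : ℕ) (p : ℝ), (k : ℝ) ≤ (1 - δ) * n →
      (2 + ε) * Real.log n / n ≤ p → p ≤ 1 → 1 - η ≤ Helper80.LR.prRect n k p := by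
  obtain ⟨dA, h, z0, dC, ζ, P, hSA, hSC⟩ := exists_par δ ε hδ hδ1 hε hε1
    (fun d => ∀ᶠ n : ℕ in atTop, ∀ p : ℝ, 0 ≤ p → p ≤ 1 → p ≤ 3 * Real.log n / n →
      Ex p (fun G : Gr n => ind (¬ SmallG G (δ / 4) d (Real.log n))) ≤ (n : ℝ) ^ (-(2 : ℝ)))
    (pr_small (δ / 4) 3 (by positivity) (by norm_num))
    (fun z0 d => ∀ᶠ n : ℕ in atTop, ∀ p : ℝ, 0 ≤ p → p ≤ 1 → p ≤ 3 * Real.log n / n →
      Ex p (fun G : Gr n => ind (¬ SmallG G (ε * (δ / 8) * z0 / 32) d (Real.log n))) ≤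
        (n : ℝ) ^ (-(2 : ℝ)))
    (fun z0 hz0 => pr_small (ε * (δ / 8) * z0 / 32) 3 (by positivity) (by norm_num))
  obtain ⟨m, hm⟩ := exists_nat_ge (5 / (ε * δ / 1024) + 1)
  have ha : 0 < ε * δ / 1024 := by positivity
  have hm5 : 5 ≤ ε * δ / 1024 * m := by
    have h1 : 5 / (ε * δ / 1024) ≤ m := by linarith
    rw [div_le_iff₀ ha] at h1
    linarith
  have hm1 : 1 ≤ m := by
    have h1 : (0 : ℝ) ≤ 5 / (ε * δ / 1024) := by positivity
    have : (1 : ℝ) ≤ m := by linarith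
    exact_mod_cast this
  filter_upwards [reserve (δ / 8) ζ (by positivity) (by linarith) P.ζ0,
    pr_static P m hm5 (η / 3) (by positivity), not_good P hSA hSC, static_run P m hm1,
    pa_pc_bounds hε hε1, small_num P.h0 (η / 3) (by positivity), eventually_ge_atTop 1] with
    n hres hstat hng hrun hp hnum hn1 k p hk hpl hp1
  obtain ⟨⟨ha0, ha1⟩, hc0, hc1⟩ := hp
  obtain ⟨R, hR⟩ := hres
  have hn0 : (0 : ℝ) < n := by exact_mod_cast hn1
  have hlog : 0 ≤ Real.log n := Real.log_nonneg (by exact_mod_cast hn1)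
  have hsum : pa ε n + 2 * pc ε n ≤ p := by
    refine le_trans ?_ hpl
    rw [pa, pc]
    have h1 : (2 + ε / 2) * Real.log n / n + 2 * (ε / 8 * Real.log n / n) =
        (2 + 3 * ε / 4) * (Real.log n / n) := by ring
    have h2 : (2 + ε) * Real.log n / n = (2 + ε) * (Real.log n / n) := by ring
    rw [h1, h2]
    exact mul_le_mul_of_nonneg_right (by linarith) (by positivity)
  have hspr := sprinkle (n := n) (k := k) ha0 hc0 hp1 hsum
  refine le_trans ?_ hspr
  set Rc : (Fin n → Row n) → Prop := fun x =>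
    Helper80.LR.Rect k fun t => (x t).1 ∪ ((x t).2.1 ∪ tr (x t).2.2) with hRc
  have hsplit : PR n (pa ε n) (pc ε n) (fun x => ¬ Rc x) ≤
      PR n (pa ε n) (pc ε n) (fun x => ¬ StatOK (fun t => stat R (bb δ ε n) (x t)) m ζ) +
      (PR n (pa ε n) (pc ε n) (fun x => ∃ t ∈ (Finset.univ : Finset (Fin n)),
          ¬ Good δ ε dA z0 dC (x t)) +
        PR n (pa ε n) (pc ε n) (fun x => StatOK (fun t => stat R (bb δ ε n) (x t)) m ζ ∧
          (∀ t, Good δ ε dA z0 dC (x t)) ∧ ¬ Rc x)) := by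
    refine le_trans (PR_mono ha0 ha1 hc0 hc1
      (Q := fun x => (¬ StatOK (fun t => stat R (bb δ ε n) (x t)) m ζ) ∨
        ((∃ t ∈ (Finset.univ : Finset (Fin n)), ¬ Good δ ε dA z0 dC (x t)) ∨
        (StatOK (fun t => stat R (bb δ ε n) (x t)) m ζ ∧
          (∀ t, Good δ ε dA z0 dC (x t)) ∧ ¬ Rc x))) ?_) ?_
    · intro x hx
      by_cases h1 : StatOK (fun t => stat R (bb δ ε n) (x t)) m ζ
      · by_cases h2 : ∀ t, Good δ ε dA z0 dC (x t)
        · exact Or.inr (Or.inr ⟨h1, h2, hx⟩)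
        · rw [not_forall] at h2
          obtain ⟨t, ht⟩ := h2
          exact Or.inr (Or.inl ⟨t, Finset.mem_univ _, ht⟩)
      · exact Or.inl h1
    · refine (PR_or_le ha0 ha1 hc0 hc1 _ _).trans ?_
      have := PR_or_le ha0 ha1 hc0 hc1
        (fun x : Fin n → Row n => ∃ t ∈ (Finset.univ : Finset (Fin n)), ¬ Good δ ε dA z0 dC (x t))
        (fun x => StatOK (fun t => stat R (bb δ ε n) (x t)) m ζ ∧
          (∀ t, Good δ ε dA z0 dC (x t)) ∧ ¬ Rc x)
      linarith
  have h1 := hstat R hR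
  have h2 : PR n (pa ε n) (pc ε n) (fun x => ∃ t ∈ (Finset.univ : Finset (Fin n)),
      ¬ Good δ ε dA z0 dC (x t)) ≤ η / 3 := by
    refine (PR_exists_le ha0 ha1 hc0 hc1 Finset.univ
      (fun t (x : Fin n → Row n) => ¬ Good δ ε dA z0 dC (x t))).trans ?_
    have h3 : ∀ t : Fin n, PR n (pa ε n) (pc ε n) (fun x => ¬ Good δ ε dA z0 dC (x t)) ≤
        5 * (n : ℝ) ^ (-(2 : ℝ)) := by
      intro t
      rw [PR_row (pa ε n) (pc ε n) t (fun x => ¬ Good δ ε dA z0 dC x)]
      refine le_trans (le_of_eq (Finset.sum_congr ?_ fun _ _ => rfl)) hng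
      ext x
      simp only [Finset.mem_filter]
    refine (Finset.sum_le_sum fun t _ => h3 t).trans ?_
    rw [Finset.sum_const, Finset.card_univ, Fintype.card_fin, nsmul_eq_mul]
    have h4 : (n : ℝ) ^ (-(2 : ℝ)) = 1 / n * (1 / n) := by
      rw [Real.rpow_neg hn0.le, Real.rpow_two]; field_simp
    rw [h4]
    have h5 : (n : ℝ) * (5 * (1 / n * (1 / n))) = 5 / n := by field_simp
    rw [h5]
    exact hnum.2
  have h3 : PR n (pa ε n) (pc ε n) (fun x => StatOK (fun t => stat R (bb δ ε n) (x t)) m ζ ∧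
          (∀ t, Good δ ε dA z0 dC (x t)) ∧ ¬ Rc x) ≤ η / 3 := by
    rw [PR_eq]
    -- decompose by the static information
    have hone : ∀ q : Stat n, ∑ q' : Stat n, ind (q = q') = 1 := by
      intro q
      rw [Finset.sum_eq_single q]
      · exact ind_true rfl
      · intro b _ hb; exact ind_false fun h => hb h.symm
      · intro h; exact absurd (Finset.mem_univ q) h
    have hdec : ∀ x : Fin n → Row n, ∏ t, rwt n (pa ε n) (pc ε n) (x t) =
        ∑ σ : Fin n → Stat n, ∏ t, (rwt n (pa ε n) (pc ε n) (x t) *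
          ind (stat R (bb δ ε n) (x t) = σ t)) := by
      intro x
      rw [sum_prod_rows (fun t (q : Stat n) => rwt n (pa ε n) (pc ε n) (x t) *
          ind (stat R (bb δ ε n) (x t) = q))]
      refine Finset.prod_congr rfl fun t _ => ?_
      rw [← Finset.mul_sum, hone, mul_one]
    have h4 : ∑ x : Fin n → Row n, (∏ t, rwt n (pa ε n) (pc ε n) (x t)) *
        ind (StatOK (fun t => stat R (bb δ ε n) (x t)) m ζ ∧
          (∀ t, Good δ ε dA z0 dC (x t)) ∧ ¬ Rc x) =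
        ∑ σ : Fin n → Stat n, ∑ x : Fin n → Row n, (∏ t, (rwt n (pa ε n) (pc ε n) (x t) *
          ind (stat R (bb δ ε n) (x t) = σ t))) *
        ind (StatOK (fun t => stat R (bb δ ε n) (x t)) m ζ ∧
          (∀ t, Good δ ε dA z0 dC (x t)) ∧ ¬ Rc x) := by
      rw [Finset.sum_comm]
      refine Finset.sum_congr rfl fun x _ => ?_
      rw [← Finset.sum_mul, hdec x]
    rw [h4]
    have h5 : ∀ σ : Fin n → Stat n, ∑ x : Fin n → Row n, (∏ t, (rwt n (pa ε n) (pc ε n) (x t) *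
          ind (stat R (bb δ ε n) (x t) = σ t))) *
        ind (StatOK (fun t => stat R (bb δ ε n) (x t)) m ζ ∧
          (∀ t, Good δ ε dA z0 dC (x t)) ∧ ¬ Rc x) ≤
        η / 3 * ∏ t, ∑ x : Row n, rwt n (pa ε n) (pc ε n) x *
          ind (stat R (bb δ ε n) x = σ t) := by
      intro σ
      have hmass : 0 ≤ ∏ t, ∑ x : Row n, rwt n (pa ε n) (pc ε n) x *
          ind (stat R (bb δ ε n) x = σ t) :=
        Finset.prod_nonneg fun t _ => Finset.sum_nonneg fun x _ =>
          mul_nonneg (rwt_nonneg ha0 ha1 hc0 hc1 x) (ind_nonneg _)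
      have h6 : ∀ x : Fin n → Row n, (∏ t, (rwt n (pa ε n) (pc ε n) (x t) *
          ind (stat R (bb δ ε n) (x t) = σ t))) *
        ind (StatOK (fun t => stat R (bb δ ε n) (x t)) m ζ ∧
          (∀ t, Good δ ε dA z0 dC (x t)) ∧ ¬ Rc x) ≤
          (∏ t, (rwt n (pa ε n) (pc ε n) (x t) *
          ind (stat R (bb δ ε n) (x t) = σ t))) *
        (ind (StatOK σ m ζ) * ind ((∀ t, Good δ ε dA z0 dC (x t)) ∧ ¬ Rc x)) := by
        intro x
        by_cases hx : ∀ t, stat R (bb δ ε n) (x t) = σ t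
        · have e : (fun t => stat R (bb δ ε n) (x t)) = σ := funext hx
          rw [e, ind_and]
        · rw [not_forall] at hx
          obtain ⟨t, ht⟩ := hx
          rw [Finset.prod_eq_zero (Finset.mem_univ t) (by rw [ind_false ht, mul_zero]),
            zero_mul, zero_mul]
      refine (Finset.sum_le_sum fun x _ => h6 x).trans ?_
      by_cases hσ : StatOK σ m ζ
      · rw [ind_true hσ]
        simp only [one_mul]
        exact (hrun k R σ hk hR hσ).trans (mul_le_mul_of_nonneg_right hnum.1 hmass)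
      · rw [ind_false hσ]
        simp only [zero_mul, mul_zero, Finset.sum_const_zero]
        positivity
    refine (Finset.sum_le_sum fun σ _ => h5 σ).trans ?_
    rw [← Finset.mul_sum, sum_prod_rows (fun t (q : Stat n) => ∑ x : Row n,
      rwt n (pa ε n) (pc ε n) x * ind (stat R (bb δ ε n) x = q))]
    have h7 : ∀ t : Fin n, ∑ q : Stat n, ∑ x : Row n, rwt n (pa ε n) (pc ε n) x *
        ind (stat R (bb δ ε n) x = q) = 1 := by
      intro t
      rw [Finset.sum_comm]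
      have : ∀ x : Row n, ∑ q : Stat n, rwt n (pa ε n) (pc ε n) x *
        ind (stat R (bb δ ε n) x = q) = rwt n (pa ε n) (pc ε n) x := by
        intro x; rw [← Finset.mul_sum, hone, mul_one]
      rw [Finset.sum_congr rfl fun x _ => this x, sum_rwt]
    rw [Finset.prod_congr rfl fun t _ => h7 t, Finset.prod_const_one, mul_one]
  linarith

end Pool.Agent.Helper40.LS
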