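import Pool.Agent.Helper40.LS.G5
import Pool.Agent.Helper80.LR.Main
import Pool.Agent.Helper85.LR.Danger
import Pool.Agent.Helper40.LR.Loss
import Pool.Agent.Helper93.LR.Sparse
import Pool.Agent.Helper93.LR.Large
import Pool.Agent.Helper28.LR.Hall
import Pool.Agent.Helper14.LR.Mono
import Pool.Agent.Helper9.LR.Transfer

/-! Project LS, assembly 6: all `k ≤ c n`, `c < 1`. -/

set_option autoImplicit false
open Classical Filter Topology

namespace Pool.Agent.Helper40.LS

open Helper80.LR (prRect)

theorem prRect_le_one {n k : ℕ} {p : ℝ} (h0 : 0 ≤ p) (h1 : p ≤ 1) : prRect n k p ≤ 1 := by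
  have h := FL.sum_wt (X := Fin n × Fin n × Fin n) p
  have hc : Fintype.card (Fin n × Fin n × Fin n) = n ^ 3 := by
    simp only [Fintype.card_prod, Fintype.card_fin]; ring
  rw [← h, prRect]
  refine le_trans (Finset.sum_le_sum_of_subset_of_nonneg (Finset.subset_univ _)
    fun S _ _ => mul_nonneg (pow_nonneg h0 _) (pow_nonneg (by linarith) _)) (le_of_eq ?_)
  refine Finset.sum_congr rfl fun S _ => ?_
  rw [FL.wt, hc]

/-- the upper half for all `c < 1` -/
theorem upper_all (c : ℝ) (hc : c < 1) (k : ℕ → ℕ) (hk : ∀ n, 1 ≤ k n)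
    (hkc : ∀ᶠ n : ℕ in atTop, (k n : ℝ) ≤ c * n) (ε : ℝ) (hε : 0 < ε)
    (p : ℕ → ℝ) (hp : ∀ n, 0 ≤ p n ∧ p n ≤ 1)
    (h : ∀ᶠ n : ℕ in atTop, (1 + ε) * Real.log ((k n : ℝ) * n) / n ≤ p n) :
    Tendsto (fun n : ℕ => prRect n (k n) (p n)) atTop (𝓝 1) := by
  -- few rows
  set k1 : ℕ → ℕ := fun n => if (k n : ℝ) ≤ 1 / 4 * n then k n else 1 with hk1
  have h1 : ∀ n, 1 ≤ k1 n := by
    intro n
    rw [hk1]; simp only
    split_ifs
    · exact hk n
    · exact le_rfl
  have h2 : ∀ᶠ n : ℕ in atTop, (k1 n : ℝ) ≤ 1 / 4 * n := by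
    filter_upwards [eventually_ge_atTop 4] with n hn
    rw [hk1]; simp only
    split_ifs with h3
    · exact h3
    · have : (4 : ℝ) ≤ n := by exact_mod_cast hn
      push_cast; linarith
  have h3 : ∀ᶠ n : ℕ in atTop, (1 + ε) * Real.log ((k1 n : ℝ) * n) / n ≤ p n := by
    filter_upwards [h, eventually_ge_atTop 1] with n hn hn1
    refine le_trans ?_ hn
    have hn0 : (0 : ℝ) < n := by exact_mod_cast hn1
    have e1 : (k1 n : ℝ) ≤ k n := by
      have : k1 n ≤ k n := by
        rw [hk1]; simp only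
        split_ifs
        · exact le_rfl
        · exact hk n
      exact_mod_cast this
    have e2 : (1 : ℝ) ≤ k1 n := by exact_mod_cast h1 n
    have e3 : Real.log ((k1 n : ℝ) * n) ≤ Real.log ((k n : ℝ) * n) :=
      Real.log_le_log (by positivity) (mul_le_mul_of_nonneg_right e1 hn0.le)
    exact div_le_div_of_nonneg_right (mul_le_mul_of_nonneg_left e3 (by linarith)) hn0.le
  have few := Pool.Agent.Helper80.LR.upper
      Pool.Agent.Helper85.LR.danger Pool.Agent.Helper40.LR.loss
      Pool.Agent.Helper93.LR.sparse Pool.Agent.Helper93.LR.large Pool.Agent.Helper80.LR.hall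
      Pool.Agent.Helper14.LR.mono
      Pool.Agent.Helper9.LR.transfer (1 / 4) (by norm_num) k1 h1 h2 ε hε p hp h3
  -- many rows
  set δ : ℝ := min (1 - c) (1 / 2) with hδ
  have hδ0 : 0 < δ := lt_min (by linarith) (by norm_num)
  have hδ1 : δ < 1 := (min_le_right _ _).trans_lt (by norm_num)
  have hδc : c ≤ 1 - δ := by have := min_le_left (1 - c) (1 / 2 : ℝ); linarith
  set e : ℝ := min ε (1 / 2) with he
  have he0 : 0 < e := lt_min hε (by norm_num)
  have he1 : e < 1 := (min_le_right _ _).trans_lt (by norm_num)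
  have heε : e ≤ ε := min_le_left _ _
  have hlog : Tendsto (fun n : ℕ => Real.log n) atTop atTop :=
    Real.tendsto_log_atTop.comp tendsto_natCast_atTop_atTop
  rw [tendsto_order]
  constructor
  · intro a ha
    filter_upwards [(tendsto_order.1 few).1 a ha,
      main_LS δ e hδ0 hδ1 he0 he1 ((1 - a) / 2) (by linarith), hkc, h,
      hlog.eventually_ge_atTop ((1 + ε) * Real.log 4 / ε), eventually_ge_atTop 1] with
      n hfew hmany hkn hpn hln hn1
    have hn0 : (0 : ℝ) < n := by exact_mod_cast hn1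
    by_cases hcase : (k n : ℝ) ≤ 1 / 4 * n
    · have : k1 n = k n := by rw [hk1]; simp only; rw [if_pos hcase]
      rw [this] at hfew
      exact hfew
    · rw [not_le] at hcase
      have e1 : (k n : ℝ) ≤ (1 - δ) * n :=
        hkn.trans (mul_le_mul_of_nonneg_right hδc hn0.le)
      have e2 : (2 + e) * Real.log n / n ≤ p n := by
        refine le_trans ?_ hpn
        refine div_le_div_of_nonneg_right ?_ hn0.le
        have e3 : Real.log ((n : ℝ) * n / 4) ≤ Real.log ((k n : ℝ) * n) := by
          refine Real.log_le_log (by positivity) ?_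
          nlinarith
        rw [Real.log_div (by positivity) (by norm_num), Real.log_mul hn0.ne' hn0.ne'] at e3
        rw [div_le_iff₀ hε] at hln
        have hl0 : 0 ≤ Real.log n := Real.log_nonneg (by exact_mod_cast hn1)
        have e4 : e * Real.log n ≤ ε * Real.log n := mul_le_mul_of_nonneg_right heε hl0
        have e5 : (1 + ε) * (Real.log n + Real.log n - Real.log 4) ≤
            (1 + ε) * Real.log ((k n : ℝ) * n) := mul_le_mul_of_nonneg_left e3 (by linarith)
        nlinarith
      have := hmany (k n) (p n) e1 e2 (hp n).2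
      linarith
  · intro a ha
    exact Eventually.of_forall fun n => lt_of_le_of_lt (prRect_le_one (hp n).1 (hp n).2) ha

end Pool.Agent.Helper40.LS
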