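import Pool.Agent.Helper40.LS.Basic

/-! Project LS, module H1: a matching with prescribed covered vertices and small defect. -/

set_option autoImplicit false
open Classical Filter Topology

namespace Pool.Agent.Helper40.LS

/-- LS-H1: a matching which covers `X1` and `Z1` and has defect at most `d` -/
theorem ext_hall {n : ℕ} (G : Gr n) (Act Act' X1 Z1 : Finset (Fin n)) (d : ℕ)
    (hc : Act.card = Act'.card) (hX : X1 ⊆ Act) (hZ : Z1 ⊆ Act')
    (h1 : ∀ X ⊆ X1, X.card ≤ (Act'.filter fun s => ∃ c ∈ X, (c, s) ∈ G).card)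
    (h2 : ∀ Z ⊆ Z1, Z.card ≤ (Act.filter fun c => ∃ s ∈ Z, (c, s) ∈ G).card)
    (h3 : ∀ X ⊆ Act, ∀ Z ⊆ Act', (∀ c ∈ X, ∀ s ∈ Z, (c, s) ∉ G) →
      X.card + Z.card ≤ Act.card + d) :
    ∃ N ⊆ G ∩ box Act Act', IsMatch N ∧ X1 ⊆ cols N ∧ Z1 ⊆ syms N ∧ Act.card ≤ N.card + d := by
  let t : {c // c ∈ Act} ⊕ Fin d → Finset (Fin n ⊕ Fin d) := fun x => match x with
    | Sum.inl c => (Act'.filter fun s => (c.1, s) ∈ G).disjSum (if c.1 ∈ X1 then ∅ else Finset.univ)
    | Sum.inr _ => (Act' \ Z1).disjSum Finset.univ
  have hHall : ∀ s : Finset ({c // c ∈ Act} ⊕ Fin d), s.card ≤ (s.biUnion t).card := by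
    intro s
    set X : Finset (Fin n) := s.toLeft.map (Function.Embedding.subtype _) with hXdef
    have hXA : X ⊆ Act := by
      intro c hc
      rw [hXdef, Finset.mem_map] at hc
      obtain ⟨c', _, rfl⟩ := hc
      exact c'.2
    have hmem : ∀ c ∈ X, ∃ h : c ∈ Act, Sum.inl ⟨c, h⟩ ∈ s := by
      intro c hc
      rw [hXdef, Finset.mem_map] at hc
      obtain ⟨c', hc', rfl⟩ := hc
      rw [Finset.mem_toLeft] at hc'
      exact ⟨c'.2, hc'⟩
    have hcard : s.card = X.card + s.toRight.card := by
      rw [hXdef, Finset.card_map, Finset.card_toLeft_add_card_toRight]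
    set NG : Finset (Fin n) := Act'.filter fun v => ∃ c ∈ X, (c, v) ∈ G with hNG
    have hNGsub : ∀ v ∈ NG, Sum.inl v ∈ s.biUnion t := by
      intro v hv
      rw [hNG, Finset.mem_filter] at hv
      obtain ⟨hv, c, hcX, hcG⟩ := hv
      obtain ⟨hcA, hcs⟩ := hmem c hcX
      rw [Finset.mem_biUnion]
      refine ⟨_, hcs, ?_⟩
      simp only [t, Finset.inl_mem_disjSum, Finset.mem_filter]
      exact ⟨hv, hcG⟩
    by_cases hr : s.toRight.Nonempty
    · obtain ⟨i, hi⟩ := hr
      rw [Finset.mem_toRight] at hi
      set Z : Finset (Fin n) := Z1.filter fun v => ∀ c ∈ X, (c, v) ∉ G with hZdef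
      have hsub : (Act' \ Z).disjSum (Finset.univ : Finset (Fin d)) ⊆ s.biUnion t := by
        intro x hx
        rcases x with v | j
        · rw [Finset.inl_mem_disjSum, Finset.mem_sdiff] at hx
          by_cases hvZ : v ∈ Z1
          · have : ∃ c ∈ X, (c, v) ∈ G := by
              by_contra hcon
              push Not at hcon
              exact hx.2 (by rw [hZdef, Finset.mem_filter]; exact ⟨hvZ, hcon⟩)
            exact hNGsub v (by rw [hNG, Finset.mem_filter]; exact ⟨hx.1, this⟩)
          · rw [Finset.mem_biUnion]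
            refine ⟨_, hi, ?_⟩
            simp only [t, Finset.inl_mem_disjSum, Finset.mem_sdiff]
            exact ⟨hx.1, hvZ⟩
        · rw [Finset.mem_biUnion]
          refine ⟨_, hi, ?_⟩
          simp [t]
      have h5 := Finset.card_le_card hsub
      rw [Finset.card_disjSum, Finset.card_univ, Fintype.card_fin] at h5
      have hZA : Z ⊆ Act' := (Finset.filter_subset _ _).trans hZ
      rw [Finset.card_sdiff_of_subset hZA] at h5
      have h6 := h2 Z (Finset.filter_subset _ _)
      have h7 : X.card + (Act.filter fun c => ∃ s ∈ Z, (c, s) ∈ G).card ≤ Act.card := by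
        rw [← Finset.card_union_of_disjoint]
        · exact Finset.card_le_card (Finset.union_subset hXA (Finset.filter_subset _ _))
        · rw [Finset.disjoint_left]
          intro c hcX hc'
          rw [Finset.mem_filter] at hc'
          obtain ⟨_, v, hv, hcv⟩ := hc'
          rw [hZdef, Finset.mem_filter] at hv
          exact hv.2 c hcX hcv
      have h8 : s.toRight.card ≤ d := by
        have := Finset.card_le_univ s.toRight
        rwa [Fintype.card_fin] at this
      have h9 := Finset.card_le_card hZA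
      omega
    · rw [Finset.not_nonempty_iff_eq_empty] at hr
      rw [hr, Finset.card_empty, add_zero] at hcard
      rw [hcard]
      by_cases hX1 : X ⊆ X1
      · have hsub : NG.map Function.Embedding.inl ⊆ s.biUnion t := by
          intro x hx
          rw [Finset.mem_map] at hx
          obtain ⟨v, hv, rfl⟩ := hx
          exact hNGsub v hv
        have h5 := Finset.card_le_card hsub
        rw [Finset.card_map] at h5
        exact (h1 X hX1).trans h5
      · rw [Finset.not_subset] at hX1
        obtain ⟨c0, hc0, hc0'⟩ := hX1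
        obtain ⟨hcA, hcs⟩ := hmem c0 hc0
        have hsub : NG.disjSum (Finset.univ : Finset (Fin d)) ⊆ s.biUnion t := by
          intro x hx
          rcases x with v | j
          · rw [Finset.inl_mem_disjSum] at hx
            exact hNGsub v hx
          · rw [Finset.mem_biUnion]
            refine ⟨_, hcs, ?_⟩
            simp [t, hc0']
        have h5 := Finset.card_le_card hsub
        rw [Finset.card_disjSum, Finset.card_univ, Fintype.card_fin] at h5
        have h6 := h3 X hXA (Act' \ NG) Finset.sdiff_subset (by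
          intro c hcX v hv hcv
          rw [Finset.mem_sdiff] at hv
          exact hv.2 (by rw [hNG, Finset.mem_filter]; exact ⟨hv.1, c, hcX, hcv⟩))
        have h7 : NG ⊆ Act' := Finset.filter_subset _ _
        rw [Finset.card_sdiff_of_subset h7] at h6
        have h8 := Finset.card_le_card h7
        omega
  obtain ⟨f, hf, hft⟩ := (Finset.all_card_le_biUnion_card_iff_exists_injective t).1 hHall
  have hfl : ∀ (c : {c // c ∈ Act}) (v : Fin n), f (Sum.inl c) = Sum.inl v →
      v ∈ Act' ∧ (c.1, v) ∈ G := by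
    intro c v h
    have := hft (Sum.inl c)
    rw [h] at this
    simpa [t] using this
  have hfx : ∀ (c : {c // c ∈ Act}), c.1 ∈ X1 → ∃ v, f (Sum.inl c) = Sum.inl v := by
    intro c hcX
    have := hft (Sum.inl c)
    rcases hx : f (Sum.inl c) with v | j
    · exact ⟨v, rfl⟩
    · rw [hx] at this
      simp [t, hcX] at this
  -- the image of `f`
  have himg : Finset.univ.image f = Act'.disjSum (Finset.univ : Finset (Fin d)) := by
    apply Finset.eq_of_subset_of_card_le
    · intro x hx
      rw [Finset.mem_image] at hx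
      obtain ⟨y, _, rfl⟩ := hx
      have := hft y
      rcases hy : f y with v | j
      · rw [hy] at this
        rw [Finset.inl_mem_disjSum]
        rcases y with c | i
        · exact (hfl c v hy).1
        · simp only [t, Finset.inl_mem_disjSum, Finset.mem_sdiff] at this
          exact this.1
      · rw [Finset.inr_mem_disjSum]; exact Finset.mem_univ _
    · rw [Finset.card_image_of_injective _ hf, Finset.card_disjSum, Finset.card_univ,
        Finset.card_univ, Fintype.card_sum, Fintype.card_coe, hc]
  set N : Gr n := Finset.univ.filter fun e : Fin n × Fin n =>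
    ∃ h : e.1 ∈ Act, f (Sum.inl ⟨e.1, h⟩) = Sum.inl e.2 with hN
  have hmemN : ∀ e, e ∈ N ↔ ∃ h : e.1 ∈ Act, f (Sum.inl ⟨e.1, h⟩) = Sum.inl e.2 := by
    intro e; rw [hN, Finset.mem_filter]; simp
  refine ⟨N, ?_, ⟨?_, ?_⟩, ?_, ?_, ?_⟩
  · intro e he
    obtain ⟨h, he⟩ := (hmemN e).1 he
    have := hfl ⟨e.1, h⟩ e.2 he
    rw [Finset.mem_inter, mem_box]
    exact ⟨this.2, h, this.1⟩
  · intro e he e' he' hee
    obtain ⟨h, he⟩ := (hmemN e).1 he
    obtain ⟨h', he'⟩ := (hmemN e').1 he'
    have h5 : (⟨e.1, h⟩ : {c // c ∈ Act}) = ⟨e'.1, h'⟩ := Subtype.ext hee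
    rw [h5, he'] at he
    exact Prod.ext hee (Sum.inl_injective he).symm
  · intro e he e' he' hee
    obtain ⟨h, he⟩ := (hmemN e).1 he
    obtain ⟨h', he'⟩ := (hmemN e').1 he'
    rw [← hee, ← he] at he'
    have h5 := Sum.inl_injective (hf he')
    exact Prod.ext (congrArg Subtype.val h5).symm hee
  · intro c hcX
    obtain ⟨v, hv⟩ := hfx ⟨c, hX hcX⟩ hcX
    rw [mem_cols]
    exact ⟨v, (hmemN _).2 ⟨hX hcX, hv⟩⟩
  · intro v hv
    have h5 : Sum.inl v ∈ Finset.univ.image f := by
      rw [himg, Finset.inl_mem_disjSum]; exact hZ hv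
    rw [Finset.mem_image] at h5
    obtain ⟨x, _, hx⟩ := h5
    rw [mem_syms]
    rcases x with c | i
    · exact ⟨c.1, (hmemN _).2 ⟨c.2, hx⟩⟩
    · exfalso
      have := hft (Sum.inr i)
      rw [hx] at this
      simp only [t, Finset.inl_mem_disjSum, Finset.mem_sdiff] at this
      exact this.2 hv
  · let g : {c // c ∈ Act} → (Fin n × Fin n) ⊕ Fin d := fun c =>
      match f (Sum.inl c) with
      | Sum.inl v => Sum.inl (c.1, v)
      | Sum.inr i => Sum.inr i
    have hg : ∀ c, (∃ v, f (Sum.inl c) = Sum.inl v ∧ g c = Sum.inl (c.1, v)) ∨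
        ∃ i, f (Sum.inl c) = Sum.inr i ∧ g c = Sum.inr i := by
      intro c
      rcases hx : f (Sum.inl c) with v | i
      · left; exact ⟨v, rfl, by simp only [g]; rw [hx]⟩
      · right; exact ⟨i, rfl, by simp only [g]; rw [hx]⟩
    have h5 : (Finset.univ : Finset {c // c ∈ Act}).card ≤
        (N.disjSum (Finset.univ : Finset (Fin d))).card := by
      apply Finset.card_le_card_of_injOn g
      · intro c _
        rcases hg c with ⟨v, hv, hgv⟩ | ⟨i, hi, hgi⟩
        · rw [hgv, Finset.mem_coe, Finset.inl_mem_disjSum]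
          exact (hmemN _).2 ⟨c.2, hv⟩
        · rw [hgi, Finset.mem_coe, Finset.inr_mem_disjSum]
          exact Finset.mem_univ _
      · intro c _ c' _ hcc
        rcases hg c with ⟨v, hv, hgv⟩ | ⟨i, hi, hgi⟩ <;>
          rcases hg c' with ⟨v', hv', hgv'⟩ | ⟨i', hi', hgi'⟩
        · rw [hgv, hgv'] at hcc
          have := Sum.inl_injective hcc
          rw [Prod.ext_iff] at this
          exact Subtype.ext this.1
        · rw [hgv, hgi'] at hcc; exact absurd hcc (by simp)
        · rw [hgi, hgv'] at hcc; exact absurd hcc (by simp)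
        · rw [hgi, hgi'] at hcc
          have h6 := Sum.inr_injective hcc
          rw [h6, ← hi'] at hi
          exact Sum.inl_injective (hf hi)
    rw [Finset.card_univ, Fintype.card_coe, Finset.card_disjSum, Finset.card_univ,
      Fintype.card_fin] at h5
    exact h5

end Pool.Agent.Helper40.LS
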