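import Pool.Agent.Helper40.LS.Basic

/-! LS-H5: uniform samples. -/

set_option autoImplicit false
open Classical Filter Topology

namespace Pool.Agent.Helper40.LS

theorem H5_tail {n : ℕ} {p : ℝ} (h0 : 0 ≤ p) (h1 : p ≤ 1) (A : Gr n) (hA : A.card ≤ n)
    {ζ s : ℝ} (hs : 0 < s) (hs1 : s ≤ 1) (hsζ : 2 * s ≤ ζ) :
    FL.Pr p (fun S : Gr n => ζ * n < |((S ∩ A).card : ℝ) - p * A.card|) ≤
      2 * Real.exp (-(s ^ 2 * n)) := by
  have hA' : (A.card : ℝ) ≤ n := by exact_mod_cast hA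
  have hA0 : (0 : ℝ) ≤ A.card := Nat.cast_nonneg _
  have hn0 : (0 : ℝ) ≤ n := Nat.cast_nonneg _
  have hpa : p * A.card ≤ n := by nlinarith
  have hpa0 : 0 ≤ p * A.card := mul_nonneg h0 hA0
  have e1 := abs_le.1 (Real.abs_exp_sub_one_sub_id_le (x := s) (by rw [abs_of_pos hs]; exact hs1))
  have e2 := abs_le.1 (Real.abs_exp_sub_one_sub_id_le (x := -s)
    (by rw [abs_neg, abs_of_pos hs]; exact hs1))
  have hup := tail_upper h0 h1 A hs.le (p * A.card + ζ * n)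
  have hlo := tail_lower h0 h1 A hs.le (p * A.card - ζ * n)
  have hup' : FL.Pr p (fun S : Gr n => p * A.card + ζ * n ≤ ((S ∩ A).card : ℝ)) ≤
      Real.exp (-(s ^ 2 * n)) := by
    refine hup.trans (Real.exp_le_exp.2 ?_)
    have a1 : p * A.card * (Real.exp s - 1 - s) ≤ n * s ^ 2 := by
      calc p * A.card * (Real.exp s - 1 - s) ≤ p * A.card * s ^ 2 :=
            mul_le_mul_of_nonneg_left e1.2 hpa0
        _ ≤ n * s ^ 2 := mul_le_mul_of_nonneg_right hpa (by positivity)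
    have a2 : 2 * s * (s * n) ≤ ζ * (s * n) := mul_le_mul_of_nonneg_right hsζ (by positivity)
    nlinarith
  have hlo' : FL.Pr p (fun S : Gr n => ((S ∩ A).card : ℝ) ≤ p * A.card - ζ * n) ≤
      Real.exp (-(s ^ 2 * n)) := by
    refine hlo.trans (Real.exp_le_exp.2 ?_)
    have a1 : p * A.card * (Real.exp (-s) - 1 + s) ≤ n * s ^ 2 := by
      calc p * A.card * (Real.exp (-s) - 1 + s) ≤ p * A.card * s ^ 2 :=
            mul_le_mul_of_nonneg_left (by nlinarith [e2.2]) hpa0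
        _ ≤ n * s ^ 2 := mul_le_mul_of_nonneg_right hpa (by positivity)
    have a2 : 2 * s * (s * n) ≤ ζ * (s * n) := mul_le_mul_of_nonneg_right hsζ (by positivity)
    nlinarith
  have hor := FL.Pr_or_le h0 h1 (fun S : Gr n => p * A.card + ζ * n ≤ ((S ∩ A).card : ℝ))
    (fun S : Gr n => ((S ∩ A).card : ℝ) ≤ p * A.card - ζ * n)
  refine (FL.Pr_mono h0 h1 fun S hS => ?_).trans (hor.trans (by linarith))
  rcases lt_abs.1 hS with h | h
  · exact Or.inl (by linarith)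
  · exact Or.inr (by linarith)

/-- LS-H5: uniform samples -/
theorem sample (ζ : ℝ) (hζ : 0 < ζ) : ∀ᶠ n : ℕ in atTop, ∀ (E : Gr n) (T : Finset (Gr n))
    (lam : ℝ), E.card ≤ n → T.card ≤ 10 * n ^ 2 → 0 ≤ lam → lam ≤ 1 →
    ∃ P ⊆ E, ∀ D ∈ T, |((P ∩ D).card : ℝ) - lam * (E ∩ D).card| ≤ ζ * n := by
  obtain ⟨s, hs, hs1, hsζ⟩ : ∃ s : ℝ, 0 < s ∧ s ≤ 1 ∧ 2 * s ≤ ζ :=
    ⟨min (ζ / 2) 1, lt_min (by linarith) one_pos, min_le_right _ _, by
      have := min_le_left (ζ / 2) 1; linarith⟩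
  have hs2 : 0 < s ^ 2 := by positivity
  have hT : Tendsto (fun n : ℕ => 20 / s ^ 4 * ((s ^ 2 * (n : ℝ)) ^ 2 *
      Real.exp (-(s ^ 2 * (n : ℝ))))) atTop (𝓝 (20 / s ^ 4 * 0)) := by
    refine Tendsto.const_mul _ ?_
    exact (Real.tendsto_pow_mul_exp_neg_atTop_nhds_zero 2).comp
      (tendsto_natCast_atTop_atTop.const_mul_atTop hs2)
  rw [mul_zero] at hT
  filter_upwards [hT.eventually (gt_mem_nhds one_pos)] with n hn E T lam hE hTc h0 h1
  have hn' : 20 * (n : ℝ) ^ 2 * Real.exp (-(s ^ 2 * (n : ℝ))) < 1 := by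
    refine lt_of_eq_of_lt ?_ hn
    field_simp
  by_contra hcon
  push Not at hcon
  have hall : ∀ S : Gr n, ∃ D ∈ T, ζ * n < |((S ∩ (E ∩ D)).card : ℝ) - lam * (E ∩ D).card| := by
    intro S
    obtain ⟨D, hD, h⟩ := hcon (S ∩ E) Finset.inter_subset_right
    refine ⟨D, hD, ?_⟩
    rwa [Finset.inter_assoc] at h
  have hP1 : FL.Pr lam (fun S : Gr n => ∃ D ∈ T,
      ζ * n < |((S ∩ (E ∩ D)).card : ℝ) - lam * (E ∩ D).card|) = 1 := by
    rw [Pr_eq, ← FL.sum_wt (X := Fin n × Fin n) lam]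
    exact Finset.sum_congr rfl fun S _ => by rw [ind_true (hall S), mul_one]
  have hP2 := FL.Pr_exists_le h0 h1 T (fun (D : Gr n) (S : Gr n) =>
      ζ * n < |((S ∩ (E ∩ D)).card : ℝ) - lam * (E ∩ D).card|)
  rw [hP1] at hP2
  have hP3 : ∑ D ∈ T, FL.Pr lam (fun S : Gr n =>
      ζ * n < |((S ∩ (E ∩ D)).card : ℝ) - lam * (E ∩ D).card|) ≤
      ∑ D ∈ T, 2 * Real.exp (-(s ^ 2 * n)) :=
    Finset.sum_le_sum fun D _ => H5_tail h0 h1 (E ∩ D)
      ((Finset.card_le_card Finset.inter_subset_left).trans hE) hs hs1 hsζ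
  rw [Finset.sum_const, nsmul_eq_mul] at hP3
  have hTc' : (T.card : ℝ) ≤ 10 * (n : ℝ) ^ 2 := by exact_mod_cast hTc
  have h4 : (T.card : ℝ) * (2 * Real.exp (-(s ^ 2 * n))) ≤
      10 * (n : ℝ) ^ 2 * (2 * Real.exp (-(s ^ 2 * n))) :=
    mul_le_mul_of_nonneg_right hTc' (by positivity)
  linarith

end Pool.Agent.Helper40.LS
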