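import Pool.Agent.Helper29.LS.Q1

/-!
# LS-Q34 (project LS, MP_56dece_co): events and exponential moments for columns,
given the bad columns
-/

set_option autoImplicit false
open Classical Filter Topology

namespace Pool.Agent.Helper40.LS

/-- the factor of the column `c` in the indicator of `bad R C b = B` -/
noncomputable def gB {n : ℕ} (R : Gr n) (b : ℝ) (B : Finset (Fin n)) (c : Fin n)
    (Y : Finset (Fin n)) : ℝ := ind (((Y ∩ nb R c).card : ℝ) < b ↔ c ∈ B)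

theorem gB_nonneg {n : ℕ} (R : Gr n) (b : ℝ) (B : Finset (Fin n)) (c : Fin n)
    (Y : Finset (Fin n)) : 0 ≤ gB R b B c Y := ind_nonneg _

theorem gB_le_one {n : ℕ} (R : Gr n) (b : ℝ) (B : Finset (Fin n)) (c : Fin n)
    (Y : Finset (Fin n)) : gB R b B c Y ≤ 1 := ind_le_one _

theorem ind_bad_eq {n : ℕ} (R C : Gr n) (b : ℝ) (B : Finset (Fin n)) :
    ind (bad R C b = B) = ∏ c, gB R b B c (nb C c) := by
  by_cases h : bad R C b = B
  · rw [ind_true h, Finset.prod_eq_one]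
    intro c _
    unfold gB
    rw [ind_true]
    rw [← h]
    simp [bad]
  · rw [ind_false h]
    have h2 : ∃ c, ¬ (((nb C c ∩ nb R c).card : ℝ) < b ↔ c ∈ B) := by
      by_contra hc
      push Not at hc
      exact h (by ext c; simp [bad, hc c])
    obtain ⟨c, hc⟩ := h2
    rw [Finset.prod_eq_zero (Finset.mem_univ c)]
    exact ind_false hc

theorem sum_gB {n : ℕ} {p : ℝ} (R : Gr n) (b : ℝ)
    (B : Finset (Fin n)) (c : Fin n) (hc : c ∉ B)
    (hb : FL.Pr p (fun Y : Finset (Fin n) => ((Y ∩ nb R c).card : ℝ) < b) ≤ 1 / 2) :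
    1 / 2 ≤ ∑ Y : Finset (Fin n), FL.wt p Y * gB R b B c Y := by
  rw [Pr_eq] at hb
  have h2 : ∑ Y : Finset (Fin n), FL.wt p Y * gB R b B c Y +
      ∑ Y : Finset (Fin n), FL.wt p Y * ind (((Y ∩ nb R c).card : ℝ) < b) = 1 := by
    rw [← Finset.sum_add_distrib, ← FL.sum_wt (X := Fin n) p]
    refine Finset.sum_congr rfl fun Y _ => ?_
    unfold gB
    by_cases h : ((Y ∩ nb R c).card : ℝ) < b
    · rw [ind_true h, ind_false]
      · ring
      · intro h3; exact hc (h3.1 h)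
    · rw [ind_false h, ind_true]
      · ring
      · exact ⟨fun h3 => absurd h3 h, fun h3 => absurd h3 hc⟩
  linarith

theorem Ex_bad_mul {n : ℕ} (p : ℝ) (R : Gr n) (b : ℝ) (B Γ : Finset (Fin n))
    (f : Fin n → Finset (Fin n) → ℝ) :
    Ex p (fun C => ind (bad R C b = B) * ∏ c ∈ Γ, f c (nb C c)) =
      ∏ c, ∑ Y : Finset (Fin n), FL.wt p Y * (gB R b B c Y * if c ∈ Γ then f c Y else 1) := by
  rw [← col_prod p (fun c Y => gB R b B c Y * if c ∈ Γ then f c Y else 1)]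
  congr 1
  ext C
  rw [ind_bad_eq, Finset.prod_mul_distrib]
  congr 1
  rw [Finset.prod_ite_mem, Finset.univ_inter]

theorem cond_gen {n : ℕ} {p : ℝ} (h0 : 0 ≤ p) (h1 : p ≤ 1) (R : Gr n) (b : ℝ)
    (B Γ : Finset (Fin n)) (f : Fin n → Finset (Fin n) → ℝ) (K : Fin n → ℝ)
    (hf : ∀ c Y, 0 ≤ f c Y)
    (h : ∀ c ∈ Γ, ∑ Y : Finset (Fin n), FL.wt p Y * (gB R b B c Y * f c Y) ≤
      (∑ Y : Finset (Fin n), FL.wt p Y * gB R b B c Y) * K c) :
    Ex p (fun C => ind (bad R C b = B) * ∏ c ∈ Γ, f c (nb C c)) ≤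
      Ex p (fun C => ind (bad R C b = B)) * ∏ c ∈ Γ, K c := by
  have e1 : Ex p (fun C : Gr n => ind (bad R C b = B)) =
      ∏ c, ∑ Y : Finset (Fin n), FL.wt p Y * gB R b B c Y := by
    have := Ex_bad_mul p R b B ∅ f
    simpa using this
  have e2 : ∏ c ∈ Γ, K c = ∏ c, if c ∈ Γ then K c else 1 := by
    rw [Finset.prod_ite_mem, Finset.univ_inter]
  rw [Ex_bad_mul, e1, e2, ← Finset.prod_mul_distrib]
  refine Finset.prod_le_prod (fun c _ => Finset.sum_nonneg fun Y _ =>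
    mul_nonneg (FL.wt_nonneg h0 h1 Y) (mul_nonneg (gB_nonneg _ _ _ _ _) ?_)) fun c _ => ?_
  · split_ifs
    · exact hf c Y
    · norm_num
  · by_cases hc : c ∈ Γ
    · simpa only [if_pos hc] using h c hc
    · simp only [if_neg hc, mul_one, le_refl]

/-- LS-Q3: events for columns, given the bad columns (uses Q2) -/
theorem cond_col {n : ℕ} {p : ℝ} (h0 : 0 ≤ p) (h1 : p ≤ 1) (R : Gr n) (b : ℝ)
    (hb : ∀ c, FL.Pr p (fun Y : Finset (Fin n) => ((Y ∩ nb R c).card : ℝ) < b) ≤ 1 / 2)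
    (B Γ : Finset (Fin n)) (hΓ : Disjoint Γ B) (f : Fin n → Finset (Fin n) → ℝ)
    (hf : ∀ c Y, 0 ≤ f c Y) :
    Ex p (fun C => ind (bad R C b = B) * ∏ c ∈ Γ, f c (nb C c)) ≤
      Ex p (fun C => ind (bad R C b = B)) *
        ∏ c ∈ Γ, (2 * ∑ Y : Finset (Fin n), FL.wt p Y * f c Y) := by
  refine cond_gen h0 h1 R b B Γ f _ hf fun c hc => ?_
  have hcB : c ∉ B := Finset.disjoint_left.1 hΓ hc
  have h2 := sum_gB R b B c hcB (hb c)
  have h3 : ∑ Y : Finset (Fin n), FL.wt p Y * (gB R b B c Y * f c Y) ≤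
      ∑ Y : Finset (Fin n), FL.wt p Y * f c Y := by
    refine Finset.sum_le_sum fun Y _ => mul_le_mul_of_nonneg_left ?_ (FL.wt_nonneg h0 h1 Y)
    exact mul_le_of_le_one_left (hf c Y) (gB_le_one _ _ _ _ _)
  have h4 : 0 ≤ ∑ Y : Finset (Fin n), FL.wt p Y * f c Y :=
    Finset.sum_nonneg fun Y _ => mul_nonneg (FL.wt_nonneg h0 h1 Y) (hf c Y)
  nlinarith

/-- LS-Q4: exponential moments for columns, given the bad columns (uses Q2) -/
theorem cond_exp {n : ℕ} {p : ℝ} (h0 : 0 ≤ p) (h1 : p ≤ 1) (R : Gr n) (b : ℝ)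
    (hb : ∀ c, FL.Pr p (fun Y : Finset (Fin n) => ((Y ∩ nb R c).card : ℝ) < b) ≤ 1 / 2)
    (B Γ : Finset (Fin n)) (hΓ : Disjoint Γ B) (ev : Fin n → Finset (Fin n) → Prop) {a q : ℝ}
    (ha : 0 ≤ a) (hq : ∀ c ∈ Γ, FL.Pr p (ev c) ≤ q) :
    Ex p (fun C => ind (bad R C b = B) * ∏ c ∈ Γ, (1 + a * ind (ev c (nb C c)))) ≤
      Ex p (fun C => ind (bad R C b = B)) * (1 + 2 * a * q) ^ Γ.card := by
  rw [← Finset.prod_const]
  refine cond_gen h0 h1 R b B Γ (fun c Y => 1 + a * ind (ev c Y)) _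
    (fun c Y => by have := mul_nonneg ha (ind_nonneg (ev c Y)); linarith) fun c hc => ?_
  have hcB : c ∉ B := Finset.disjoint_left.1 hΓ hc
  have h2 := sum_gB R b B c hcB (hb c)
  have h5 : 0 ≤ FL.Pr p (ev c) := by
    rw [Pr_eq]
    exact Finset.sum_nonneg fun Y _ => mul_nonneg (FL.wt_nonneg h0 h1 Y) (ind_nonneg _)
  have h6 := hq c hc
  have h3 : ∑ Y : Finset (Fin n), FL.wt p Y * (gB R b B c Y * (1 + a * ind (ev c Y))) ≤
      ∑ Y : Finset (Fin n), FL.wt p Y * gB R b B c Y + a * FL.Pr p (ev c) := by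
    rw [Pr_eq, Finset.mul_sum, ← Finset.sum_add_distrib]
    refine Finset.sum_le_sum fun Y _ => ?_
    have h7 : gB R b B c Y * (a * ind (ev c Y)) ≤ a * ind (ev c Y) :=
      mul_le_of_le_one_left (mul_nonneg ha (ind_nonneg _)) (gB_le_one _ _ _ _ _)
    have h8 := mul_le_mul_of_nonneg_left h7 (FL.wt_nonneg h0 h1 Y)
    nlinarith
  have h9 : a * FL.Pr p (ev c) ≤ a * q := mul_le_mul_of_nonneg_left h6 ha
  have h10 : 0 ≤ a * q := mul_nonneg ha (h5.trans h6)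
  nlinarith

end Pool.Agent.Helper40.LS
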