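import Pool.Agent.Helper40.LS.Basic
import Pool.Agent.Helper40.LS.Q34
import Pool.Agent.Helper40.LS.Q5

/-! # LS-Q6: degrees in the reserve -/

set_option autoImplicit false
open Classical Filter Topology

namespace Pool.Agent.Helper40.LS

/-- the numerical facts used in `deg_fail` -/
theorem deg_num {δ ε dA h z0 dC ζ : ℝ} (P : Par δ ε dA h z0 dC ζ) :
    ∀ᶠ n : ℕ in atTop, 2 ≤ n ∧ 0 ≤ pc ε n ∧ pc ε n ≤ 1 ∧ 0 < bb δ ε n / 2 ∧
      0 < pc ε n * (4 * h * n) ∧ pc ε n * (4 * h * n) ≤ bb δ ε n / 2 ∧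
      5 * Real.log n ≤ bb δ ε n / 2 *
        (Real.log (bb δ ε n / 2 / (pc ε n * (4 * h * n))) - 1) ∧
      (n : ℝ) ^ (-(ε * δ / 1024)) ≤ 1 / 2 := by
  have hδ := P.δ0
  have hε := P.ε0
  have hε1 := P.ε1
  have hh := P.h0
  have hh1 := P.h1
  -- `n ^ (-a) → 0`
  have ha : 0 < ε * δ / 1024 := by positivity
  have t1 : Tendsto (fun n : ℕ => (n : ℝ) ^ (-(ε * δ / 1024))) atTop (𝓝 0) :=
    (tendsto_rpow_neg_atTop ha).comp tendsto_natCast_atTop_atTop
  have e1 : ∀ᶠ n : ℕ in atTop, (n : ℝ) ^ (-(ε * δ / 1024)) ≤ 1 / 2 :=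
    (t1.eventually (gt_mem_nhds (by norm_num : (0 : ℝ) < 1 / 2))).mono fun n hn => le_of_lt hn
  filter_upwards [e1, eventually_ge_atTop 2] with n h1 h2
  have hn : (2 : ℝ) ≤ n := by exact_mod_cast h2
  have hn0 : (0 : ℝ) < n := by linarith
  have hlog : 0 < Real.log n := Real.log_pos (by linarith)
  have hlogn : Real.log n ≤ n := (Real.log_le_sub_one_of_pos hn0).trans (by linarith)
  have hv : pc ε n * (4 * h * n) = ε / 2 * h * Real.log n := by
    unfold pc; field_simp; ring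
  have hL : bb δ ε n / 2 = ε * (δ / 8) / 64 * Real.log n := by
    unfold bb; ring
  have hv0 : 0 < pc ε n * (4 * h * n) := by rw [hv]; positivity
  have hL0 : 0 < bb δ ε n / 2 := by rw [hL]; positivity
  have hquot : bb δ ε n / 2 / (pc ε n * (4 * h * n)) = (δ / 8) / (32 * h) := by
    rw [hv, hL]; field_simp; ring
  have hexp : Real.exp (1 + 320 / (ε * (δ / 8))) ≤ (δ / 8) / (32 * h) := by
    rw [le_div_iff₀ (by positivity)]
    have h3 : 32 * h ≤ (δ / 8) * (Real.exp (-1) * Real.exp (-(320 / (ε * (δ / 8))))) := by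
      have h4 : (δ / 8) / (32 * Real.exp 1) * Real.exp (-(320 / (ε * (δ / 8)))) =
          (δ / 8) * (Real.exp (-1) * Real.exp (-(320 / (ε * (δ / 8))))) / 32 := by
        rw [Real.exp_neg 1]
        field_simp
      rw [h4] at hh1
      linarith
    rw [← Real.exp_add] at h3
    calc Real.exp (1 + 320 / (ε * (δ / 8))) * (32 * h)
        ≤ Real.exp (1 + 320 / (ε * (δ / 8))) *
          ((δ / 8) * Real.exp (-1 + -(320 / (ε * (δ / 8))))) :=
          mul_le_mul_of_nonneg_left h3 (Real.exp_nonneg _)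
      _ = (δ / 8) * (Real.exp (1 + 320 / (ε * (δ / 8))) *
          Real.exp (-1 + -(320 / (ε * (δ / 8))))) := by ring
      _ = δ / 8 := by
          rw [← Real.exp_add]
          have : 1 + 320 / (ε * (δ / 8)) + (-1 + -(320 / (ε * (δ / 8)))) = 0 := by ring
          rw [this, Real.exp_zero, mul_one]
  have hlq : 320 / (ε * (δ / 8)) ≤ Real.log (bb δ ε n / 2 / (pc ε n * (4 * h * n))) - 1 := by
    rw [hquot]
    have := (Real.le_log_iff_exp_le (by positivity)).2 hexp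
    linarith
  have h320 : 0 < 320 / (ε * (δ / 8)) := by positivity
  refine ⟨h2, ?_, ?_, hL0, hv0, ?_, ?_, h1⟩
  · unfold pc; positivity
  · unfold pc
    rw [div_le_one hn0]
    nlinarith
  · have h5 : 1 ≤ bb δ ε n / 2 / (pc ε n * (4 * h * n)) := by
      rw [hquot]
      refine le_trans ?_ hexp
      exact Real.one_le_exp (by positivity)
    rwa [one_le_div hv0] at h5
  · calc 5 * Real.log n = bb δ ε n / 2 * (320 / (ε * (δ / 8))) := by
          rw [hL]; field_simp; ring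
      _ ≤ _ := mul_le_mul_of_nonneg_left hlq hL0.le

/-- LS-Q6: degrees (uses Q3, Q5) -/
theorem deg_fail {δ ε dA h z0 dC ζ : ℝ} (P : Par δ ε dA h z0 dC ζ) :
    ∀ᶠ n : ℕ in atTop, ∀ (R B : Gr n) (Bd Act Al : Finset (Fin n)), Reserve R (δ / 8) ζ →
      Disjoint Act Bd →
      (∀ c ∈ Act, ((nb R c \ (nb B c ∩ Al)).card : ℝ) ≤ 4 * h * n) →
      Ex (pc ε n) (fun C => ind (bad R C (bb δ ε n) = Bd) *
        ind (∃ c ∈ Act, ((nb C c ∩ nb B c ∩ Al).card : ℝ) < bb δ ε n / 2)) ≤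
      (n : ℝ) ^ (-(3 : ℝ)) * Ex (pc ε n) (fun C => ind (bad R C (bb δ ε n) = Bd)) := by
  filter_upwards [deg_num P, pr_bad P] with n hnum hbad
  obtain ⟨h2, hp0, hp1, hL0, hv0, hvL, h5, hhalf⟩ := hnum
  intro R B Bd Act Al hR hdis hcard
  have hn : (2 : ℝ) ≤ n := by exact_mod_cast h2
  have hn0 : (0 : ℝ) < n := by linarith
  have hb : ∀ c, FL.Pr (pc ε n) (fun Y : Finset (Fin n) =>
      ((Y ∩ nb R c).card : ℝ) < bb δ ε n) ≤ 1 / 2 := fun c => ((hbad R hR).1 c).trans hhalf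
  set b := bb δ ε n with hbdef
  set p := pc ε n with hpdef
  set E := Ex p (fun C : Gr n => ind (bad R C b = Bd)) with hE
  have hE0 : 0 ≤ E := Ex_nonneg hp0 hp1 fun C => ind_nonneg _
  -- the event for one column
  have hcol : ∀ c ∈ Act, Ex p (fun C => ind (bad R C b = Bd) *
      ind (b / 2 ≤ ((nb C c ∩ (nb R c \ (nb B c ∩ Al))).card : ℝ))) ≤
      E * (2 * Real.exp (-(5 * Real.log n))) := by
    intro c hc
    have h3 := cond_col hp0 hp1 R b hb Bd {c}
      (Finset.disjoint_singleton_left.2 (Finset.disjoint_left.1 hdis hc))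
      (fun c Y => ind (b / 2 ≤ ((Y ∩ (nb R c \ (nb B c ∩ Al))).card : ℝ)))
      (fun c Y => ind_nonneg _)
    simp only [Finset.prod_singleton] at h3
    refine h3.trans (mul_le_mul_of_nonneg_left ?_ hE0)
    rw [← Pr_eq p (fun Y : Finset (Fin n) =>
      b / 2 ≤ ((Y ∩ (nb R c \ (nb B c ∩ Al))).card : ℝ))]
    refine mul_le_mul_of_nonneg_left ?_ (by norm_num)
    refine (tail_hits hp0 hp1 _ hL0 (mul_le_mul_of_nonneg_left (hcard c hc) hp0) hv0
      hvL).trans (Real.exp_le_exp.2 ?_)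
    linarith
  have hstep : Ex p (fun C => ind (bad R C b = Bd) *
      ind (∃ c ∈ Act, ((nb C c ∩ nb B c ∩ Al).card : ℝ) < b / 2)) ≤
      Ex p (fun C => ∑ c ∈ Act, ind (bad R C b = Bd) *
        ind (b / 2 ≤ ((nb C c ∩ (nb R c \ (nb B c ∩ Al))).card : ℝ))) := by
    refine Ex_mono hp0 hp1 fun C => ?_
    rw [← Finset.mul_sum]
    by_cases hB : bad R C b = Bd
    · refine mul_le_mul_of_nonneg_left ?_ (ind_nonneg _)
      refine (ind_mono ?_).trans (ind_exists_le Act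
        fun c => b / 2 ≤ ((nb C c ∩ (nb R c \ (nb B c ∩ Al))).card : ℝ))
      rintro ⟨c, hc, hlt⟩
      refine ⟨c, hc, ?_⟩
      have hcB : c ∉ bad R C b := by rw [hB]; exact Finset.disjoint_left.1 hdis hc
      have hge : b ≤ ((nb C c ∩ nb R c).card : ℝ) := by
        by_contra hcon
        exact hcB (by simp only [bad, Finset.mem_filter, Finset.mem_univ, true_and]; linarith)
      have hsub : nb C c ∩ nb R c ⊆
          (nb C c ∩ (nb R c \ (nb B c ∩ Al))) ∪ (nb C c ∩ nb B c ∩ Al) := by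
        intro s hs
        simp only [Finset.mem_inter, Finset.mem_union, Finset.mem_sdiff] at hs ⊢
        tauto
      have hle : ((nb C c ∩ nb R c).card : ℝ) ≤
          ((nb C c ∩ (nb R c \ (nb B c ∩ Al))).card : ℝ) + ((nb C c ∩ nb B c ∩ Al).card : ℝ) := by
        exact_mod_cast (Finset.card_le_card hsub).trans (Finset.card_union_le _ _)
      linarith
    · rw [ind_false hB, zero_mul, zero_mul]
  refine hstep.trans ?_
  rw [Ex_sum]
  refine (Finset.sum_le_sum hcol).trans ?_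
  rw [Finset.sum_const, nsmul_eq_mul]
  have hActn : (Act.card : ℝ) ≤ n := by
    have := Finset.card_le_univ Act
    rw [Fintype.card_fin] at this
    exact_mod_cast this
  have hexp : Real.exp (-(5 * Real.log n)) = (n : ℝ) ^ (-(5 : ℝ)) := by
    rw [Real.rpow_def_of_pos hn0]; congr 1; ring
  have h35 : (n : ℝ) ^ (-(3 : ℝ)) = (n : ℝ) ^ (2 : ℕ) * (n : ℝ) ^ (-(5 : ℝ)) := by
    rw [← Real.rpow_natCast, ← Real.rpow_add hn0]; norm_num
  have hx0 : 0 ≤ (n : ℝ) ^ (-(5 : ℝ)) := Real.rpow_nonneg hn0.le _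
  rw [hexp, h35]
  calc (Act.card : ℝ) * (E * (2 * (n : ℝ) ^ (-(5 : ℝ))))
      ≤ n * (E * (n * (n : ℝ) ^ (-(5 : ℝ)))) := by
        refine mul_le_mul hActn (mul_le_mul_of_nonneg_left
          (mul_le_mul_of_nonneg_right hn hx0) hE0) (by positivity) hn0.le
    _ = (n : ℝ) ^ (2 : ℕ) * (n : ℝ) ^ (-(5 : ℝ)) * E := by ring

end Pool.Agent.Helper40.LS
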