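import Pool.Agent.Helper40.LS.Basic

/-! Project LS, module S1: degrees of bad columns. -/

set_option autoImplicit false
open Classical Filter Topology

namespace Pool.Agent.Helper40.LS

namespace S1

theorem Ex_const {n : ℕ} (p a : ℝ) : Ex (n := n) p (fun _ => a) = a := by
  have h := Ex_mul (n := n) p a (fun _ => 1)
  simpa [Ex_one] using h

/-- an event for the first graph of a row -/
theorem row_A {n : ℕ} (pa pc : ℝ) (ev : Gr n → Prop) :
    ∑ x ∈ (Finset.univ : Finset (Row n)).filter (fun x => ev x.1), rwt n pa pc x =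
      FL.Pr pa ev := by
  have h := sum_row (n := n) pa pc (fun A _ _ => ind (ev A))
  simp only [Ex_const] at h
  rw [Ex_ind] at h
  rw [← h, Finset.sum_filter]
  refine Finset.sum_congr rfl fun x _ => ?_
  unfold ind; split_ifs <;> simp

/-- the star of a column -/
noncomputable def star (n : ℕ) (c : Fin n) : Gr n := Finset.univ.filter fun e => e.1 = c

theorem card_star {n : ℕ} (c : Fin n) : (star n c).card = n := by
  have : star n c = Finset.univ.image fun s : Fin n => (c, s) := by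
    ext ⟨a, b⟩
    simp only [star, Finset.mem_filter, Finset.mem_univ, true_and, Finset.mem_image, Prod.mk.injEq]
    constructor
    · rintro rfl; exact ⟨b, rfl, rfl⟩
    · rintro ⟨s, h, _⟩; exact h.symm
  rw [this, Finset.card_image_of_injective _ (fun a b h => (Prod.mk.inj h).2)]
  simp

theorem card_nb {n : ℕ} (G : Gr n) (c : Fin n) : (nb G c).card = (G ∩ star n c).card := by
  have : G ∩ star n c = (nb G c).image fun s => (c, s) := by
    ext ⟨a, b⟩
    simp only [star, Finset.mem_inter, Finset.mem_filter, Finset.mem_univ, true_and,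
      Finset.mem_image, mem_nb, Prod.mk.injEq]
    constructor
    · rintro ⟨h, rfl⟩; exact ⟨b, h, rfl, rfl⟩
    · rintro ⟨s, h, rfl, rfl⟩; exact ⟨h, rfl⟩
  rw [this, Finset.card_image_of_injective _ (fun a b h => (Prod.mk.inj h).2)]

theorem pr_low {n : ℕ} {p : ℝ} (h0 : 0 ≤ p) (h1 : p ≤ 1) (c : Fin n) {s : ℝ} (hs : 0 ≤ s)
    (L : ℝ) : FL.Pr p (fun G : Gr n => ((nb G c).card : ℝ) ≤ L) ≤
      Real.exp (s * L - p * n * (1 - Real.exp (-s))) := by
  have h := tail_lower h0 h1 (star n c) hs L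
  rw [card_star] at h
  refine le_trans (FL.Pr_mono h0 h1 fun S hS => ?_) h
  rw [← card_nb]; exact hS

theorem Pr_exists_le {n : ℕ} {p : ℝ} (h0 : 0 ≤ p) (h1 : p ≤ 1) {β : Type*} (s : Finset β)
    (A : β → Gr n → Prop) :
    FL.Pr p (fun G : Gr n => ∃ b ∈ s, A b G) ≤ ∑ b ∈ s, FL.Pr p (A b) := by
  rw [Pr_eq]
  simp only [Pr_eq]
  rw [Finset.sum_comm]
  refine Finset.sum_le_sum fun G _ => ?_
  rw [← Finset.mul_sum]
  exact mul_le_mul_of_nonneg_left (ind_exists_le _ _) (FL.wt_nonneg h0 h1 G)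

end S1

open S1 in
theorem st_d1 {δ ε dA h z0 dC ζ : ℝ} (P : Par δ ε dA h z0 dC ζ) (m : ℕ) (η : ℝ) (hη : 0 < η) :
    ∀ᶠ n : ℕ in atTop, ∀ R : Gr n, Reserve R (δ / 8) ζ →
      PR n (pa ε n) (pc ε n) (fun x => ¬ ∀ t, ∀ c ∈ (stat R (bb δ ε n) (x t)).1,
        13 * m ≤ (nb (stat R (bb δ ε n) (x t)).2.2 c).card) ≤ η := by
  have hε := P.ε0
  have hε1 := P.ε1
  set s : ℝ := Real.log (16 / ε) with hsdef
  have hs : 0 ≤ s := Real.log_nonneg (by rw [le_div_iff₀ hε]; linarith)
  have hes : Real.exp (-s) = ε / 16 := by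
    rw [hsdef, Real.exp_neg, Real.exp_log (by positivity)]
    field_simp
  have hlogn : Tendsto (fun n : ℕ => Real.log n / n) atTop (𝓝 0) := by
    have h1 := (Real.isLittleO_log_id_atTop).tendsto_div_nhds_zero
    exact h1.comp tendsto_natCast_atTop_atTop
  have hsmall : ∀ᶠ n : ℕ in atTop, Real.log n / n < 1 / 3 :=
    hlogn.eventually (gt_mem_nhds (by norm_num))
  have hpow : Tendsto (fun n : ℕ => Real.exp (s * (13 * m)) * (n : ℝ) ^ (-(ε / 4))) atTop
      (𝓝 0) := by
    have h1 : Tendsto (fun n : ℕ => (n : ℝ) ^ (-(ε / 4))) atTop (𝓝 0) :=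
      (tendsto_rpow_neg_atTop (by positivity)).comp tendsto_natCast_atTop_atTop
    simpa using h1.const_mul (Real.exp (s * (13 * m)))
  have hpow' : ∀ᶠ n : ℕ in atTop, Real.exp (s * (13 * m)) * (n : ℝ) ^ (-(ε / 4)) < η :=
    hpow.eventually (gt_mem_nhds hη)
  filter_upwards [hsmall, hpow', eventually_ge_atTop 3] with n hn1 hn2 hn3 R _
  have hn : (0 : ℝ) < n := by exact_mod_cast (by omega : 0 < n)
  have hn3' : (3 : ℝ) ≤ n := by exact_mod_cast hn3
  have hL : 0 ≤ Real.log n := Real.log_nonneg (by linarith)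
  have hpa0 : 0 ≤ pa ε n := by unfold pa; positivity
  have hpa1 : pa ε n ≤ 1 := by
    unfold pa
    rw [mul_div_assoc]
    have : 0 ≤ Real.log n / n := by positivity
    nlinarith
  have hpc0 : 0 ≤ pc ε n := by unfold pc; positivity
  have hpc1 : pc ε n ≤ 1 := by
    unfold pc
    rw [mul_div_assoc]
    have : 0 ≤ Real.log n / n := by positivity
    nlinarith
  refine le_trans (PR_mono hpa0 hpa1 hpc0 hpc1 (Q := fun x => ∃ t ∈ (Finset.univ : Finset (Fin n)),
    ∃ c ∈ (Finset.univ : Finset (Fin n)), ((nb (x t).1 c).card : ℝ) ≤ 13 * m) ?_) ?_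
  · intro x hx
    push Not at hx
    obtain ⟨t, c, hc, hcard⟩ := hx
    refine ⟨t, Finset.mem_univ _, c, Finset.mem_univ _, ?_⟩
    have e : nb (stat R (bb δ ε n) (x t)).2.2 c = nb (x t).1 c := by
      ext u
      simp only [mem_nb, stat, Finset.mem_inter, touch, Finset.mem_filter, Finset.mem_univ,
        true_and, and_iff_left_iff_imp]
      intro _
      left; exact hc
    rw [e] at hcard
    have : (((nb (x t).1 c).card : ℕ) : ℝ) ≤ ((13 * m : ℕ) : ℝ) := by exact_mod_cast hcard.le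
    simpa using this
  · refine le_trans (PR_exists_le hpa0 hpa1 hpc0 hpc1 _ _) ?_
    have h1 : ∀ t ∈ (Finset.univ : Finset (Fin n)),
        PR n (pa ε n) (pc ε n) (fun x => ∃ c ∈ (Finset.univ : Finset (Fin n)),
          ((nb (x t).1 c).card : ℝ) ≤ 13 * m) ≤
        n * Real.exp (s * (13 * m) - pa ε n * n * (1 - Real.exp (-s))) := by
      intro t _
      have h2 := PR_row (pa ε n) (pc ε n) t (fun y : Row n =>
        ∃ c ∈ (Finset.univ : Finset (Fin n)), ((nb y.1 c).card : ℝ) ≤ 13 * m)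
      rw [h2, row_A (pa ε n) (pc ε n) (fun A => ∃ c ∈ (Finset.univ : Finset (Fin n)),
        ((nb A c).card : ℝ) ≤ 13 * m)]
      refine le_trans (Pr_exists_le hpa0 hpa1 _ _) ?_
      refine le_trans (Finset.sum_le_sum fun c _ => pr_low hpa0 hpa1 c hs (13 * m)) ?_
      simp
    refine le_trans (Finset.sum_le_sum h1) ?_
    rw [Finset.sum_const, Finset.card_univ, Fintype.card_fin, nsmul_eq_mul, ← mul_assoc]
    refine le_trans ?_ hn2.le
    have hpn : pa ε n * n = (2 + ε / 2) * Real.log n := by unfold pa; field_simp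
    rw [hpn, hes, sub_eq_add_neg, Real.exp_add, mul_comm (n * n : ℝ), mul_assoc]
    refine mul_le_mul_of_nonneg_left ?_ (Real.exp_pos _).le
    have e1 : (n : ℝ) * n = Real.exp (2 * Real.log n) := by
      rw [two_mul, Real.exp_add, Real.exp_log hn]
    rw [e1, ← Real.exp_add, Real.rpow_def_of_pos hn]
    refine Real.exp_le_exp.2 ?_
    nlinarith [mul_nonneg hε.le hL, mul_nonneg (mul_nonneg hε.le hε.le) hL,
      mul_nonneg (mul_nonneg hε.le (by linarith : (0:ℝ) ≤ 1 - ε)) hL]

end Pool.Agent.Helper40.LS
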